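import Mathlib

set_option autoImplicit false

/-!
# Farkas' lemma for finitely many functionals over an ordered field
-/

namespace Pool.Agent.H47.FC

variable {F : Type*} [Field F] [LinearOrder F] [IsStrictOrderedRing F]

/-- Farkas' lemma (Bartl's form): if `b ≤ 0` on the cone where all `A j ≤ 0`, then `b` is a
nonnegative combination of the `A j`. -/
theorem farkas_fin {W : Type*} [AddCommGroup W] [Module F W] (m : ℕ) :
    ∀ (A : Fin m → W →ₗ[F] F) (b : W →ₗ[F] F),
      (∀ x, (∀ j, A j x ≤ 0) → b x ≤ 0) → ∃ U : Fin m → F, (∀ j, 0 ≤ U j) ∧ b = ∑ j, U j • A j := by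
  induction m with
  | zero =>
    intro A b h
    refine ⟨fun _ => 0, fun _ => le_rfl, ?_⟩
    ext x
    have h1 := h x (fun j => j.elim0)
    have h2 := h (-x) (fun j => j.elim0)
    simp only [map_neg, Left.neg_nonpos_iff] at h2
    simpa using le_antisymm h1 h2
  | succ m ih =>
    intro A b h
    by_cases hc : ∀ x, (∀ j : Fin m, A j.castSucc x ≤ 0) → b x ≤ 0
    · obtain ⟨U, hU, hb⟩ := ih (fun j => A j.castSucc) b hc
      refine ⟨Fin.snoc U 0, ?_, ?_⟩
      · intro j
        refine Fin.lastCases ?_ (fun i => ?_) j
        · simp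
        · simpa using hU i
      · rw [Fin.sum_univ_castSucc]
        simpa using hb
    · push Not at hc
      obtain ⟨x0, hx0, hbx0⟩ := hc
      have hlast : 0 < A (Fin.last m) x0 := by
        by_contra hcon
        push Not at hcon
        refine absurd (h x0 ?_) (not_le.2 hbx0)
        intro j
        refine Fin.lastCases hcon (fun i => hx0 i) j
      set a := A (Fin.last m) x0 with ha
      -- normalised vector
      set z : W := a⁻¹ • x0 with hz
      have haz : A (Fin.last m) z = 1 := by
        rw [hz, map_smul, ← ha, smul_eq_mul, inv_mul_cancel₀ hlast.ne']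
      have hbz : 0 < b z := by
        rw [hz, map_smul, smul_eq_mul]
        exact mul_pos (inv_pos.2 hlast) hbx0
      have hAz : ∀ j : Fin m, A j.castSucc z ≤ 0 := by
        intro j
        rw [hz, map_smul, smul_eq_mul]
        exact mul_nonpos_of_nonneg_of_nonpos (inv_pos.2 hlast).le (hx0 j)
      -- projection
      let L : W →ₗ[F] W := LinearMap.id - (A (Fin.last m)).smulRight z
      have hL : ∀ x, L x = x - (A (Fin.last m) x) • z := fun x => by simp [L]
      have hLl : ∀ x, A (Fin.last m) (L x) = 0 := fun x => by
        rw [hL, map_sub, map_smul, haz, smul_eq_mul, mul_one, sub_self]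
      obtain ⟨U, hU, hb⟩ := ih (fun j => (A j.castSucc).comp L) (b.comp L) (by
        intro x hx
        apply h (L x)
        intro j
        refine Fin.lastCases ?_ (fun i => hx i) j
        rw [hLl])
      refine ⟨Fin.snoc U (b z - ∑ j, U j * A j.castSucc z), ?_, ?_⟩
      · intro j
        refine Fin.lastCases ?_ (fun i => ?_) j
        · simp only [Fin.snoc_last]
          have : ∑ j, U j * A j.castSucc z ≤ 0 :=
            Finset.sum_nonpos fun j _ => mul_nonpos_of_nonneg_of_nonpos (hU j) (hAz j)
          linarith
        · simpa using hU i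
      · ext x
        have hx := congrArg (fun g : W →ₗ[F] F => g x) hb
        simp only [LinearMap.comp_apply, hL, map_sub, map_smul, LinearMap.coe_sum, Finset.sum_apply,
          LinearMap.smul_apply, smul_eq_mul] at hx
        rw [Fin.sum_univ_castSucc]
        simp only [Fin.snoc_castSucc, Fin.snoc_last, LinearMap.add_apply, LinearMap.coe_sum,
          Finset.sum_apply, LinearMap.smul_apply, smul_eq_mul]
        have e1 : b x = (A (Fin.last m) x) * b z +
            ∑ j, U j * (A j.castSucc x - (A (Fin.last m) x) * A j.castSucc z) := by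
          linarith
        rw [e1, sub_mul, Finset.sum_mul]
        have e2 : ∑ j, U j * (A j.castSucc x - (A (Fin.last m) x) * A j.castSucc z)
            = ∑ j, U j * A j.castSucc x - ∑ j, U j * A j.castSucc z * A (Fin.last m) x := by
          rw [← Finset.sum_sub_distrib]
          refine Finset.sum_congr rfl fun j _ => ?_
          ring
        rw [e2]
        ring

/-- Farkas' lemma for vectors: if every `c` that is nonnegative on all `v j` is nonnegative on `w`,
then `w` is a nonnegative combination of the `v j`. -/
theorem farkas_vec {E J : Type*} [Fintype E] [Fintype J] (v : J → E → F) (w : E → F)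
    (h : ∀ c : E → F, (∀ j, 0 ≤ ∑ e, c e * v j e) → 0 ≤ ∑ e, c e * w e) :
    ∃ U : J → F, (∀ j, 0 ≤ U j) ∧ ∀ e, w e = ∑ j, U j * v j e := by
  classical
  let ev : (E → F) → ((E → F) →ₗ[F] F) := fun y =>
    { toFun := fun c => ∑ e, c e * y e
      map_add' := fun c d => by
        simp only [Pi.add_apply, add_mul, Finset.sum_add_distrib]
      map_smul' := fun r c => by
        simp only [Pi.smul_apply, smul_eq_mul, RingHom.id_apply, Finset.mul_sum, mul_assoc] }
  have hev : ∀ y c, ev y c = ∑ e, c e * y e := fun y c => rfl
  let φ := Fintype.equivFin J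
  obtain ⟨U, hU, hb⟩ := farkas_fin (F := F) (Fintype.card J) (fun j => ev (v (φ.symm j))) (ev w) (by
    intro c hc
    have h1 := h (-c) (fun j => by
      have h2 := hc (φ j)
      simp only [Equiv.symm_apply_apply] at h2
      rw [hev] at h2
      simp only [Pi.neg_apply, neg_mul, Finset.sum_neg_distrib]
      linarith)
    rw [hev]
    simp only [Pi.neg_apply, neg_mul, Finset.sum_neg_distrib] at h1
    linarith)
  refine ⟨fun j => U (φ j), fun j => hU _, fun e => ?_⟩
  have h3 := congrArg (fun g : (E → F) →ₗ[F] F => g (Pi.single e 1)) hb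
  simp only [hev, LinearMap.coe_sum, Finset.sum_apply, LinearMap.smul_apply, smul_eq_mul,
    Pi.single_apply, ite_mul, one_mul, zero_mul, Finset.sum_ite_eq', Finset.mem_univ,
    if_true] at h3
  rw [h3]
  exact (Fintype.sum_equiv φ _ _ (fun j => by simp)).symm

end Pool.Agent.H47.FC
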