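import Pool.Agent.H47.FC.Even
import Pool.Agent.H47.FC.Farkas

set_option autoImplicit false

/-!
# Seymour's theorem on sums of circuits
-/

namespace Pool.Agent.H47.FC

open Finset

section comb

variable {V E : Type} [DecidableEq V] [DecidableEq E] [Fintype V] [Fintype E] (a b : E → V)

/-- conservative weights -/
def Cons (c : E → ℝ) : Prop := ∀ D : Finset E, EvenM a b D → 0 ≤ ∑ e ∈ D, c e

/-- the combinatorial core of the proof -/
theorem exists_special (c : E → ℝ) (hc : Cons a b c) (hloop : ∀ e, a e = b e → c e = 0)
    (hnz : ∀ e, a e ≠ b e → c e ≠ 0) (hneg : ∃ e, c e < 0) :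
    ∃ (v : V) (e : E), At a b e v ∧ c e < 0 ∧ (∀ g, g ≠ e → At a b g v → 0 < c g) ∧
      ∀ D : Finset E, EvenM a b D → ∑ e ∈ D, c e = 0 → e ∉ D → ∀ g ∈ D, ¬ At a b g v := by
  classical
  obtain ⟨e0, he0⟩ := hneg
  set s := a e0 with hs
  let Ω : Finset (V × Finset E) := univ.filter (fun p => bd a b p.2 = dl s + dl p.1)
  have hΩne : Ω.Nonempty := ⟨(b e0, {e0}), by simp [Ω, bd_singleton, hs]⟩
  obtain ⟨⟨v, P⟩, hvP, hmin⟩ := Finset.exists_min_image Ω
    (fun p => (toLex (∑ e ∈ p.2, c e, p.2.card) : ℝ ×ₗ ℕ)) hΩne
  have hbP : bd a b P = dl s + dl v := by simpa [Ω] using hvP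
  have hmin' : ∀ (v' : V) (P' : Finset E), bd a b P' = dl s + dl v' →
      ∑ e ∈ P, c e ≤ ∑ e ∈ P', c e ∧ (∑ e ∈ P', c e ≤ ∑ e ∈ P, c e → P.card ≤ P'.card) := by
    intro v' P' h
    have h1 := hmin (v', P') (by simp [Ω, h])
    rw [Prod.Lex.le_iff] at h1
    simp only [ofLex_toLex] at h1
    rcases h1 with h1 | ⟨h1, h2⟩
    · exact ⟨h1.le, fun h3 => absurd h1 (not_lt.2 h3)⟩
    · exact ⟨h1.le, fun _ => h2⟩
  have hcP : ∑ e ∈ P, c e < 0 := by
    have h1 := (hmin' (b e0) {e0} (by rw [bd_singleton])).1
    rw [sum_singleton] at h1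
    linarith
  have hvs : v ≠ s := by
    rintro rfl
    have h1 : EvenM a b P := by unfold EvenM; rw [hbP, add_self2]
    have := hc P h1
    linarith
  -- no even subset
  have F3 : ∀ D ⊆ P, EvenM a b D → D = ∅ := by
    intro D hD hE
    have h1 : bd a b (P \ D) = dl s + dl v := by
      rw [bd_sdiff a b hD, hbP, hE, add_zero]
    have h2 := hmin' v (P \ D) h1
    have h3 : ∑ e ∈ P \ D, c e + ∑ e ∈ D, c e = ∑ e ∈ P, c e := sum_sdiff hD
    have h4 := hc D hE
    have h5 := h2.2 (by linarith)
    have h6 := card_sdiff_add_card_eq_card hD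
    have h7 : D.card = 0 := by omega
    exact card_eq_zero.1 h7
  have hnoloop : ∀ g ∈ P, a g ≠ b g := by
    intro g hg h
    have h1 : EvenM a b {g} := by
      unfold EvenM; rw [bd_singleton, h, add_self2]
    have h2 := F3 {g} (singleton_subset_iff.2 hg) h1
    exact singleton_ne_empty g h2
  -- signs at `v`
  have F1 : ∀ g ∈ P, At a b g v → c g < 0 := by
    intro g hg hat
    obtain ⟨y, hy, hyv⟩ := hat.inc
    have h1 : bd a b (P.erase g) = dl s + dl y := by
      rw [bd_erase a b hg, hbP, hy.dl]
      have : dl s + dl v + (dl v + dl y) = dl s + dl y + (dl v + dl v) := by abel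
      rw [this, add_self2, add_zero]
    have h2 := hmin' y _ h1
    have h3 : c g + ∑ e ∈ P.erase g, c e = ∑ e ∈ P, c e := add_sum_erase P c hg
    have h4 : c g ≤ 0 := by linarith [h2.1]
    rcases h4.lt_or_eq with h5 | h5
    · exact h5
    · have h6 := h2.2 (by linarith)
      have h7 := card_erase_lt_of_mem hg
      omega
  have F2 : ∀ g, g ∉ P → At a b g v → 0 < c g := by
    intro g hg hat
    obtain ⟨y, hy, hyv⟩ := hat.inc
    have h1 : bd a b (insert g P) = dl s + dl y := by
      rw [bd_insert a b hg, hbP, hy.dl]
      have : dl s + dl v + (dl v + dl y) = dl s + dl y + (dl v + dl v) := by abel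
      rw [this, add_self2, add_zero]
    have h2 := (hmin' y _ h1).1
    rw [sum_insert hg] at h2
    have h3 : 0 ≤ c g := by linarith
    exact lt_of_le_of_ne h3 (hnz g hat.2).symm
  -- an edge of `P` at `v`
  have hexe : ∃ e ∈ P, At a b e v := by
    obtain ⟨g, hg, y, z, hyz, hy, hz⟩ := exists_leaving a b P {v} (by
      rw [sum_singleton, hbP, Pi.add_apply]
      unfold dl
      rw [if_neg hvs, if_pos rfl]; simp)
    rw [mem_singleton] at hy hz
    subst hy
    exact ⟨g, hg, hyz.at a b hz⟩
  obtain ⟨e, heP, heat⟩ := hexe
  -- uniqueness of that edge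
  have key : ∀ g ∈ P, At a b g v → ∀ x, Inc a b g v x → x ≠ v →
      Rch a b (P.filter (fun g => a g ≠ v ∧ b g ≠ v)) x s := by
    intro g hg hat x hx hxv
    by_contra hns
    obtain ⟨g', hg', hne, hat', Q, hQ, hEQ⟩ := exists_return a b hg hx hxv (by
      intro X hxX hvX hX
      rw [hbP]
      simp only [Pi.add_apply, sum_add_distrib, sum_dl]
      rw [if_neg hvX, if_neg (fun h => hns (hX s h)), add_zero])
    have h1 := F3 (Q ∪ {g, g'}) (by
      intro f hf
      rcases mem_union.1 hf with h | h
      · exact (mem_filter.1 (hQ h)).1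
      · rw [mem_insert, mem_singleton] at h
        rcases h with rfl | rfl
        · exact hg
        · exact hg') hEQ
    have h2 : g ∈ Q ∪ {g, g'} := by simp
    rw [h1] at h2
    exact notMem_empty _ h2
  have F4 : ∀ g ∈ P, At a b g v → g = e := by
    intro g hg hat
    by_contra hne
    obtain ⟨x, hx, hxv⟩ := heat.inc
    obtain ⟨y, hy, hyv⟩ := hat.inc
    have h1 := key e heP heat x hx hxv
    have h2 := key g hg hat y hy hyv
    obtain ⟨Q, hQ, hbQ⟩ := (h1.trans a b (h2.symm a b)).join a b
    have hdis : Disjoint Q ({e, g} : Finset E) := by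
      rw [Finset.disjoint_left]
      intro f hf hf'
      rw [mem_insert, mem_singleton] at hf'
      have h1 := (mem_filter.1 (hQ hf)).2
      rcases hf' with rfl | rfl
      · rcases heat.1 with h | h
        · exact h1.1 h
        · exact h1.2 h
      · rcases hat.1 with h | h
        · exact h1.1 h
        · exact h1.2 h
    have hE : EvenM a b (Q ∪ {e, g}) := by
      unfold EvenM
      rw [bd_union a b hdis, hbQ, bd_insert a b (by rw [mem_singleton]; exact fun h => hne h.symm),
        bd_singleton, hx.dl, hy.dl]
      have h5 : dl x + dl y + (dl v + dl y + (dl v + dl x))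
          = (dl x + dl x) + (dl y + dl y) + (dl v + dl v) := by abel
      rw [h5, add_self2 (dl x), add_self2 (dl y), add_self2 (dl v)]
      simp
    have h3 := F3 (Q ∪ {e, g}) (by
      intro f hf
      rcases mem_union.1 hf with h | h
      · exact (mem_filter.1 (hQ h)).1
      · rw [mem_insert, mem_singleton] at h
        rcases h with rfl | rfl
        · exact heP
        · exact hg) hE
    have h4 : e ∈ Q ∪ {e, g} := by simp
    rw [h3] at h4
    exact notMem_empty _ h4
  have hpos : ∀ g, g ≠ e → At a b g v → 0 < c g := by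
    intro g hge hat
    apply F2 g _ hat
    intro hg
    exact hge (F4 g hg hat)
  refine ⟨v, e, heat, F1 e heP heat, hpos, ?_⟩
  -- tight even sets
  intro D hD hcD heD g hgD hgat
  -- a connected tight even set through `g`
  let ΩD : Finset (Finset E) := univ.filter (fun D0 => D0 ⊆ D ∧ EvenM a b D0 ∧ g ∈ D0)
  obtain ⟨D0, hD0, hD0min⟩ := Finset.exists_min_image ΩD (fun D0 => D0.card)
    ⟨D, by simp [ΩD, hD, hgD]⟩
  obtain ⟨hD0D, hD0E, hgD0⟩ : D0 ⊆ D ∧ EvenM a b D0 ∧ g ∈ D0 := by simpa [ΩD] using hD0
  have hcD0 : ∑ e ∈ D0, c e = 0 := by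
    have h1 : EvenM a b (D \ D0) := by
      unfold EvenM; rw [bd_sdiff a b hD0D, hD, hD0E, add_zero]
    have h2 := hc _ h1
    have h3 := hc _ hD0E
    have h4 : ∑ e ∈ D \ D0, c e + ∑ e ∈ D0, c e = ∑ e ∈ D, c e := sum_sdiff hD0D
    linarith
  have heD0 : e ∉ D0 := fun h => heD (hD0D h)
  -- connectivity of `D0`
  have hconn : ∀ h ∈ D0, ∀ x y, Inc a b h x y → Rch a b D0 v x := by
    let Y : V → Prop := fun y => Rch a b D0 v y
    let DY : Finset E := D0.filter (fun h => Y (a h))
    have hclosed : ∀ h ∈ D0, (Y (a h) ↔ Y (b h)) := by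
      intro h hh
      constructor
      · intro h1
        exact Relation.ReflTransGen.tail h1 ⟨h, hh, Or.inl ⟨rfl, rfl⟩⟩
      · intro h1
        exact Relation.ReflTransGen.tail h1 ⟨h, hh, Or.inr ⟨rfl, rfl⟩⟩
    have hDYE : EvenM a b DY := by
      unfold EvenM
      ext u
      have h1 := congrFun hD0E u
      unfold bd at h1 ⊢
      rw [Finset.sum_apply] at h1 ⊢
      by_cases hu : Y u
      · rw [← h1]
        apply sum_subset (filter_subset _ _)
        intro h hh hnot
        have h2 : ¬ Y (a h) := fun h3 => hnot (mem_filter.2 ⟨hh, h3⟩)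
        have h3 : ¬ Y (b h) := fun h4 => h2 ((hclosed h hh).2 h4)
        simp only [Pi.add_apply, dl]
        rw [if_neg (fun h5 : u = a h => h2 (by rw [← h5]; exact hu)),
          if_neg (fun h5 : u = b h => h3 (by rw [← h5]; exact hu)), add_zero]
      · apply sum_eq_zero
        intro h hh
        obtain ⟨h2, h3⟩ := mem_filter.1 hh
        have h4 := (hclosed h h2).1 h3
        simp only [Pi.add_apply, dl]
        rw [if_neg (fun h5 : u = a h => hu (by rw [h5]; exact h3)),
          if_neg (fun h5 : u = b h => hu (by rw [h5]; exact h4)), add_zero]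
    have hgY : g ∈ DY := by
      refine mem_filter.2 ⟨hgD0, ?_⟩
      rcases hgat.1 with h | h
      · show Rch a b D0 v (a g)
        rw [h]; exact Relation.ReflTransGen.refl
      · apply (hclosed g hgD0).2
        show Rch a b D0 v (b g)
        rw [h]; exact Relation.ReflTransGen.refl
    have hDYeq : DY = D0 := by
      apply eq_of_subset_of_card_le (filter_subset _ _)
      apply hD0min
      exact mem_filter.2 ⟨mem_univ _, (filter_subset _ _).trans hD0D, hDYE, hgY⟩
    intro h hh x y hxy
    have h1 : Y (a h) := by
      rw [← hDYeq] at hh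
      exact (mem_filter.1 hh).2
    rcases hxy with ⟨h2, _⟩ | ⟨_, h2⟩
    · rw [← h2]; exact h1
    · rw [← h2]; exact (hclosed h hh).1 h1
  have hgP : g ∉ P := fun h => heD0 ((F4 g h hgat) ▸ hgD0)
  set R := P \ D0 with hR
  by_cases hsX : Rch a b R v s
  · -- `P` misses `D0`
    obtain ⟨Q, hQ, hbQ⟩ := hsX.join a b
    have hQP : Q ⊆ P := hQ.trans sdiff_subset
    have h1 : EvenM a b (P \ Q) := by
      unfold EvenM
      rw [bd_sdiff a b hQP, hbP, hbQ]
      have : dl s + dl v + (dl v + dl s) = (dl s + dl s) + (dl v + dl v) := by abel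
      rw [this, add_self2 (dl s), add_self2 (dl v), add_zero]
    have h2 := F3 _ sdiff_subset h1
    have h3 : P ⊆ Q := sdiff_eq_empty_iff_subset.1 h2
    have h4 : Disjoint P D0 := by
      rw [Finset.disjoint_left]
      intro f hf hf'
      exact (mem_sdiff.1 (hQ (h3 hf))).2 hf'
    obtain ⟨y, hy, hyv⟩ := hgat.inc
    have h5 : Disjoint P (D0.erase g) := h4.mono_right (erase_subset _ _)
    have h6 : bd a b (P ∪ D0.erase g) = dl s + dl y := by
      rw [bd_union a b h5, hbP, bd_erase a b hgD0, hD0E, hy.dl]
      have : dl s + dl v + (0 + (dl v + dl y)) = dl s + dl y + (dl v + dl v) := by abel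
      rw [this, add_self2 (dl v), add_zero]
    have h7 := (hmin' y _ h6).1
    rw [sum_union h5] at h7
    have h8 : c g + ∑ e ∈ D0.erase g, c e = ∑ e ∈ D0, c e := add_sum_erase D0 c hgD0
    have h9 := hpos g (fun h => heD0 (h ▸ hgD0)) hgat
    linarith
  · -- last edge of `P` in `D0`
    let X : Finset V := univ.filter (fun y => Rch a b R v y)
    have hvX : v ∈ X := by
      simp only [X, mem_filter, mem_univ, true_and]; exact Relation.ReflTransGen.refl
    have hsX' : s ∉ X := by simpa [X] using hsX
    obtain ⟨h, hhP, z, z', hinc, hz, hz'⟩ := exists_leaving a b P X (by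
      rw [hbP]
      simp only [Pi.add_apply, sum_add_distrib, sum_dl]
      rw [if_pos hvX, if_neg hsX']
      simp)
    have hzR : Rch a b R v z := by simpa [X] using hz
    have hhD0 : h ∈ D0 := by
      by_contra hh
      apply hz'
      simp only [X, mem_filter, mem_univ, true_and]
      exact Relation.ReflTransGen.tail hzR ⟨h, mem_sdiff.2 ⟨hhP, hh⟩, hinc⟩
    have hzv : z ≠ v := by
      rintro rfl
      have h1 : At a b h z := hinc.at a b (fun h2 => hz' (h2 ▸ hvX))
      exact heD0 ((F4 h hhP h1) ▸ hhD0)
    obtain ⟨P2, hP2, hbP2⟩ := hzR.join a b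
    obtain ⟨D1, hD1, hbD1⟩ := (hconn h hhD0 z z' hinc).join a b
    have hP2P : P2 ⊆ P := hP2.trans sdiff_subset
    have hdis : Disjoint P2 D0 := by
      rw [Finset.disjoint_left]
      intro f hf hf'
      exact (mem_sdiff.1 (hP2 hf)).2 hf'
    have hE1 : EvenM a b (P2 ∪ D1) := by
      unfold EvenM
      rw [bd_union a b (hdis.mono_right hD1), hbP2, hbD1, add_self2]
    have hE2 : EvenM a b (P2 ∪ (D0 \ D1)) := by
      unfold EvenM
      rw [bd_union a b (hdis.mono_right sdiff_subset), bd_sdiff a b hD1, hbP2, hbD1, hD0E,
        zero_add, add_self2]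
    have h1 := hc _ hE1
    have h2 := hc _ hE2
    rw [sum_union (hdis.mono_right hD1)] at h1
    rw [sum_union (hdis.mono_right sdiff_subset)] at h2
    have h3 : ∑ e ∈ D0 \ D1, c e + ∑ e ∈ D1, c e = ∑ e ∈ D0, c e := sum_sdiff hD1
    have h4 : 0 ≤ ∑ e ∈ P2, c e := by linarith
    have h5 : bd a b (P \ P2) = dl s + dl z := by
      rw [bd_sdiff a b hP2P, hbP, hbP2]
      have : dl s + dl v + (dl v + dl z) = dl s + dl z + (dl v + dl v) := by abel
      rw [this, add_self2 (dl v), add_zero]
    have h6 := hmin' z _ h5
    have h7 : ∑ e ∈ P \ P2, c e + ∑ e ∈ P2, c e = ∑ e ∈ P, c e := sum_sdiff hP2P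
    have h8 := h6.2 (by linarith)
    have h9 := card_sdiff_add_card_eq_card hP2P
    have h10 : P2.card = 0 := by omega
    rw [card_eq_zero.1 h10, bd_empty] at hbP2
    exact hzv (dl_ne hbP2.symm).symm

end comb

/-- positive lower bound for finitely many positive reals -/
lemma exists_pos_lower {ι : Type} [Finite ι] (f : ι → ℝ) (hf : ∀ i, 0 < f i) :
    ∃ l : ℝ, 0 < l ∧ ∀ i, l ≤ f i := by
  classical
  cases nonempty_fintype ι
  rcases isEmpty_or_nonempty ι with h | h
  · exact ⟨1, one_pos, fun i => (h.false i).elim⟩
  · obtain ⟨i0, -, h0⟩ := Finset.exists_min_image (univ : Finset ι) f univ_nonempty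
    exact ⟨f i0, hf i0, fun i => h0 i (mem_univ i)⟩

section ineq

variable {V E : Type} [DecidableEq V] [DecidableEq E] [Fintype V] [Fintype E]

/-- an edge crosses `X` -/
def Crs (a b : E → V) (X : Finset V) (e : E) : Prop := ¬ (a e ∈ X ↔ b e ∈ X)

instance (a b : E → V) (X : Finset V) (e : E) : Decidable (Crs a b X e) :=
  inferInstanceAs (Decidable (¬ _))

/-- admissible weights -/
def Adm (a b : E → V) (w : E → ℝ) : Prop :=
  (∀ e, 0 ≤ w e) ∧ ∀ (X : Finset V) (e : E), Crs a b X e →
    2 * w e ≤ ∑ f ∈ univ.filter (fun f => Crs a b X f), w f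

/-- perturbation step -/
lemma perturb (a b : E → V) (c : E → ℝ) (hc : Cons a b c) (w : E → ℝ) (hw : Adm a b w)
    (v : V) (e : E) (hat : At a b e v) (hce : c e < 0)
    (hpos : ∀ g, g ≠ e → At a b g v → 0 < c g)
    (htight : ∀ D : Finset E, EvenM a b D → ∑ e ∈ D, c e = 0 → e ∉ D → ∀ g ∈ D, ¬ At a b g v) :
    ∃ c' : E → ℝ, Cons a b c' ∧ (∀ g, |c' g| ≤ |c g|) ∧ ∑ g, c' g * w g ≤ ∑ g, c g * w g ∧
      ∑ g, |c' g| < ∑ g, |c g| := by
  classical
  let S : Finset E := univ.filter (fun g => At a b g v ∧ g ≠ e)
  have hS : ∀ g, g ∈ S ↔ At a b g v ∧ g ≠ e := fun g => by simp [S]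
  have heS : e ∉ S := fun h => ((hS e).1 h).2 rfl
  obtain ⟨l, hl, hlf⟩ := exists_pos_lower
    (fun i : Finset E ⊕ E => match i with
      | Sum.inl D => if 0 < ∑ e ∈ D, c e then (∑ e ∈ D, c e) / (Fintype.card E + 1) else 1
      | Sum.inr g => if 0 < |c g| then |c g| else 1) (by
        rintro (D | g)
        · simp only
          split_ifs with h
          · positivity
          · exact one_pos
        · simp only
          split_ifs with h
          · exact h
          · exact one_pos)
  have hlD : ∀ D : Finset E, 0 < ∑ e ∈ D, c e → l * (Fintype.card E + 1) ≤ ∑ e ∈ D, c e := by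
    intro D hD
    have h1 := hlf (Sum.inl D)
    simp only [if_pos hD] at h1
    rwa [le_div_iff₀ (by positivity)] at h1
  have hlg : ∀ g, c g ≠ 0 → l ≤ |c g| := by
    intro g hg
    have h1 := hlf (Sum.inr g)
    simp only [if_pos (abs_pos.2 hg)] at h1
    exact h1
  let d : E → ℝ := fun g => if g = e then 1 else if g ∈ S then -1 else 0
  have hde : d e = 1 := by simp [d]
  have hdS : ∀ g ∈ S, d g = -1 := fun g hg => by
    have : g ≠ e := ((hS g).1 hg).2
    simp [d, this, hg]
  have hd0 : ∀ g, g ≠ e → g ∉ S → d g = 0 := fun g h1 h2 => by simp [d, h1, h2]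
  refine ⟨fun g => c g + l * d g, ?_, ?_, ?_, ?_⟩
  · -- conservative
    intro D hD
    rw [sum_add_distrib, ← mul_sum]
    have hdD : ∑ g ∈ D, d g = (if e ∈ D then (1 : ℝ) else 0) - ((D.filter (fun g => g ∈ S)).card : ℝ) := by
      have h1 : ∀ g, d g = (if g = e then (1 : ℝ) else 0) - (if g ∈ S then (1 : ℝ) else 0) := by
        intro g
        by_cases hge : g = e
        · subst hge; simp [d, heS]
        · by_cases hgS : g ∈ S
          · simp [d, hge, hgS]
          · simp [d, hge, hgS]
      rw [sum_congr rfl (fun g _ => h1 g), sum_sub_distrib, sum_ite_eq', card_filter]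
      push_cast
      rfl
    have hcD := hc D hD
    rcases hcD.lt_or_eq with hpos' | hzero
    · have h1 := hlD D hpos'
      have h2 : -((Fintype.card E : ℝ)) ≤ ∑ g ∈ D, d g := by
        rw [hdD]
        have h3 : ((D.filter (fun g => g ∈ S)).card : ℝ) ≤ Fintype.card E := by
          exact_mod_cast card_le_univ _
        have h4 : (0 : ℝ) ≤ if e ∈ D then (1 : ℝ) else 0 := by split_ifs <;> norm_num
        linarith
      have h3 : l * (-(Fintype.card E : ℝ)) ≤ l * ∑ g ∈ D, d g := mul_le_mul_of_nonneg_left h2 hl.le
      have h4 : l * (Fintype.card E + 1) = l * Fintype.card E + l := by ring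
      nlinarith
    · rw [← hzero, zero_add]
      apply mul_nonneg hl.le
      rw [hdD]
      by_cases heD : e ∈ D
      · rw [if_pos heD]
        have hcard : (D.filter (fun g => g ∈ S)).card ≤ 1 := by
          obtain ⟨x, hx, hxv⟩ := hat.inc
          obtain ⟨g', hg', hne, hat', Q, hQ, hEQ⟩ := exists_return a b heD hx hxv (by
            intro X _ _ _
            rw [hD]
            simp)
          have hsub : Q ∪ {e, g'} ⊆ D := by
            intro f hf
            rcases mem_union.1 hf with h | h
            · exact (mem_filter.1 (hQ h)).1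
            · rw [mem_insert, mem_singleton] at h
              rcases h with rfl | rfl
              · exact heD
              · exact hg'
          have hE2 : EvenM a b (D \ (Q ∪ {e, g'})) := by
            unfold EvenM
            rw [bd_sdiff a b hsub, hD, hEQ, add_zero]
          have h3 := hc _ hE2
          have h4 := hc _ hEQ
          have h5 : ∑ e ∈ D \ (Q ∪ {e, g'}), c e + ∑ e ∈ Q ∪ {e, g'}, c e = ∑ e ∈ D, c e :=
            sum_sdiff hsub
          have h6 : ∑ e ∈ D \ (Q ∪ {e, g'}), c e = 0 := by linarith
          have h7 := htight _ hE2 h6 (by simp)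
          have h8 : D.filter (fun g => g ∈ S) ⊆ {g'} := by
            intro f hf
            obtain ⟨h9, h10⟩ := mem_filter.1 hf
            rw [mem_singleton]
            by_contra hfg
            apply h7 f _ ((hS f).1 h10).1
            rw [mem_sdiff]
            refine ⟨h9, ?_⟩
            intro h11
            rcases mem_union.1 h11 with h | h
            · have h12 := (mem_filter.1 (hQ h)).2
              rcases ((hS f).1 h10).1.1 with h13 | h13
              · exact h12.1 h13
              · exact h12.2 h13
            · rw [mem_insert, mem_singleton] at h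
              rcases h with rfl | rfl
              · exact heS h10
              · exact hfg rfl
          exact (card_le_card h8).trans (card_singleton _).le
        have : ((D.filter (fun g => g ∈ S)).card : ℝ) ≤ 1 := by exact_mod_cast hcard
        linarith
      · rw [if_neg heD]
        have h1 := htight D hD hzero.symm heD
        have h2 : D.filter (fun g => g ∈ S) = ∅ := by
          rw [filter_eq_empty_iff]
          intro g hg hgS
          exact h1 g hg ((hS g).1 hgS).1
        rw [h2]; simp
  · -- absolute values do not increase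
    intro g
    by_cases hge : g = e
    · subst hge
      simp only [hde, mul_one]
      have h1 := hlg g hce.ne
      rw [abs_of_neg hce] at h1 ⊢
      rw [abs_le]
      constructor <;> linarith
    · by_cases hgS : g ∈ S
      · simp only [hdS g hgS]
        have h0 := hpos g hge ((hS g).1 hgS).1
        have h1 := hlg g h0.ne'
        rw [abs_of_pos h0] at h1 ⊢
        rw [abs_le]
        constructor <;> linarith
      · simp only [hd0 g hge hgS, mul_zero, add_zero]
        exact le_rfl
  · -- the objective does not increase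
    have h1 : ∑ g, (c g + l * d g) * w g = ∑ g, c g * w g + l * ∑ g, d g * w g := by
      rw [mul_sum, ← sum_add_distrib]
      refine sum_congr rfl fun g _ => ?_
      ring
    have h2 : ∑ g, d g * w g = w e - ∑ g ∈ S, w g := by
      have h3 : ∀ g, d g * w g = (if g = e then w g else 0) - (if g ∈ S then w g else 0) := by
        intro g
        by_cases hge : g = e
        · subst hge; simp [d, heS]
        · by_cases hgS : g ∈ S
          · simp [d, hge, hgS]
          · simp [d, hge, hgS]
      rw [sum_congr rfl (fun g _ => h3 g), sum_sub_distrib, sum_ite_eq' univ e]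
      simp
    have hcrs : ∀ g, Crs a b {v} g ↔ At a b g v := by
      intro g
      unfold Crs At
      simp only [mem_singleton]
      constructor
      · intro h
        refine ⟨?_, ?_⟩
        · by_contra hcon
          push Not at hcon
          exact h ⟨fun h1 => absurd h1 hcon.1, fun h1 => absurd h1 hcon.2⟩
        · intro h1
          apply h
          rw [h1]
      · rintro ⟨h1, h2⟩ h3
        rcases h1 with h1 | h1
        · exact h2 (h1.trans (h3.1 h1).symm)
        · exact h2 ((h3.2 h1).trans h1.symm)
    have h4 := hw.2 {v} e ((hcrs e).2 hat)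
    have h5 : univ.filter (fun f => Crs a b {v} f) = insert e S := by
      ext g
      simp only [mem_filter, mem_univ, true_and, mem_insert, hcrs, hS]
      by_cases hge : g = e
      · subst hge; simp [hat]
      · simp [hge]
    rw [h5, sum_insert heS] at h4
    rw [h1, h2]
    have h6 : l * (w e - ∑ g ∈ S, w g) ≤ 0 :=
      mul_nonpos_of_nonneg_of_nonpos hl.le (by linarith)
    linarith
  · -- the total absolute value decreases
    apply sum_lt_sum
    · intro g _
      by_cases hge : g = e
      · subst hge
        simp only [hde, mul_one]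
        have h1 := hlg g hce.ne
        rw [abs_of_neg hce] at h1 ⊢
        rw [abs_le]
        constructor <;> linarith
      · by_cases hgS : g ∈ S
        · simp only [hdS g hgS]
          have h0 := hpos g hge ((hS g).1 hgS).1
          have h1 := hlg g h0.ne'
          rw [abs_of_pos h0] at h1 ⊢
          rw [abs_le]
          constructor <;> linarith
        · simp only [hd0 g hge hgS, mul_zero, add_zero]
          exact le_rfl
    · refine ⟨e, mem_univ e, ?_⟩
      simp only [hde, mul_one]
      have h1 := hlg e hce.ne
      rw [abs_of_neg hce] at h1 ⊢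
      rw [abs_lt]
      constructor <;> linarith

/-- push-forward of vectors under identification of `y` with `x` -/
lemma bd_contract (a b : E → V) (e0 : E) (D : Finset E)
    (hD : EvenM (fun e => if a e = b e0 then a e0 else a e) (fun e => if b e = b e0 then a e0 else b e) D) :
    EvenM a b D ∨ bd a b D = dl (a e0) + dl (b e0) := by
  classical
  -- linear push-forward
  let g : V → V := fun x => if x = b e0 then a e0 else x
  let pf : (V → ZMod 2) →+ (V → ZMod 2) :=
    { toFun := fun f => ∑ u, fun v => if g u = v then f u else 0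
      map_zero' := by ext v; simp
      map_add' := by
        intro f f'
        ext v
        simp only [Finset.sum_apply, Pi.add_apply, ← sum_add_distrib]
        refine sum_congr rfl fun u _ => ?_
        split_ifs <;> simp }
  have hpf : ∀ f v, pf f v = ∑ u, if g u = v then f u else 0 := by
    intro f v
    show (∑ u, fun v => if g u = v then f u else 0) v = _
    rw [Finset.sum_apply]
  have hpfdl : ∀ x, pf (dl x) = dl (g x) := by
    intro x
    ext v
    rw [hpf, sum_eq_single x]
    · simp [dl, eq_comm]
    · intro u _ hne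
      simp [dl, hne]
    · intro h; exact absurd (mem_univ _) h
  have h1 : pf (bd a b D) = 0 := by
    have h2 : pf (bd a b D) = bd (fun e => g (a e)) (fun e => g (b e)) D := by
      unfold bd
      rw [map_sum]
      refine sum_congr rfl fun e _ => ?_
      rw [map_add, hpfdl, hpfdl]
    rw [h2]
    exact hD
  by_cases hloop : a e0 = b e0
  · -- the identification is trivial
    left
    unfold EvenM
    have hg : ∀ x, g x = x := by
      intro x
      simp only [g]
      split_ifs with h
      · rw [hloop, h]
      · rfl
    ext v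
    have h2 := congrFun h1 v
    rw [hpf] at h2
    simp only [hg, sum_ite_eq', mem_univ, if_true] at h2
    simpa using h2
  have hv : ∀ v, v ≠ a e0 → v ≠ b e0 → bd a b D v = 0 := by
    intro v hva hvb
    have h2 := congrFun h1 v
    rw [hpf, sum_eq_single v] at h2
    · simpa [g, hvb] using h2
    · intro u _ hne
      rw [if_neg]
      intro h3
      simp only [g] at h3
      split_ifs at h3 with h4
      · exact hva h3.symm
      · exact hne h3
    · intro h; exact absurd (mem_univ _) h
  have hab : bd a b D (a e0) + bd a b D (b e0) = 0 := by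
    have h2 := congrFun h1 (a e0)
    rw [hpf] at h2
    have h3 : ∑ u, (if g u = a e0 then bd a b D u else 0)
        = ∑ u ∈ ({a e0, b e0} : Finset V), bd a b D u := by
      rw [← sum_filter]
      refine sum_congr ?_ fun _ _ => rfl
      ext u
      simp only [mem_filter, mem_univ, true_and, mem_insert, mem_singleton, g]
      constructor
      · intro h4
        split_ifs at h4 with h5
        · exact Or.inr h5
        · exact Or.inl h4
      · rintro (h4 | h4)
        · subst h4; simp
        · subst h4; simp
    rw [h3, sum_pair hloop] at h2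
    exact h2
  have h01 : ∀ t : ZMod 2, t = 0 ∨ t = 1 := by decide
  rcases h01 (bd a b D (a e0)) with h2 | h2
  · left
    unfold EvenM
    ext v
    by_cases hva : v = a e0
    · rw [hva, h2]; rfl
    · by_cases hvb : v = b e0
      · rw [h2, zero_add] at hab
        rw [hvb, hab]; rfl
      · rw [hv v hva hvb]; rfl
  · right
    ext v
    simp only [Pi.add_apply, dl]
    by_cases hva : v = a e0
    · rw [hva, h2, if_pos rfl, if_neg hloop, add_zero]
    · by_cases hvb : v = b e0
      · rw [hvb, if_neg (fun h => hloop h.symm), if_pos rfl, zero_add]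
        rw [h2] at hab
        rcases h01 (bd a b D (b e0)) with h3 | h3
        · rw [h3] at hab; exact absurd hab (by decide)
        · exact h3
      · rw [hv v hva hvb, if_neg hva, if_neg hvb, add_zero]

/-- **Seymour's theorem, dual form.** -/
theorem seymour_dual (n : ℕ) : ∀ (a b : E → V), (univ.filter (fun e => a e ≠ b e)).card = n →
    ∀ (c : E → ℝ), Cons a b c → ∀ (w : E → ℝ), Adm a b w → 0 ≤ ∑ e, c e * w e := by
  classical
  induction n using Nat.strong_induction_on with
  | _ n ih =>
    intro a b hn c0 hc0 w hw
    by_contra hneg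
    push Not at hneg
    -- conservative weights in the box
    let C : Set (E → ℝ) := {c | (∀ e, |c e| ≤ 1) ∧ Cons a b c}
    have hCclosed : IsClosed C := by
      have h1 : C = (⋂ e : E, {c : E → ℝ | |c e| ≤ 1}) ∩
          ⋂ D : {D : Finset E // EvenM a b D}, {c : E → ℝ | 0 ≤ ∑ e ∈ D.1, c e} := by
        ext c
        simp only [C, Set.mem_inter_iff, Set.mem_iInter]
        constructor
        · rintro ⟨h1, h2⟩
          exact ⟨fun e => h1 e, fun D => h2 D.1 D.2⟩
        · rintro ⟨h1, h2⟩
          exact ⟨fun e => h1 e, fun D hD => h2 ⟨D, hD⟩⟩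
      rw [h1]
      apply IsClosed.inter
      · apply isClosed_iInter
        intro e
        exact isClosed_le (by fun_prop) continuous_const
      · apply isClosed_iInter
        intro D
        exact isClosed_le continuous_const (by fun_prop)
    have hCcompact : IsCompact C := by
      have h1 : IsCompact (Set.pi Set.univ (fun _ : E => Set.Icc (-1 : ℝ) 1)) :=
        isCompact_univ_pi fun _ => isCompact_Icc
      apply h1.of_isClosed_subset hCclosed
      rintro c ⟨h2, -⟩ e _
      exact abs_le.1 (h2 e)
    have hobj : Continuous (fun c : E → ℝ => ∑ e, c e * w e) := by fun_prop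
    have hCne : C.Nonempty := ⟨0, by simp [C, Cons]⟩
    obtain ⟨c1, hc1, hc1min⟩ := hCcompact.exists_isMinOn hCne hobj.continuousOn
    have hc1neg : ∑ e, c1 e * w e < 0 := by
      -- scale `c0`
      set M : ℝ := ∑ e, |c0 e| + 1 with hM
      have hMpos : 0 < M := by
        have : 0 ≤ ∑ e, |c0 e| := sum_nonneg fun _ _ => abs_nonneg _
        linarith
      have h1 : (fun e => M⁻¹ * c0 e) ∈ C := by
        refine ⟨fun e => ?_, fun D hD => ?_⟩
        · rw [abs_mul, abs_of_pos (inv_pos.2 hMpos), inv_mul_le_iff₀ hMpos, mul_one]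
          have : |c0 e| ≤ ∑ e, |c0 e| :=
            single_le_sum (f := fun e => |c0 e|) (fun _ _ => abs_nonneg _) (mem_univ e)
          linarith
        · rw [← mul_sum]
          exact mul_nonneg (inv_pos.2 hMpos).le (hc0 D hD)
      have h2 := hc1min h1
      simp only [Set.mem_setOf_eq] at h2
      have h3 : ∑ e, M⁻¹ * c0 e * w e = M⁻¹ * ∑ e, c0 e * w e := by
        rw [mul_sum]; exact sum_congr rfl fun e _ => by ring
      rw [h3] at h2
      have h4 : M⁻¹ * ∑ e, c0 e * w e < 0 := mul_neg_of_pos_of_neg (inv_pos.2 hMpos) hneg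
      linarith
    let C' : Set (E → ℝ) := C ∩ {c | ∑ e, c e * w e ≤ ∑ e, c1 e * w e}
    have hC'compact : IsCompact C' :=
      hCcompact.inter_right (isClosed_le hobj continuous_const)
    have habs : Continuous (fun c : E → ℝ => ∑ e, |c e|) := by fun_prop
    obtain ⟨c, ⟨hcC, hcle⟩, hcmin⟩ := hC'compact.exists_isMinOn
      ⟨c1, hc1, show ∑ e, c1 e * w e ≤ ∑ e, c1 e * w e from le_rfl⟩ habs.continuousOn
    have hcle' : ∑ e, c e * w e ≤ ∑ e, c1 e * w e := hcle
    have hcneg : ∑ e, c e * w e < 0 := lt_of_le_of_lt hcle' hc1neg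
    have hmin : ∀ c' : E → ℝ, Cons a b c' → (∀ e, |c' e| ≤ |c e|) →
        ∑ e, c' e * w e ≤ ∑ e, c e * w e → ∑ e, |c e| ≤ ∑ e, |c' e| := by
      intro c' h1 h2 h3
      have h4 : c' ∈ C' := ⟨⟨fun e => (h2 e).trans (hcC.1 e), h1⟩, h3.trans hcle'⟩
      exact hcmin h4
    have hcons : Cons a b c := hcC.2
    -- loops vanish
    have hloop : ∀ e, a e = b e → c e = 0 := by
      intro e he
      by_contra hne
      have hEe : EvenM a b {e} := by unfold EvenM; rw [bd_singleton, he, add_self2]
      have h1 : 0 ≤ c e := by have := hcons _ hEe; rwa [sum_singleton] at this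
      have h1' : 0 < c e := lt_of_le_of_ne h1 (Ne.symm hne)
      let c' : E → ℝ := fun g => if g = e then 0 else c g
      have h2 : Cons a b c' := by
        intro D hD
        by_cases heD : e ∈ D
        · have h3 : EvenM a b (D.erase e) := by
            unfold EvenM
            rw [bd_erase a b heD, hD, he, add_self2, add_zero]
          have h4 := hcons _ h3
          have h5 : ∑ g ∈ D, c' g = ∑ g ∈ D.erase e, c g := by
            rw [← add_sum_erase D c' heD]
            simp only [c', if_true, zero_add]
            refine sum_congr rfl fun g hg => ?_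
            rw [if_neg (ne_of_mem_erase hg)]
          rw [h5]; exact h4
        · have h5 : ∑ g ∈ D, c' g = ∑ g ∈ D, c g := by
            refine sum_congr rfl fun g hg => ?_
            simp only [c']
            rw [if_neg]
            rintro rfl
            exact heD hg
          rw [h5]; exact hcons D hD
      have h3 : ∀ g, |c' g| ≤ |c g| := by
        intro g
        simp only [c']
        split_ifs
        · rw [abs_zero]; exact abs_nonneg _
        · exact le_rfl
      have h4 : ∑ g, c' g * w g ≤ ∑ g, c g * w g := by
        apply sum_le_sum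
        intro g _
        simp only [c']
        split_ifs with hge
        · rw [zero_mul, hge]
          exact mul_nonneg h1 (hw.1 e)
        · exact le_rfl
      have h5 := hmin c' h2 h3 h4
      have h6 : ∑ g, |c' g| < ∑ g, |c g| := by
        apply sum_lt_sum (fun g _ => h3 g)
        refine ⟨e, mem_univ e, ?_⟩
        simp only [c', if_true, abs_zero]
        exact abs_pos.2 hne
      linarith
    by_cases hz : ∃ e0, a e0 ≠ b e0 ∧ c e0 = 0
    · -- contract
      obtain ⟨e0, he0, hce0⟩ := hz
      let a' : E → V := fun e => if a e = b e0 then a e0 else a e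
      let b' : E → V := fun e => if b e = b e0 then a e0 else b e
      have hlt : (univ.filter (fun e => a' e ≠ b' e)).card < n := by
        rw [← hn]
        apply card_lt_card
        rw [ssubset_iff_of_subset]
        · refine ⟨e0, by simp [he0], ?_⟩
          simp only [mem_filter, mem_univ, true_and, not_not, a', b']
          rw [if_neg he0, if_true]
        · intro e he
          simp only [mem_filter, mem_univ, true_and] at he ⊢
          intro h
          apply he
          simp only [a', b', h]
      have hcons' : Cons a' b' c := by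
        intro D hD
        rcases bd_contract a b e0 D hD with h1 | h1
        · exact hcons D h1
        · by_cases heD : e0 ∈ D
          · have h2 : EvenM a b (D.erase e0) := by
              unfold EvenM
              rw [bd_erase a b heD, h1, add_self2]
            have h3 := hcons _ h2
            rw [← add_sum_erase D c heD, hce0, zero_add]
            exact h3
          · have h2 : EvenM a b (insert e0 D) := by
              unfold EvenM
              rw [bd_insert a b heD, h1, add_self2]
            have h3 := hcons _ h2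
            rw [sum_insert heD, hce0, zero_add] at h3
            exact h3
      have hadm' : Adm a' b' w := by
        refine ⟨hw.1, ?_⟩
        intro X e he
        let X' : Finset V := univ.filter (fun x => (if x = b e0 then a e0 else x) ∈ X)
        have hX' : ∀ x, x ∈ X' ↔ (if x = b e0 then a e0 else x) ∈ X := fun x => by simp [X']
        have hcr : ∀ f, Crs a' b' X f ↔ Crs a b X' f := by
          intro f
          unfold Crs
          rw [hX', hX']
        have h1 := hw.2 X' e ((hcr e).1 he)
        have h2 : univ.filter (fun f => Crs a' b' X f) = univ.filter (fun f => Crs a b X' f) := by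
          ext f; simp only [mem_filter, mem_univ, true_and, hcr]
        rw [h2]
        exact h1
      have := ih _ hlt a' b' rfl c hcons' w hadm'
      linarith
    · push Not at hz
      have hnegc : ∃ e, c e < 0 := by
        by_contra hcon
        push Not at hcon
        have : 0 ≤ ∑ e, c e * w e := sum_nonneg fun e _ => mul_nonneg (hcon e) (hw.1 e)
        linarith
      obtain ⟨v, e, hat, hce, hpos, htight⟩ := exists_special a b c hcons hloop hz hnegc
      obtain ⟨c', h1, h2, h3, h4⟩ := perturb a b c hcons w hw v e hat hce hpos htight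
      have := hmin c' h1 h2 h3
      linarith

/-- **Seymour's theorem on sums of circuits** (rational form, for even sets). -/
theorem seymour (a b : E → V) (w : E → ℕ) (hw : ∀ (X : Finset V) (e : E), Crs a b X e →
    2 * w e ≤ ∑ f ∈ univ.filter (fun f => Crs a b X f), w f) :
    ∃ lam : Finset E → ℚ, (∀ D, 0 ≤ lam D) ∧ (∀ D, ¬ EvenM a b D → lam D = 0) ∧
      ∀ e, (w e : ℚ) = ∑ D : Finset E, if e ∈ D then lam D else 0 := by
  classical
  let J : Type := {D : Finset E // EvenM a b D}
  obtain ⟨U, hU, hUw⟩ := farkas_vec (F := ℚ) (E := E) (J := J)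
    (fun D e => if e ∈ D.1 then 1 else 0) (fun e => (w e : ℚ)) (by
      intro c hcj
      have hcons : Cons a b (fun e => ((c e : ℚ) : ℝ)) := by
        intro D hD
        have h1 := hcj ⟨D, hD⟩
        simp only [mul_ite, mul_one, mul_zero, sum_ite_mem, univ_inter] at h1
        show (0 : ℝ) ≤ ∑ e ∈ D, ((c e : ℚ) : ℝ)
        exact_mod_cast h1
      have hadm : Adm a b (fun e => ((w e : ℕ) : ℝ)) := by
        refine ⟨fun e => Nat.cast_nonneg _, fun X e he => ?_⟩
        have := hw X e he
        show (2 : ℝ) * ((w e : ℕ) : ℝ) ≤ ∑ f ∈ univ.filter (fun f => Crs a b X f), ((w f : ℕ) : ℝ)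
        exact_mod_cast this
      have h2 := seymour_dual _ a b rfl _ hcons _ hadm
      have h3 : ((∑ e, c e * (w e : ℚ) : ℚ) : ℝ) = ∑ e, (c e : ℝ) * (w e : ℝ) := by
        push_cast; rfl
      have h4 : (0 : ℝ) ≤ ((∑ e, c e * (w e : ℚ) : ℚ) : ℝ) := by rw [h3]; exact h2
      exact_mod_cast h4)
  refine ⟨fun D => if h : EvenM a b D then U ⟨D, h⟩ else 0, ?_, ?_, ?_⟩
  · intro D
    by_cases h : EvenM a b D
    · simp only [h, dif_pos]; exact hU _
    · simp only [h, dif_neg, not_false_eq_true]; exact le_rfl
  · intro D h
    simp only [h, dif_neg, not_false_eq_true]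
  · intro e
    rw [hUw e]
    have h1 : ∑ D : Finset E, (if e ∈ D then (if h : EvenM a b D then U ⟨D, h⟩ else 0) else 0)
        = ∑ D ∈ univ.filter (fun D => EvenM a b D),
          (if e ∈ D then (if h : EvenM a b D then U ⟨D, h⟩ else 0) else 0) := by
      rw [sum_filter]
      refine sum_congr rfl fun D _ => ?_
      by_cases h : EvenM a b D
      · simp [h]
      · simp [h]
    rw [h1]
    symm
    rw [← Finset.sum_subtype_eq_sum_filter]
    have h2 : (Finset.subtype (fun D => EvenM a b D) (univ : Finset (Finset E))) = univ := by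
      ext D; simp
    rw [h2]
    refine sum_congr rfl fun D _ => ?_
    simp only [D.2, dif_pos]
    split_ifs <;> simp

end ineq

end Pool.Agent.H47.FC
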