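import Mathlib

set_option autoImplicit false

/-!
# Basic solutions
-/

namespace Pool.Agent.H47.FC

open Finset

/-- existence of a nonnegative solution with minimal support; it is determined by its zeros -/
theorem exists_basic {W J : Type} [AddCommGroup W] [Module ℚ W] [Fintype J]
    (Φ : J → W →ₗ[ℚ] ℚ) (U : Submodule ℚ W) (x0 : W) (h0 : ∀ j, 0 ≤ Φ j x0)
    (hinj : ∀ z ∈ U, (∀ j, Φ j z = 0) → z = 0) :
    ∃ x, x - x0 ∈ U ∧ (∀ j, 0 ≤ Φ j x) ∧ ∀ z ∈ U, (∀ j, Φ j x = 0 → Φ j z = 0) → z = 0 := by
  classical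
  let supp : W → Finset J := fun x => univ.filter (fun j => Φ j x ≠ 0)
  have hex : ∃ n : ℕ, ∃ x, x - x0 ∈ U ∧ (∀ j, 0 ≤ Φ j x) ∧ (supp x).card = n :=
    ⟨_, x0, by simp, h0, rfl⟩
  obtain ⟨x, hxU, hx0, hxn⟩ := Nat.find_spec hex
  have hmin : ∀ y, y - x0 ∈ U → (∀ j, 0 ≤ Φ j y) → (supp x).card ≤ (supp y).card := by
    intro y hy hy0
    rw [hxn]
    exact Nat.find_min' hex ⟨y, hy, hy0, rfl⟩
  refine ⟨x, hxU, hx0, ?_⟩
  -- one-sided claim
  have key : ∀ z ∈ U, (∀ j, Φ j x = 0 → Φ j z = 0) → ∀ j, 0 ≤ Φ j z := by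
    intro z hzU hz
    by_contra hcon
    push Not at hcon
    obtain ⟨j0, hj0⟩ := hcon
    let Jn : Finset J := univ.filter (fun j => Φ j z < 0)
    have hJn : Jn.Nonempty := ⟨j0, by simp [Jn, hj0]⟩
    obtain ⟨j1, hj1, hj1min⟩ := Finset.exists_min_image Jn (fun j => Φ j x / (-Φ j z)) hJn
    have hj1' : Φ j1 z < 0 := by simpa [Jn] using hj1
    set ε := Φ j1 x / (-Φ j1 z) with hε
    have hxj1 : 0 < Φ j1 x := by
      rcases (hx0 j1).lt_or_eq with h | h
      · exact h
      · have := hz j1 h.symm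
        rw [this] at hj1'
        exact absurd hj1' (lt_irrefl _)
    have hε0 : 0 < ε := div_pos hxj1 (by linarith)
    have hval : ∀ j, Φ j (x + ε • z) = Φ j x + ε * Φ j z := by
      intro j
      rw [map_add, map_smul, smul_eq_mul]
    have hnn : ∀ j, 0 ≤ Φ j (x + ε • z) := by
      intro j
      rw [hval]
      rcases lt_or_ge (Φ j z) 0 with h | h
      · have h1 := hj1min j (by simp [Jn, h])
        have h2 : ε * (-Φ j z) ≤ Φ j x := by
          rw [← le_div_iff₀ (by linarith)]
          exact h1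
        linarith
      · have := mul_nonneg hε0.le h
        have := hx0 j
        linarith
    have hmem : x + ε • z - x0 ∈ U := by
      have : x + ε • z - x0 = (x - x0) + ε • z := by abel
      rw [this]
      exact U.add_mem hxU (U.smul_mem _ hzU)
    have hlt : (supp (x + ε • z)).card < (supp x).card := by
      apply Finset.card_lt_card
      rw [Finset.ssubset_iff_of_subset]
      · refine ⟨j1, by simp [supp, hxj1.ne'], ?_⟩
        simp only [supp, mem_filter, mem_univ, true_and, not_not]
        rw [hval, hε]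
        have : Φ j1 z ≠ 0 := hj1'.ne
        field_simp
        ring
      · intro j hj
        simp only [supp, mem_filter, mem_univ, true_and] at hj ⊢
        intro h
        apply hj
        rw [hval, h, hz j h]
        simp
    exact absurd (hmin _ hmem hnn) (not_le.2 hlt)
  intro z hzU hz
  apply hinj z hzU
  intro j
  apply le_antisymm
  · have := key (-z) (U.neg_mem hzU) (fun j hj => by rw [map_neg, hz j hj, neg_zero]) j
    rw [map_neg] at this
    linarith
  · exact key z hzU hz j

end Pool.Agent.H47.FC
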