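import Mathlib

set_option autoImplicit false

/-!
# Even edge sets in multigraphs
-/

namespace Pool.Agent.H47.FC

open Finset

section

variable {V E : Type} [DecidableEq V] [DecidableEq E] (a b : E → V)

/-- unit vector -/
def dl (x : V) : V → ZMod 2 := fun v => if v = x then 1 else 0

/-- mod 2 boundary of an edge set -/
def bd (D : Finset E) : V → ZMod 2 := ∑ e ∈ D, (dl (a e) + dl (b e))

omit [DecidableEq V] in
lemma add_self2 (f : V → ZMod 2) : f + f = 0 := by
  ext v
  exact CharTwo.add_self_eq_zero _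

/-- even edge sets -/
def EvenM (D : Finset E) : Prop := bd a b D = 0

lemma bd_empty : bd a b (∅ : Finset E) = 0 := by simp [bd]

lemma bd_singleton (e : E) : bd a b {e} = dl (a e) + dl (b e) := by simp [bd]

lemma bd_union {D D' : Finset E} (h : Disjoint D D') : bd a b (D ∪ D') = bd a b D + bd a b D' := by
  unfold bd
  rw [sum_union h]

lemma bd_sdiff {D D' : Finset E} (h : D' ⊆ D) : bd a b (D \ D') = bd a b D + bd a b D' := by
  have h1 := bd_union a b (D := D \ D') (D' := D') disjoint_sdiff.symm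
  rw [sdiff_union_of_subset h] at h1
  rw [h1, add_assoc, add_self2, add_zero]

lemma bd_erase {D : Finset E} {e : E} (h : e ∈ D) :
    bd a b (D.erase e) = bd a b D + (dl (a e) + dl (b e)) := by
  rw [← sdiff_singleton_eq_erase, bd_sdiff a b (singleton_subset_iff.2 h), bd_singleton]

lemma bd_insert {D : Finset E} {e : E} (h : e ∉ D) :
    bd a b (insert e D) = bd a b D + (dl (a e) + dl (b e)) := by
  unfold bd
  rw [sum_insert h, add_comm]

lemma bd_symmDiff (D D' : Finset E) : bd a b (symmDiff D D') = bd a b D + bd a b D' := by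
  have h0 : symmDiff D D' = (D \ D') ∪ (D' \ D) := rfl
  have h1 : Disjoint (D \ D') (D' \ D) := by
    rw [Finset.disjoint_left]
    intro e h1 h2
    exact (mem_sdiff.1 h2).2 (mem_sdiff.1 h1).1
  have h2 : bd a b D = bd a b (D \ D') + bd a b (D ∩ D') := by
    rw [← bd_union a b (disjoint_sdiff_inter D D'), sdiff_union_inter]
  have h3 : bd a b D' = bd a b (D' \ D) + bd a b (D ∩ D') := by
    rw [inter_comm, ← bd_union a b (disjoint_sdiff_inter D' D), sdiff_union_inter]
  rw [h0, bd_union a b h1, h2, h3]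
  have h4 := add_self2 (bd a b (D ∩ D'))
  have h5 : bd a b (D \ D') + bd a b (D ∩ D') + (bd a b (D' \ D) + bd a b (D ∩ D'))
      = bd a b (D \ D') + bd a b (D' \ D) + (bd a b (D ∩ D') + bd a b (D ∩ D')) := by abel
  rw [h5, h4, add_zero]

/-- the edge `g` joins `x` and `y` -/
def Inc (g : E) (x y : V) : Prop := (a g = x ∧ b g = y) ∨ (a g = y ∧ b g = x)

omit [DecidableEq V] [DecidableEq E] in
lemma Inc.symm {g : E} {x y : V} (h : Inc a b g x y) : Inc a b g y x := by
  rcases h with h | h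
  · exact Or.inr h
  · exact Or.inl h

omit [DecidableEq E] in
lemma Inc.dl {g : E} {x y : V} (h : Inc a b g x y) : dl (a g) + dl (b g) = dl x + dl y := by
  rcases h with ⟨h1, h2⟩ | ⟨h1, h2⟩
  · rw [h1, h2]
  · rw [h1, h2, add_comm]

/-- reachability by edges of `R` -/
def Rch (R : Finset E) : V → V → Prop := Relation.ReflTransGen (fun x y => ∃ g ∈ R, Inc a b g x y)

omit [DecidableEq V] [DecidableEq E] in
lemma Rch.symm {R : Finset E} {x y : V} (h : Rch a b R x y) : Rch a b R y x := by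
  induction h with
  | refl => exact Relation.ReflTransGen.refl
  | tail _ h2 ih =>
    obtain ⟨g, hg, h3⟩ := h2
    exact Relation.ReflTransGen.head ⟨g, hg, h3.symm a b⟩ ih

omit [DecidableEq V] [DecidableEq E] in
lemma Rch.trans {R : Finset E} {x y z : V} (h : Rch a b R x y) (h' : Rch a b R y z) :
    Rch a b R x z := Relation.ReflTransGen.trans h h'

/-- a join inside `R` between reachable vertices -/
lemma Rch.join {R : Finset E} {x y : V} (h : Rch a b R x y) :
    ∃ Q ⊆ R, bd a b Q = dl x + dl y := by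
  induction h with
  | refl => exact ⟨∅, empty_subset _, by rw [bd_empty, add_self2]⟩
  | @tail y z _ h2 ih =>
    obtain ⟨Q, hQ, hbd⟩ := ih
    obtain ⟨g, hg, h3⟩ := h2
    refine ⟨symmDiff Q {g}, ?_, ?_⟩
    · intro e he
      rw [mem_symmDiff] at he
      rcases he with ⟨h4, -⟩ | ⟨h4, -⟩
      · exact hQ h4
      · rw [mem_singleton] at h4; rw [h4]; exact hg
    · rw [bd_symmDiff, hbd, bd_singleton, h3.dl]
      have h5 : dl x + dl y + (dl y + dl z) = dl x + dl z + (dl y + dl y) := by abel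
      rw [h5, add_self2, add_zero]

/-- handshake: an edge leaves `X` if the boundary has odd sum on `X` -/
lemma exists_leaving (D : Finset E) (X : Finset V) (h : ∑ v ∈ X, bd a b D v ≠ 0) :
    ∃ g ∈ D, ∃ y z, Inc a b g y z ∧ y ∈ X ∧ z ∉ X := by
  by_contra hcon
  push Not at hcon
  apply h
  have h1 : ∑ v ∈ X, bd a b D v = ∑ e ∈ D, ∑ v ∈ X, (dl (a e) + dl (b e)) v := by
    rw [sum_comm]
    refine sum_congr rfl fun v _ => ?_
    rw [bd, Finset.sum_apply]
  rw [h1]
  apply sum_eq_zero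
  intro e he
  have h2 : ∀ x : V, ∑ v ∈ X, dl x v = if x ∈ X then 1 else 0 := by
    intro x
    unfold dl
    rw [sum_ite_eq']
  simp only [Pi.add_apply, sum_add_distrib, h2]
  by_cases ha : a e ∈ X
  · have hb : b e ∈ X := by
      by_contra hb
      exact absurd (hcon e he (a e) (b e) (Or.inl ⟨rfl, rfl⟩) ha) hb
    rw [if_pos ha, if_pos hb]
    exact CharTwo.add_self_eq_zero _
  · have hb : b e ∉ X := by
      intro hb
      exact ha (hcon e he (b e) (a e) (Or.inr ⟨rfl, rfl⟩) hb)
    rw [if_neg ha, if_neg hb, add_zero]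

lemma sum_dl (X : Finset V) (x : V) : ∑ v ∈ X, dl x v = if x ∈ X then 1 else 0 := by
  unfold dl
  rw [sum_ite_eq']

lemma dl_ne {x y : V} (h : dl x + dl y = 0) : x = y := by
  by_contra hne
  have h1 := congrFun h x
  simp only [Pi.add_apply, dl, Pi.zero_apply] at h1
  rw [if_pos trivial, if_neg hne, add_zero] at h1
  exact one_ne_zero h1

/-- incidence at a vertex -/
def At (g : E) (v : V) : Prop := (a g = v ∨ b g = v) ∧ a g ≠ b g

omit [DecidableEq V] [DecidableEq E] in
lemma At.inc {g : E} {v : V} (h : At a b g v) : ∃ y, Inc a b g v y ∧ y ≠ v := by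
  rcases h with ⟨h1 | h1, h2⟩
  · exact ⟨b g, Or.inl ⟨h1, rfl⟩, fun h3 => h2 (h1.trans h3.symm)⟩
  · exact ⟨a g, Or.inr ⟨rfl, h1⟩, fun h3 => h2 (h3.trans h1.symm)⟩

omit [DecidableEq V] [DecidableEq E] in
lemma Inc.at {g : E} {v y : V} (h : Inc a b g v y) (hne : y ≠ v) : At a b g v := by
  rcases h with ⟨h1, h2⟩ | ⟨h1, h2⟩
  · exact ⟨Or.inl h1, fun h3 => hne (h2.symm.trans (h3.symm.trans h1))⟩
  · exact ⟨Or.inr h2, fun h3 => hne (h1.symm.trans (h3.trans h2))⟩

omit [DecidableEq V] [DecidableEq E] in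
/-- vertices reachable without using edges at `v` avoid `v` -/
lemma rch_avoid {R : Finset E} {v x y : V} (hR : ∀ g ∈ R, a g ≠ v ∧ b g ≠ v) (hx : x ≠ v)
    (h : Rch a b R x y) : y ≠ v := by
  induction h with
  | refl => exact hx
  | tail _ h2 _ =>
    obtain ⟨g, hg, h3⟩ := h2
    rcases h3 with ⟨_, h4⟩ | ⟨h4, _⟩
    · rw [← h4]; exact (hR g hg).2
    · rw [← h4]; exact (hR g hg).1

/-- **Return lemma.** Let `D` be an edge set whose boundary on the component avoiding `v` is odd
after removing `e`; then another edge returns to `v`. -/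
lemma exists_return [Fintype V] {D : Finset E} {e : E} {v x : V} (heD : e ∈ D)
    (hinc : Inc a b e v x) (hxv : x ≠ v)
    (hodd : ∀ X : Finset V, x ∈ X → v ∉ X →
      (∀ y ∈ X, Rch a b (D.filter (fun g => a g ≠ v ∧ b g ≠ v)) x y) →
      ∑ u ∈ X, bd a b D u = 0) :
    ∃ g ∈ D, g ≠ e ∧ At a b g v ∧ ∃ Q ⊆ D.filter (fun g => a g ≠ v ∧ b g ≠ v),
      EvenM a b (Q ∪ {e, g}) := by
  classical
  set R := D.filter (fun g => a g ≠ v ∧ b g ≠ v) with hR
  let X : Finset V := univ.filter (fun y => Rch a b R x y)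
  have hxX : x ∈ X := by simp only [X, mem_filter, mem_univ, true_and]; exact Relation.ReflTransGen.refl
  have hRv : ∀ g ∈ R, a g ≠ v ∧ b g ≠ v := fun g hg => (mem_filter.1 hg).2
  have hvX : v ∉ X := by
    intro h
    simp only [X, mem_filter, mem_univ, true_and] at h
    exact rch_avoid a b hRv hxv h rfl
  have hsum : ∑ u ∈ X, bd a b (D.erase e) u ≠ 0 := by
    rw [bd_erase a b heD, hinc.dl]
    simp only [Pi.add_apply, sum_add_distrib, sum_dl]
    rw [hodd X hxX hvX (fun y hy => by simpa [X] using hy), if_neg hvX, if_pos hxX]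
    simp
  obtain ⟨g, hg, y, z, hyz, hy, hz⟩ := exists_leaving a b _ X hsum
  have hgD : g ∈ D := mem_of_mem_erase hg
  have hge : g ≠ e := ne_of_mem_erase hg
  have hyX : Rch a b R x y := by simpa [X] using hy
  have hgR : g ∉ R := by
    intro hgR
    apply hz
    simp only [X, mem_filter, mem_univ, true_and]
    exact Relation.ReflTransGen.tail hyX ⟨g, hgR, hyz⟩
  have hyv : y ≠ v := fun h => hvX (h ▸ hy)
  have hzv : z = v := by
    by_contra hzv
    apply hgR
    rw [hR, mem_filter]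
    refine ⟨hgD, ?_⟩
    rcases hyz with ⟨h1, h2⟩ | ⟨h1, h2⟩
    · exact ⟨by rw [h1]; exact hyv, by rw [h2]; exact hzv⟩
    · exact ⟨by rw [h1]; exact hzv, by rw [h2]; exact hyv⟩
  subst hzv
  refine ⟨g, hgD, hge, (hyz.symm a b).at a b hyv, ?_⟩
  obtain ⟨Q, hQ, hbQ⟩ := hyX.join a b
  refine ⟨Q, hQ, ?_⟩
  unfold EvenM
  have hdis : Disjoint Q ({e, g} : Finset E) := by
    rw [Finset.disjoint_left]
    intro f hf hf'
    rw [mem_insert, mem_singleton] at hf'
    have h1 := hRv f (hQ hf)
    rcases hf' with rfl | rfl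
    · rcases hinc with ⟨h2, _⟩ | ⟨_, h2⟩
      · exact h1.1 h2
      · exact h1.2 h2
    · rcases hyz with ⟨_, h2⟩ | ⟨h2, _⟩
      · exact h1.2 h2
      · exact h1.1 h2
  rw [bd_union a b hdis, hbQ, bd_insert a b (by rw [mem_singleton]; exact hge.symm), bd_singleton,
    hinc.dl, hyz.dl]
  have h5 : dl x + dl y + (dl y + dl z + (dl z + dl x))
      = (dl x + dl x) + (dl y + dl y) + (dl z + dl z) := by abel
  rw [h5, add_self2 (dl x), add_self2 (dl y), add_self2 (dl z)]
  simp

end

end Pool.Agent.H47.FC
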