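import Mathlib

set_option autoImplicit false

/-!
# König's edge colouring theorem for bipartite multigraphs, in matrix form
-/

namespace Pool.Agent.H47.FC

open Finset

/-- a matrix with constant positive line sums has a permutation with positive entries -/
theorem exists_perm_pos {X : Type*} [Fintype X] [DecidableEq X] (M : ℕ) (hM : 0 < M)
    (b : X → X → ℕ) (hr : ∀ x, ∑ y, b x y = M) (hc : ∀ y, ∑ x, b x y = M) :
    ∃ σ : X → X, Function.Bijective σ ∧ ∀ x, 0 < b x (σ x) := by
  classical
  let t : X → Finset X := fun x => univ.filter (fun y => 0 < b x y)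
  have hall : ∀ s : Finset X, s.card ≤ (s.biUnion t).card := by
    intro s
    have h1 : M * s.card = ∑ x ∈ s, ∑ y, b x y := by
      rw [Finset.sum_congr rfl (fun x _ => hr x), sum_const, smul_eq_mul, mul_comm]
    have h2 : ∑ x ∈ s, ∑ y, b x y ≤ ∑ y ∈ s.biUnion t, ∑ x, b x y := by
      rw [sum_comm]
      have h3 : ∑ y, ∑ x ∈ s, b x y = ∑ y ∈ s.biUnion t, ∑ x ∈ s, b x y := by
        symm
        apply sum_subset (subset_univ _)
        intro y _ hy
        apply sum_eq_zero
        intro x hx
        by_contra hne
        apply hy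
        rw [mem_biUnion]
        exact ⟨x, hx, by simp only [t, mem_filter, mem_univ, true_and]; omega⟩
      rw [h3]
      apply sum_le_sum
      intro y _
      exact sum_le_sum_of_subset (subset_univ s)
    have h4 : ∑ y ∈ s.biUnion t, ∑ x, b x y = M * (s.biUnion t).card := by
      rw [Finset.sum_congr rfl (fun y _ => hc y), sum_const, smul_eq_mul, mul_comm]
    have h5 : M * s.card ≤ M * (s.biUnion t).card := by
      rw [h1, ← h4]; exact h2
    exact Nat.le_of_mul_le_mul_left h5 hM
  obtain ⟨σ, hinj, hσ⟩ := (Finset.all_card_le_biUnion_card_iff_exists_injective t).1 hall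
  refine ⟨σ, Finite.injective_iff_bijective.1 hinj, fun x => ?_⟩
  have := hσ x
  simp only [t, mem_filter, mem_univ, true_and] at this
  exact this

/-- one colour class: an injection of the slots meeting all full columns -/
theorem exists_inj_pos {S C : Type*} [Fintype S] [Fintype C] [DecidableEq S] [DecidableEq C]
    (M : ℕ) (hM : 0 < M) (a : C → S → ℕ) (hrow : ∀ s, ∑ c, a c s = M)
    (hcol : ∀ c, ∑ s, a c s ≤ M) :
    ∃ g : S → C, Function.Injective g ∧ (∀ s, 0 < a (g s) s) ∧
      ∀ c, ∑ s, a c s = M → ∃ s, g s = c := by
  classical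
  let b : S ⊕ C → S ⊕ C → ℕ := fun x y =>
    match x, y with
    | Sum.inl s, Sum.inr c => a c s
    | Sum.inl _, Sum.inl _ => 0
    | Sum.inr c, Sum.inr c' => if c = c' then M - ∑ s, a c s else 0
    | Sum.inr c, Sum.inl s => a c s
  obtain ⟨σ, hbij, hpos⟩ := exists_perm_pos M hM b
    (by
      rintro (s | c)
      · simp only [Fintype.sum_sum_type, b, sum_const_zero, zero_add]
        exact hrow s
      · simp only [Fintype.sum_sum_type, b, sum_ite_eq, mem_univ, if_true]
        have := hcol c
        omega)
    (by
      rintro (s | c)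
      · simp only [Fintype.sum_sum_type, b, sum_const_zero, zero_add]
        exact hrow s
      · simp only [Fintype.sum_sum_type, b, sum_ite_eq', mem_univ, if_true]
        have := hcol c
        omega)
  have hex : ∀ s : S, ∃ c : C, σ (Sum.inl s) = Sum.inr c := by
    intro s
    have h := hpos (Sum.inl s)
    rcases hσ : σ (Sum.inl s) with s' | c
    · rw [hσ] at h
      simp [b] at h
    · exact ⟨c, rfl⟩
  choose g hg using hex
  refine ⟨g, ?_, ?_, ?_⟩
  · intro s s' h
    have h1 : σ (Sum.inl s) = σ (Sum.inl s') := by rw [hg, hg, h]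
    exact Sum.inl_injective (hbij.1 h1)
  · intro s
    have h := hpos (Sum.inl s)
    rw [hg] at h
    exact h
  · intro c hc
    obtain ⟨x, hx⟩ := hbij.2 (Sum.inr c)
    rcases x with s | c'
    · refine ⟨s, ?_⟩
      rw [hg] at hx
      exact Sum.inr_injective hx
    · exfalso
      have h := hpos (Sum.inr c')
      rw [hx] at h
      simp only [b] at h
      by_cases hcc : c' = c
      · subst hcc
        rw [if_pos rfl, hc] at h
        omega
      · rw [if_neg hcc] at h
        omega

/-- König: a nonnegative integer matrix with all slot sums `M` and all column sums at most `M` is a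
sum of `M` injections. -/
theorem koenig {S C : Type*} [Fintype S] [Fintype C] [DecidableEq S] [DecidableEq C] (M : ℕ) :
    ∀ (a : C → S → ℕ), (∀ s, ∑ c, a c s = M) → (∀ c, ∑ s, a c s ≤ M) →
    ∃ f : Fin M → S → C, (∀ m, Function.Injective (f m)) ∧
      ∀ c s, (univ.filter (fun m => f m s = c)).card = a c s := by
  induction M with
  | zero =>
    intro a hrow hcol
    refine ⟨fun m => m.elim0, fun m => m.elim0, ?_⟩
    intro c s
    have h1 := hrow s
    rw [sum_eq_zero_iff] at h1
    rw [h1 c (mem_univ c)]
    simp
  | succ M ih =>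
    intro a hrow hcol
    obtain ⟨g, hinj, hpos, hfull⟩ := exists_inj_pos (M + 1) (Nat.succ_pos M) a hrow hcol
    let a' : C → S → ℕ := fun c s => if g s = c then a c s - 1 else a c s
    have ha : ∀ c s, a c s = a' c s + if g s = c then 1 else 0 := by
      intro c s
      simp only [a']
      by_cases h : g s = c
      · rw [if_pos h, if_pos h]
        have := hpos s
        rw [h] at this
        omega
      · rw [if_neg h, if_neg h]
        rfl
    have hrow' : ∀ s, ∑ c, a' c s = M := by
      intro s
      have h1 := hrow s
      rw [sum_congr rfl (fun c _ => ha c s), sum_add_distrib] at h1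
      simp only [sum_ite_eq, mem_univ, if_true] at h1
      omega
    have hcol' : ∀ c, ∑ s, a' c s ≤ M := by
      intro c
      have h1 : ∑ s, a c s = ∑ s, a' c s + ∑ s, if g s = c then 1 else 0 := by
        rw [sum_congr rfl (fun s _ => ha c s), sum_add_distrib]
      have h2 := hcol c
      by_cases hf : ∑ s, a c s = M + 1
      · obtain ⟨s, hs⟩ := hfull c hf
        have h3 : 1 ≤ ∑ s, (if g s = c then 1 else 0) := by
          have h4 : (if g s = c then 1 else 0) ≤ ∑ s, (if g s = c then 1 else 0) :=
            single_le_sum (f := fun s => if g s = c then 1 else 0) (fun _ _ => Nat.zero_le _)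
              (mem_univ s)
          rw [if_pos hs] at h4
          exact h4
        omega
      · omega
    obtain ⟨f, hfinj, hf⟩ := ih a' hrow' hcol'
    refine ⟨Fin.snoc f g, ?_, ?_⟩
    · intro m
      refine Fin.lastCases ?_ (fun i => ?_) m
      · simpa using hinj
      · simpa using hfinj i
    · intro c s
      rw [ha c s, ← hf c s, card_filter, card_filter, Fin.sum_univ_castSucc]
      simp

/-- version with an arbitrary index type -/
theorem koenig' {Mem S C : Type*} [Fintype Mem] [Fintype S] [Fintype C] [DecidableEq S]
    [DecidableEq C] (a : C → S → ℕ)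
    (hrow : ∀ s, ∑ c, a c s = Fintype.card Mem) (hcol : ∀ c, ∑ s, a c s ≤ Fintype.card Mem) :
    ∃ f : Mem → S → C, (∀ m, Function.Injective (f m)) ∧
      ∀ c s, (univ.filter (fun m => f m s = c)).card = a c s := by
  classical
  obtain ⟨f, h1, h2⟩ := koenig (Fintype.card Mem) a hrow hcol
  refine ⟨fun m => f (Fintype.equivFin Mem m), fun m => h1 _, fun c s => ?_⟩
  rw [← h2 c s]
  apply Finset.card_bij (fun m _ => Fintype.equivFin Mem m)
  · intro m hm
    simpa using hm
  · intro m _ m' _ h
    exact (Fintype.equivFin Mem).injective h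
  · intro i hi
    refine ⟨(Fintype.equivFin Mem).symm i, ?_, ?_⟩
    · simpa using hi
    · simp

end Pool.Agent.H47.FC
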