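import Pool.Agent.H47.FC.System
import Pool.Agent.H47.FC.Koenig

set_option autoImplicit false

/-!
# From integral solutions of the placement system to placements
-/

namespace Pool.Agent.H47.FC

open Finset

/-- abstract descendants of `α0` -/
inductive Desc {A : Type} (pa : A → Option A) (α0 : A) : A → Prop
  | base : Desc pa α0 α0
  | step (α β : A) : pa α = some β → Desc pa α0 β → Desc pa α0 α

section

variable {N : Type} [Fintype N] [DecidableEq N] {A : Type} [Fintype A] [DecidableEq A]

/-- a family of placements realising the counts `y` below `α0`, up to depth `d` -/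
def Placed (T : RT N) (pa : A → Option A) (dA : A → ℕ) (y : N → A → ℕ) (α0 : A) (M d : ℕ)
    (φ : Fin M → A → N) : Prop :=
  (∀ α, Desc pa α0 α → dA α ≤ d → ∀ n, (univ.filter (fun m => φ m α = n)).card = y n α) ∧
  (∀ α β, pa α = some β → Desc pa α0 β → dA α ≤ d → ∀ m, φ m α ≠ T.root ∧ T.par (φ m α) = φ m β) ∧
  (∀ α α' β, pa α = some β → pa α' = some β → Desc pa α0 β → dA α ≤ d → α ≠ α' →
    ∀ m, φ m α ≠ φ m α')

theorem exists_placed (T : RT N) (pa : A → Option A) (dA : A → ℕ) (y : N → A → ℕ)
    (hdA : ∀ α β, pa α = some β → dA α = dA β + 1)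
    (hC1 : ∀ t α' α, pa α' = some α → ∑ c ∈ T.ch t, y c α' = y t α)
    (hC2 : ∀ c, c ≠ T.root → ∀ α, ∑ α' ∈ chA pa α, y c α' ≤ y (T.par c) α)
    (hroot : ∀ α β, pa α = some β → y T.root α = 0)
    (α0 : A) (h0 : dA α0 = 0) (hn : ∀ n, n ≠ T.root → y n α0 = 0) (d : ℕ) :
    ∃ φ : Fin (y T.root α0) → A → N, Placed T pa dA y α0 (y T.root α0) d φ := by
  classical
  induction d with
  | zero =>
    refine ⟨fun _ _ => T.root, ?_, ?_, ?_⟩
    · intro α hα hd n
      have hα0 : α = α0 := by
        cases hα with
        | base => rfl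
        | step _ β h1 _ => have := hdA _ _ h1; omega
      subst hα0
      by_cases hnr : n = T.root
      · subst hnr; simp
      · rw [hn n hnr, card_eq_zero, filter_eq_empty_iff]
        intro m _ h
        exact hnr h.symm
    · intro α β h _ hd m
      have := hdA α β h
      omega
    · intro α α' β h _ _ hd _ m
      have := hdA α β h
      omega
  | succ d ih =>
    obtain ⟨φ, ha, hb, hc⟩ := ih
    -- König at every (t, β)
    have hK : ∀ (β : A) (t : N), Desc pa α0 β → dA β = d →
        ∃ f : {m : Fin (y T.root α0) // φ m β = t} → {α // α ∈ chA pa β} → {c // c ∈ T.ch t},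
          (∀ m, Function.Injective (f m)) ∧
          ∀ (c : {c // c ∈ T.ch t}) (s : {α // α ∈ chA pa β}),
            (univ.filter (fun m => f m s = c)).card = y c.1 s.1 := by
      intro β t hβ hdβ
      have hcard : Fintype.card {m : Fin (y T.root α0) // φ m β = t} = y t β := by
        rw [Fintype.card_subtype]
        exact ha β hβ (by omega) t
      apply koenig' (Mem := {m : Fin (y T.root α0) // φ m β = t})
        (fun (c : {c // c ∈ T.ch t}) (s : {α // α ∈ chA pa β}) => y c.1 s.1)
      · intro s
        rw [hcard, ← hC1 t s.1 β (mem_chA.1 s.2)]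
        exact (Finset.sum_coe_sort (T.ch t) (fun c => y c s.1))
      · intro c
        rw [hcard]
        have h1 : ∑ s : {α // α ∈ chA pa β}, y c.1 s.1 = ∑ α' ∈ chA pa β, y c.1 α' :=
          Finset.sum_coe_sort (chA pa β) (fun α' => y c.1 α')
        rw [h1]
        have h2 := T.mem_ch.1 c.2
        have h3 := hC2 c.1 h2.1 β
        rwa [h2.2] at h3
    choose f hf1 hf2 using hK
    -- new placements
    let φ' : Fin (y T.root α0) → A → N := fun m α =>
      if h : ∃ β, pa α = some β ∧ Desc pa α0 β ∧ dA β = d then
        (f h.choose (φ m h.choose) h.choose_spec.2.1 h.choose_spec.2.2 ⟨m, rfl⟩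
          ⟨α, mem_chA.2 h.choose_spec.1⟩).1
      else φ m α
    have hφ'new : ∀ m α β (h1 : pa α = some β) (h2 : Desc pa α0 β) (h3 : dA β = d),
        φ' m α = (f β (φ m β) h2 h3 ⟨m, rfl⟩ ⟨α, mem_chA.2 h1⟩).1 := by
      intro m α β h1 h2 h3
      have hex : ∃ β, pa α = some β ∧ Desc pa α0 β ∧ dA β = d := ⟨β, h1, h2, h3⟩
      have gen : ∀ β' (a1 : pa α = some β') (a2 : Desc pa α0 β') (a3 : dA β' = d),
          (f β' (φ m β') a2 a3 ⟨m, rfl⟩ ⟨α, mem_chA.2 a1⟩).1
            = (f β (φ m β) h2 h3 ⟨m, rfl⟩ ⟨α, mem_chA.2 h1⟩).1 := by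
        intro β' a1 a2 a3
        have h4 : β' = β := Option.some.inj (a1.symm.trans h1)
        subst h4
        rfl
      simp only [φ', hex, dif_pos]
      exact gen hex.choose hex.choose_spec.1 hex.choose_spec.2.1 hex.choose_spec.2.2
    have hφ'old : ∀ m α, dA α ≤ d → φ' m α = φ m α := by
      intro m α hα
      have hnex : ¬ ∃ β, pa α = some β ∧ Desc pa α0 β ∧ dA β = d := by
        rintro ⟨β, h1, -, h3⟩
        have := hdA α β h1
        omega
      simp only [φ', hnex, dif_neg, not_false_eq_true]
    refine ⟨φ', ?_, ?_, ?_⟩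
    · intro α hα hd n
      by_cases hle : dA α ≤ d
      · rw [← ha α hα hle n]
        congr 1
        ext m
        simp only [mem_filter, mem_univ, true_and]
        rw [hφ'old m α hle]
      · have hdα : dA α = d + 1 := by omega
        cases hα with
        | base => omega
        | step _ β h1 h2 =>
          have h3 : dA β = d := by have := hdA α β h1; omega
          by_cases hnr : n = T.root
          · subst hnr
            rw [hroot α β h1, card_eq_zero, filter_eq_empty_iff]
            intro m _ h
            rw [hφ'new m α β h1 h2 h3] at h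
            have h4 := T.mem_ch.1 (f β (φ m β) h2 h3 ⟨m, rfl⟩ ⟨α, mem_chA.2 h1⟩).2
            exact h4.1 h
          · have hnc : n ∈ T.ch (T.par n) := T.mem_ch.2 ⟨hnr, rfl⟩
            rw [← hf2 β (T.par n) h2 h3 ⟨n, hnc⟩ ⟨α, mem_chA.2 h1⟩]
            symm
            apply Finset.card_bij (fun (m : {m : Fin (y T.root α0) // φ m β = T.par n}) _ => m.1)
            · rintro ⟨m, hm⟩ hmem
              simp only [mem_filter, mem_univ, true_and] at hmem ⊢
              rw [hφ'new m α β h1 h2 h3]
              have h5 : ∀ (t : N) (ht : φ m β = t) (hn' : n ∈ T.ch t),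
                  f β t h2 h3 ⟨m, ht⟩ ⟨α, mem_chA.2 h1⟩ = ⟨n, hn'⟩ →
                  (f β (φ m β) h2 h3 ⟨m, rfl⟩ ⟨α, mem_chA.2 h1⟩).1 = n := by
                intro t ht hn' h
                subst ht
                rw [h]
              exact h5 (T.par n) hm hnc hmem
            · intro m _ m' _ h
              exact Subtype.ext h
            · intro m hm
              simp only [mem_filter, mem_univ, true_and] at hm
              rw [hφ'new m α β h1 h2 h3] at hm
              have h4 := T.mem_ch.1 (f β (φ m β) h2 h3 ⟨m, rfl⟩ ⟨α, mem_chA.2 h1⟩).2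
              have h5 : φ m β = T.par n := by
                have h6 := h4.2
                rw [hm] at h6
                exact h6.symm
              refine ⟨⟨m, h5⟩, ?_, rfl⟩
              simp only [mem_filter, mem_univ, true_and]
              have h7 : ∀ (t : N) (ht : φ m β = t) (hn' : n ∈ T.ch t),
                  f β t h2 h3 ⟨m, ht⟩ ⟨α, mem_chA.2 h1⟩ = ⟨n, hn'⟩ := by
                intro t ht hn'
                subst ht
                apply Subtype.ext
                exact hm
              exact h7 (T.par n) h5 hnc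
    · intro α β h1 h2 hd m
      by_cases hle : dA α ≤ d
      · have hle' : dA β ≤ d := by have := hdA α β h1; omega
        rw [hφ'old m α hle, hφ'old m β hle']
        exact hb α β h1 h2 hle m
      · have h3 : dA β = d := by have := hdA α β h1; omega
        rw [hφ'new m α β h1 h2 h3, hφ'old m β (by omega)]
        exact T.mem_ch.1 (f β (φ m β) h2 h3 ⟨m, rfl⟩ ⟨α, mem_chA.2 h1⟩).2
    · intro α α' β h1 h1' h2 hd hne m
      by_cases hle : dA α ≤ d
      · have hle' : dA α' ≤ d := by
          have := hdA α β h1
          have := hdA α' β h1'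
          omega
        rw [hφ'old m α hle, hφ'old m α' hle']
        exact hc α α' β h1 h1' h2 hle hne m
      · have h3 : dA β = d := by have := hdA α β h1; omega
        rw [hφ'new m α β h1 h2 h3, hφ'new m α' β h1' h2 h3]
        intro h
        have h4 := hf1 β (φ m β) h2 h3 ⟨m, rfl⟩ (Subtype.ext h)
        exact hne (congrArg Subtype.val h4)

end

end Pool.Agent.H47.FC
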