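import Mathlib

set_option autoImplicit false

/-!
# Tree-structured integer linear systems of bounded height have bounded torsion
-/

namespace Pool.Agent.H47.FC

open Finset

/-- a finite rooted tree, given by parent and depth functions -/
structure RT (N : Type) where
  par : N → N
  dep : N → ℕ
  root : N
  dep_root : dep root = 0
  eq_root : ∀ n, dep n = 0 → n = root
  dep_par : ∀ n, n ≠ root → dep (par n) + 1 = dep n

namespace RT

variable {N : Type} [Fintype N] [DecidableEq N] (T : RT N)

/-- children of a node -/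
def ch (t : N) : Finset N := univ.filter (fun c => c ≠ T.root ∧ T.par c = t)

lemma mem_ch {t c : N} : c ∈ T.ch t ↔ c ≠ T.root ∧ T.par c = t := by simp [ch]

lemma dep_ch {t c : N} (h : c ∈ T.ch t) : T.dep c = T.dep t + 1 := by
  rw [mem_ch] at h
  rw [← T.dep_par c h.1, h.2]

end RT

/-- action of an integer matrix -/
def act {I A : Type} [Fintype A] (M : I → A → ℤ) : (A → ℤ) →+ (I → ℤ) where
  toFun z := fun i => ∑ α, M i α * z α
  map_zero' := by ext i; simp
  map_add' x y := by ext i; simp [mul_add, sum_add_distrib]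

lemma act_apply {I A : Type} [Fintype A] (M : I → A → ℤ) (z : A → ℤ) (i : I) :
    act M z i = ∑ α, M i α * z α := rfl

/-- for every subgroup of `ℤ^I` the torsion of the quotient has finite exponent -/
lemma exists_torsion_exp {I : Type} [Finite I] (L : AddSubgroup (I → ℤ)) :
    ∃ K : ℕ, 0 < K ∧ ∀ v : I → ℤ, (∃ D : ℕ, 0 < D ∧ D • v ∈ L) → K • v ∈ L := by
  classical
  let Tm : Submodule ℤ (I → ℤ) :=
    { carrier := {v | ∃ D : ℕ, 0 < D ∧ D • v ∈ L}
      zero_mem' := ⟨1, one_pos, by simp⟩
      add_mem' := by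
        rintro v w ⟨D, hD, hv⟩ ⟨D', hD', hw⟩
        refine ⟨D * D', Nat.mul_pos hD hD', ?_⟩
        rw [smul_add]
        apply L.add_mem
        · rw [mul_comm, mul_smul]; exact L.nsmul_mem hv D'
        · rw [mul_smul]; exact L.nsmul_mem hw D
      smul_mem' := by
        rintro c v ⟨D, hD, hv⟩
        refine ⟨D, hD, ?_⟩
        rw [smul_comm]
        exact L.zsmul_mem hv c }
  obtain ⟨S, hS⟩ := IsNoetherian.noetherian Tm
  have hmem : ∀ v ∈ S, ∃ D : ℕ, 0 < D ∧ D • v ∈ L := by
    intro v hv
    have : v ∈ Tm := by rw [← hS]; exact Submodule.subset_span hv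
    exact this
  choose! D hD using hmem
  refine ⟨∏ v ∈ S, D v, Finset.prod_pos fun v hv => (hD v hv).1, fun v hv => ?_⟩
  have hvT : v ∈ Submodule.span ℤ (S : Set (I → ℤ)) := by rw [hS]; exact hv
  refine Submodule.span_induction (p := fun v _ => (∏ v ∈ S, D v) • v ∈ L) ?_ ?_ ?_ ?_ hvT
  · intro u hu
    have hu' : u ∈ S := hu
    rw [← Finset.prod_erase_mul S D hu', mul_smul]
    exact L.nsmul_mem (hD u hu').2 _
  · simp
  · intro x y _ _ hx hy
    rw [smul_add]
    exact L.add_mem hx hy
  · intro c x _ hx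
    rw [smul_comm]
    exact L.zsmul_mem hx c

/-- uniform version for a finite set of subgroups -/
lemma exists_torsion_exp_finite {I : Type} [Finite I] (F : Set (AddSubgroup (I → ℤ)))
    (hF : F.Finite) :
    ∃ K : ℕ, 0 < K ∧ ∀ L ∈ F, ∀ v : I → ℤ, (∃ D : ℕ, 0 < D ∧ D • v ∈ L) → K • v ∈ L := by
  classical
  choose k hk using fun L : AddSubgroup (I → ℤ) => exists_torsion_exp L
  refine ⟨∏ L ∈ hF.toFinset, k L, Finset.prod_pos fun L _ => (hk L).1, fun L hL v hv => ?_⟩
  have hL' : L ∈ hF.toFinset := by simpa using hL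
  rw [← Finset.prod_erase_mul _ k hL', mul_smul]
  exact L.nsmul_mem ((hk L).2 v hv) _

section family

variable {I A : Type} [Fintype A]

/-- the subgroups that can occur at height `j` -/
def Fam (S : Set (I → A → ℤ)) : ℕ → Set (AddSubgroup (I → ℤ))
  | 0 => ∅
  | j + 1 => {L | ∃ r ∈ S, ∃ P ∈ S, ∃ T ⊆ Fam S j, L = ((sSup T).comap (act P)).map (act r)}

lemma Fam_finite (S : Set (I → A → ℤ)) (hS : S.Finite) (j : ℕ) : (Fam S j).Finite := by
  induction j with
  | zero => simp [Fam]
  | succ j ih =>
    have h1 : (𝒫 (Fam S j)).Finite := ih.finite_subsets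
    have h2 := (hS.prod (hS.prod h1)).image
      (fun p : (I → A → ℤ) × (I → A → ℤ) × Set (AddSubgroup (I → ℤ)) =>
        ((sSup p.2.2).comap (act p.2.1)).map (act p.1))
    refine h2.subset ?_
    rintro L ⟨r, hr, P, hP, T, hT, rfl⟩
    exact ⟨(r, P, T), ⟨hr, hP, hT⟩, rfl⟩

end family

section tree

variable {N : Type} [Fintype N] [DecidableEq N] (T : RT N)
variable {I A : Type} [Fintype A]

/-- the equation of node `t` -/
def Row (R : Type) [CommRing R] (r P : N → I → A → ℤ) (b : N → I → ℤ) (x : N → A → R) (t : N) :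
    Prop :=
  ∀ i, ∑ α, (P t i α : R) * x t α - ∑ c ∈ T.ch t, ∑ α, (r c i α : R) * x c α = (b t i : R)

variable (r P : N → I → A → ℤ)

/-- integral solutions of the homogeneous system at depth at least `j` -/
def Hom (j : ℕ) (y : N → A → ℤ) : Prop :=
  ∀ t, j ≤ T.dep t → act (P t) (y t) = ∑ c ∈ T.ch t, act (r c) (y c)

lemma Hom.add {j : ℕ} {y y' : N → A → ℤ} (h : Hom T r P j y) (h' : Hom T r P j y') :
    Hom T r P j (y + y') := by
  intro t ht
  simp only [Pi.add_apply, map_add, sum_add_distrib, h t ht, h' t ht]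

lemma Hom.zero {j : ℕ} : Hom T r P j (0 : N → A → ℤ) := by
  intro t ht
  simp

lemma Hom.neg {j : ℕ} {y : N → A → ℤ} (h : Hom T r P j y) : Hom T r P j (-y) := by
  intro t ht
  simp only [Pi.neg_apply, map_neg, sum_neg_distrib, h t ht]

lemma Hom.sum {j : ℕ} {J : Type} (s : Finset J) (y : J → N → A → ℤ)
    (h : ∀ k ∈ s, Hom T r P j (y k)) : Hom T r P j (∑ k ∈ s, y k) := by
  classical
  induction s using Finset.induction_on with
  | empty => simpa using Hom.zero T r P
  | insert a s ha ih =>
    rw [sum_insert ha]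
    exact (h a (mem_insert_self a s)).add T r P (ih fun k hk => h k (mem_insert_of_mem hk))

/-- values at `t` of homogeneous solutions of the subtree of `t` -/
def Lam (t : N) : AddSubgroup (A → ℤ) where
  carrier := {z | ∃ y : N → A → ℤ, Hom T r P (T.dep t) y ∧
    (∀ s, T.dep s = T.dep t → s ≠ t → y s = 0) ∧ y t = z}
  zero_mem' := ⟨0, Hom.zero T r P, fun _ _ _ => rfl, rfl⟩
  add_mem' := by
    rintro z z' ⟨y, h1, h2, rfl⟩ ⟨y', h1', h2', rfl⟩
    refine ⟨y + y', h1.add T r P h1', fun s hs hst => ?_, rfl⟩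
    rw [Pi.add_apply, h2 s hs hst, h2' s hs hst, add_zero]
  neg_mem' := by
    rintro z ⟨y, h1, h2, rfl⟩
    refine ⟨-y, h1.neg T r P, fun s hs hst => ?_, rfl⟩
    rw [Pi.neg_apply, h2 s hs hst, neg_zero]

lemma mem_Lam {t : N} {z : A → ℤ} : z ∈ Lam T r P t ↔ ∃ y : N → A → ℤ, Hom T r P (T.dep t) y ∧
    (∀ s, T.dep s = T.dep t → s ≠ t → y s = 0) ∧ y t = z := Iff.rfl

/-- ancestor of `s` at depth `j` -/
def ancAt (j : ℕ) (s : N) : N := (T.par)^[T.dep s - j] s

lemma ancAt_self {t : N} : ancAt T (T.dep t) t = t := by simp [ancAt]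

lemma ancAt_ch {j : ℕ} {t c : N} (hc : c ∈ T.ch t) (hj : j ≤ T.dep t) :
    ancAt T j c = ancAt T j t := by
  have h := T.dep_ch hc
  rw [RT.mem_ch] at hc
  unfold ancAt
  have h2 : T.dep c - j = (T.dep t - j) + 1 := by omega
  rw [h2, Function.iterate_succ_apply, hc.2]

/-- restriction of a homogeneous solution to a subtree -/
lemma Hom.mem_Lam {j : ℕ} {y : N → A → ℤ} (h : Hom T r P j y) (t : N) (ht : T.dep t = j) :
    y t ∈ Lam T r P t := by
  subst ht
  refine ⟨fun s => if ancAt T (T.dep t) s = t then y s else 0, ?_, ?_, ?_⟩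
  · intro s hs
    by_cases hst : ancAt T (T.dep t) s = t
    · simp only [hst, if_true]
      rw [h s hs]
      refine sum_congr rfl fun c hc => ?_
      rw [if_pos (by rw [ancAt_ch T hc hs, hst])]
    · simp only [hst, if_false, map_zero]
      symm
      apply sum_eq_zero
      intro c hc
      rw [if_neg (by rw [ancAt_ch T hc hs]; exact hst), map_zero]
  · intro s hs hst
    have : ancAt T (T.dep t) s = s := by rw [← hs]; exact ancAt_self T
    simp only [this]
    rw [if_neg hst]
  · simp only [ancAt_self, if_true]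

/-- the subgroup of outputs of the children of `t` -/
def Gam (t : N) : AddSubgroup (I → ℤ) := sSup ((fun c => (Lam T r P c).map (act (r c))) '' (T.ch t))

lemma sum_mem_Gam (t : N) (lam : N → A → ℤ) (h : ∀ c ∈ T.ch t, lam c ∈ Lam T r P c) :
    ∑ c ∈ T.ch t, act (r c) (lam c) ∈ Gam T r P t := by
  refine AddSubgroup.sum_mem _ fun c hc => ?_
  have h1 : (Lam T r P c).map (act (r c)) ≤ Gam T r P t :=
    le_sSup ⟨c, by simpa using hc, rfl⟩
  exact h1 ⟨lam c, h c hc, rfl⟩

lemma exists_of_mem_Gam (t : N) {v : I → ℤ} (h : v ∈ Gam T r P t) :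
    ∃ lam : N → A → ℤ, (∀ c ∈ T.ch t, lam c ∈ Lam T r P c) ∧
      v = ∑ c ∈ T.ch t, act (r c) (lam c) := by
  classical
  -- the set of such sums is a subgroup containing all generators
  let G : AddSubgroup (I → ℤ) :=
    { carrier := {v | ∃ lam : N → A → ℤ, (∀ c ∈ T.ch t, lam c ∈ Lam T r P c) ∧
        v = ∑ c ∈ T.ch t, act (r c) (lam c)}
      zero_mem' := ⟨0, fun c _ => (Lam T r P c).zero_mem, by simp⟩
      add_mem' := by
        rintro _ _ ⟨l, hl, rfl⟩ ⟨l', hl', rfl⟩
        refine ⟨l + l', fun c hc => (Lam T r P c).add_mem (hl c hc) (hl' c hc), ?_⟩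
        simp [sum_add_distrib]
      neg_mem' := by
        rintro _ ⟨l, hl, rfl⟩
        refine ⟨-l, fun c hc => (Lam T r P c).neg_mem (hl c hc), ?_⟩
        simp [sum_neg_distrib] }
  have hle : Gam T r P t ≤ G := by
    apply sSup_le
    rintro L ⟨c, hc, rfl⟩
    rintro w ⟨z, hz, rfl⟩
    have hc' : c ∈ T.ch t := by simpa using hc
    refine ⟨fun c' => if c' = c then z else 0, ?_, ?_⟩
    · intro c' _
      by_cases hcc : c' = c
      · subst hcc; simpa using hz
      · simp only [hcc, if_false]; exact AddSubgroup.zero_mem _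
    · symm
      rw [sum_eq_single c]
      · simp
      · intro c' _ hne
        simp [hne]
      · intro hn; exact absurd hc' hn
  exact hle h

/-- recursion for the lattices -/
lemma Lam_eq (t : N) : Lam T r P t = (Gam T r P t).comap (act (P t)) := by
  classical
  ext z
  constructor
  · rintro ⟨y, h1, h2, rfl⟩
    rw [AddSubgroup.mem_comap, h1 t le_rfl]
    apply sum_mem_Gam
    intro c hc
    have h3 : Hom T r P (T.dep c) y := by
      intro s hs
      apply h1 s
      rw [T.dep_ch hc] at hs
      omega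
    exact h3.mem_Lam T r P c rfl
  · intro hz
    rw [AddSubgroup.mem_comap] at hz
    obtain ⟨lam, hlam, hsum⟩ := exists_of_mem_Gam T r P t hz
    choose! Y hY1 hY2 hY3 using fun c (hc : c ∈ T.ch t) => (mem_Lam T r P).1 (hlam c hc)
    -- glue
    refine ⟨fun s => if T.dep s ≤ T.dep t then (if s = t then z else 0)
      else ∑ c ∈ T.ch t, Y c s, ?_, ?_, ?_⟩
    · intro s hs
      have hchild : ∀ c ∈ T.ch s, ¬ T.dep c ≤ T.dep t := by
        intro c hc
        rw [T.dep_ch hc]; omega
      have hR : ∑ c ∈ T.ch s, act (r c) (if T.dep c ≤ T.dep t then (if c = t then z else 0)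
          else ∑ c' ∈ T.ch t, Y c' c) = ∑ c ∈ T.ch s, act (r c) (∑ c' ∈ T.ch t, Y c' c) :=
        sum_congr rfl fun c hc => by rw [if_neg (hchild c hc)]
      rw [hR]
      beta_reduce
      by_cases hst : T.dep s ≤ T.dep t
      · have hdep : T.dep s = T.dep t := le_antisymm hst hs
        rw [if_pos hst]
        by_cases hs' : s = t
        · subst hs'
          rw [if_pos rfl, hsum]
          refine sum_congr rfl fun c hc => ?_
          congr 1
          rw [sum_eq_single c]
          · exact (hY3 c hc).symm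
          · intro c' hc' hne
            apply hY2 c' hc' c
            · rw [T.dep_ch hc, T.dep_ch hc']
            · exact fun h => hne h.symm
          · intro hn; exact absurd hc hn
        · rw [if_neg hs', map_zero]
          symm
          apply sum_eq_zero
          intro c hc
          have : ∑ c' ∈ T.ch t, Y c' c = 0 := by
            apply sum_eq_zero
            intro c' hc'
            apply hY2 c' hc' c
            · rw [T.dep_ch hc, T.dep_ch hc', hdep]
            · rintro rfl
              rw [RT.mem_ch] at hc hc'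
              exact hs' (hc.2.symm.trans hc'.2)
          rw [this, map_zero]
      · rw [if_neg hst]
        have hH : Hom T r P (T.dep t + 1) (∑ c ∈ T.ch t, Y c) := by
          apply Hom.sum
          intro c hc
          have := hY1 c hc
          rwa [T.dep_ch hc] at this
        have := hH s (by omega)
        simpa [Finset.sum_apply] using this
    · intro s hs hst
      simp only [hs, le_refl, if_true, hst, if_false]
    · simp

/-- outputs lie in the finite family -/
lemma map_Lam_mem_Fam (S : Set (I → A → ℤ)) (hr : ∀ n, r n ∈ S) (hP : ∀ n, P n ∈ S) (H : ℕ)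
    (hH : ∀ n, T.dep n ≤ H) (j : ℕ) : ∀ t, T.dep t + j = H →
    (Lam T r P t).map (act (r t)) ∈ Fam S (j + 1) ∧
    ∃ U ⊆ Fam S j, Gam T r P t = sSup U := by
  induction j with
  | zero =>
    intro t ht
    have hch : T.ch t = ∅ := by
      rw [Finset.eq_empty_iff_forall_notMem]
      intro c hc
      have := T.dep_ch hc
      have := hH c
      omega
    have h2 : ∃ U ⊆ Fam S 0, Gam T r P t = sSup U := by
      refine ⟨∅, Set.empty_subset _, ?_⟩
      simp [Gam, hch]
    refine ⟨?_, h2⟩
    obtain ⟨U, hU, hG⟩ := h2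
    exact ⟨r t, hr t, P t, hP t, U, hU, by rw [Lam_eq, hG]⟩
  | succ j ih =>
    intro t ht
    have h2 : ∃ U ⊆ Fam S (j + 1), Gam T r P t = sSup U := by
      refine ⟨(fun c => (Lam T r P c).map (act (r c))) '' (T.ch t), ?_, rfl⟩
      rintro L ⟨c, hc, rfl⟩
      have hc' : c ∈ T.ch t := by simpa using hc
      exact (ih c (by rw [T.dep_ch hc']; omega)).1
    refine ⟨?_, h2⟩
    obtain ⟨U, hU, hG⟩ := h2
    exact ⟨r t, hr t, P t, hP t, U, hU, by rw [Lam_eq, hG]⟩

end tree

/-- the subgroups whose torsion exponents are needed -/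
lemma needed_finite {I A : Type} [Finite I] [Fintype A] (S : Set (I → A → ℤ)) (hS : S.Finite)
    (j : ℕ) : {L : AddSubgroup (I → ℤ) | ∃ U ⊆ Fam S j, ∃ P ∈ S, L = sSup U ⊔ (act P).range}.Finite := by
  have h1 : (𝒫 (Fam S j)).Finite := (Fam_finite S hS j).finite_subsets
  refine ((h1.prod hS).image (fun p : Set (AddSubgroup (I → ℤ)) × (I → A → ℤ) =>
    sSup p.1 ⊔ (act p.2).range)).subset ?_
  rintro L ⟨U, hU, P, hP, rfl⟩
  exact ⟨(U, P), ⟨hU, hP⟩, rfl⟩

/-- clearing denominators -/
lemma exists_common_den {X : Type} [Finite X] (x : X → ℚ) :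
    ∃ (D : ℕ) (Y : X → ℤ), 0 < D ∧ ∀ k, (Y k : ℚ) = D * x k := by
  classical
  cases nonempty_fintype X
  refine ⟨∏ k, (x k).den, fun k => (x k).num * ∏ l ∈ univ.erase k, ((x l).den : ℤ), 
    Finset.prod_pos fun k _ => (x k).den_pos, fun k => ?_⟩
  rw [← Finset.mul_prod_erase univ (fun k => (x k).den) (mem_univ k)]
  push_cast
  have : ((x k).den : ℚ) * x k = (x k).num := by
    rw [mul_comm]; exact Rat.mul_den_eq_num (x k)
  rw [mul_right_comm, this]

/-- **Bounded torsion.**  For a finite set `S` of integer matrices and a height `H` there is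
`K > 0` such that every tree-structured system with local matrices in `S` and height at most `H`
that is solvable over `ℚ` for `b` is solvable over `ℤ` for `K b`. -/
theorem exists_uniform_K {I A : Type} [Finite I] [Fintype A] (S : Set (I → A → ℤ))
    (hS : S.Finite) (H : ℕ) :
    ∃ K : ℕ, 0 < K ∧ ∀ (N : Type) [Fintype N] [DecidableEq N] (T : RT N)
      (r P : N → I → A → ℤ), (∀ n, r n ∈ S) → (∀ n, P n ∈ S) → (∀ n, T.dep n ≤ H) →
      ∀ (b : N → I → ℤ) (x : N → A → ℚ), (∀ t, Row T ℚ r P b x t) →
      ∃ y : N → A → ℤ, ∀ t, Row T ℤ r P (fun n i => K * b n i) y t := by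
  classical
  have main : ∀ k : ℕ, ∃ K : ℕ, 0 < K ∧ ∀ (N : Type) [Fintype N] [DecidableEq N] (T : RT N)
      (r P : N → I → A → ℤ), (∀ n, r n ∈ S) → (∀ n, P n ∈ S) → (∀ n, T.dep n ≤ H) →
      ∀ (b : N → I → ℤ) (x : N → A → ℚ), (∀ t, Row T ℚ r P b x t) →
      ∃ y : N → A → ℤ, ∀ t, H + 1 - k ≤ T.dep t → Row T ℤ r P (fun n i => K * b n i) y t := by
    intro k
    induction k with
    | zero =>
      refine ⟨1, one_pos, ?_⟩
      intro N _ _ T r P hr hP hH b x hx
      refine ⟨0, fun t ht => ?_⟩
      have := hH t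
      omega
    | succ k ih =>
      obtain ⟨K, hK, ihK⟩ := ih
      by_cases hkH : H < k
      · refine ⟨K, hK, ?_⟩
        intro N _ _ T r P hr hP hH b x hx
        obtain ⟨y, hy⟩ := ihK N T r P hr hP hH b x hx
        exact ⟨y, fun t ht => hy t (by omega)⟩
      push Not at hkH
      -- level `j = H - k`
      obtain ⟨K', hK', hK'L⟩ := exists_torsion_exp_finite _ (needed_finite S hS k)
      refine ⟨K' * K, Nat.mul_pos hK' hK, ?_⟩
      intro N _ _ T r P hr hP hH b x hx
      obtain ⟨y, hy⟩ := ihK N T r P hr hP hH b x hx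
      set j := H - k with hj
      have hlev : H + 1 - k = j + 1 := by omega
      have hlev' : H + 1 - (k + 1) = j := by omega
      rw [hlev] at hy
      rw [hlev']
      -- common denominator
      obtain ⟨D, X, hD, hX⟩ := exists_common_den (fun p : N × A => x p.1 p.2)
      let Xi : N → A → ℤ := fun n α => X (n, α)
      have hXi : ∀ n α, (Xi n α : ℚ) = D * x n α := fun n α => hX (n, α)
      -- integral row equation for `Xi`
      have hXrow : ∀ t, act (P t) (Xi t) - ∑ c ∈ T.ch t, act (r c) (Xi c) = (D : ℤ) • b t := by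
        intro t
        ext i
        have h1 := hx t i
        have h2 : ((act (P t) (Xi t) i - ∑ c ∈ T.ch t, act (r c) (Xi c) i : ℤ) : ℚ)
            = (D : ℚ) * b t i := by
          simp only [act_apply]
          push_cast
          simp only [hXi]
          rw [← h1, mul_sub, mul_sum, mul_sum]
          congr 1
          · refine sum_congr rfl fun α _ => ?_
            ring
          · refine sum_congr rfl fun c _ => ?_
            rw [mul_sum]
            refine sum_congr rfl fun α _ => ?_
            ring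
        simp only [Pi.sub_apply, Finset.sum_apply, Pi.smul_apply, smul_eq_mul]
        exact_mod_cast h2
      have hyrow : ∀ t, j + 1 ≤ T.dep t →
          act (P t) (y t) - ∑ c ∈ T.ch t, act (r c) (y c) = (K : ℤ) • b t := by
        intro t ht
        ext i
        have h1 := hy t ht i
        simp only [Pi.sub_apply, Finset.sum_apply, Pi.smul_apply, smul_eq_mul, act_apply]
        simpa using h1
      -- homogeneous difference
      let Y : N → A → ℤ := (K : ℤ) • Xi - (D : ℤ) • y
      have hY : Hom T r P (j + 1) Y := by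
        intro t ht
        have h1 := hXrow t
        have h2 := hyrow t ht
        have h3 : act (P t) (Y t) - ∑ c ∈ T.ch t, act (r c) (Y c) = 0 := by
          have e1 : act (P t) (Y t) = (K : ℤ) • act (P t) (Xi t) - (D : ℤ) • act (P t) (y t) := by
            simp only [Y, Pi.sub_apply, Pi.smul_apply, map_sub, map_zsmul]
          have e2 : ∑ c ∈ T.ch t, act (r c) (Y c) = (K : ℤ) • ∑ c ∈ T.ch t, act (r c) (Xi c)
              - (D : ℤ) • ∑ c ∈ T.ch t, act (r c) (y c) := by
            rw [smul_sum, smul_sum, ← sum_sub_distrib]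
            refine sum_congr rfl fun c _ => ?_
            simp only [Y, Pi.sub_apply, Pi.smul_apply, map_sub, map_zsmul]
          rw [e1, e2]
          have : (K : ℤ) • act (P t) (Xi t) - (D : ℤ) • act (P t) (y t) -
              ((K : ℤ) • ∑ c ∈ T.ch t, act (r c) (Xi c) - (D : ℤ) • ∑ c ∈ T.ch t, act (r c) (y c))
              = (K : ℤ) • (act (P t) (Xi t) - ∑ c ∈ T.ch t, act (r c) (Xi c))
                - (D : ℤ) • (act (P t) (y t) - ∑ c ∈ T.ch t, act (r c) (y c)) := by
            rw [smul_sub, smul_sub]; abel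
          rw [this, h1, h2, smul_comm, sub_self]
        exact sub_eq_zero.1 h3
      -- the vectors to be represented
      let v : N → I → ℤ := fun t => (K : ℤ) • b t + ∑ c ∈ T.ch t, act (r c) (y c)
      have hrep : ∀ t, T.dep t = j → ∃ (z : A → ℤ) (lam : N → A → ℤ),
          (∀ c ∈ T.ch t, lam c ∈ Lam T r P c) ∧
          (K' : ℤ) • v t = act (P t) z + ∑ c ∈ T.ch t, act (r c) (lam c) := by
        intro t ht
        obtain ⟨-, U, hU, hG⟩ := map_Lam_mem_Fam T r P S hr hP H hH k t (by omega)
        have hDv : D • v t ∈ sSup U ⊔ (act (P t)).range := by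
          have e1 : D • v t = act (P t) ((K : ℤ) • Xi t) - ∑ c ∈ T.ch t, act (r c) (Y c) := by
            have h1 := hXrow t
            have e2 : ∑ c ∈ T.ch t, act (r c) (Y c) = (K : ℤ) • ∑ c ∈ T.ch t, act (r c) (Xi c)
                - (D : ℤ) • ∑ c ∈ T.ch t, act (r c) (y c) := by
              rw [smul_sum, smul_sum, ← sum_sub_distrib]
              refine sum_congr rfl fun c _ => ?_
              simp only [Y, Pi.sub_apply, Pi.smul_apply, map_sub, map_zsmul]
            rw [e2, map_zsmul, ← natCast_zsmul]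
            simp only [v]
            rw [smul_add, smul_comm (D : ℤ) (K : ℤ), ← h1, smul_sub]
            abel
          rw [e1]
          apply AddSubgroup.sub_mem
          · exact AddSubgroup.mem_sup_right ⟨_, rfl⟩
          · apply AddSubgroup.mem_sup_left
            rw [← hG]
            apply sum_mem_Gam
            intro c hc
            have h3 : T.dep c = j + 1 := by rw [T.dep_ch hc, ht]
            exact (hY.mem_Lam T r P c h3)
        have hKv := hK'L (sSup U ⊔ (act (P t)).range) ⟨U, hU, P t, hP t, rfl⟩ (v t) ⟨D, hD, hDv⟩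
        obtain ⟨g, hg, w, ⟨z, rfl⟩, hsum⟩ := AddSubgroup.mem_sup.1 hKv
        rw [← hG] at hg
        obtain ⟨lam, hlam, rfl⟩ := exists_of_mem_Gam T r P t hg
        refine ⟨z, lam, hlam, ?_⟩
        rw [natCast_zsmul, ← hsum, add_comm]
      choose! z lam hlam hzl using hrep
      -- witnesses
      have hwit : ∀ c, T.dep c = j + 1 → ∃ Yc : N → A → ℤ, Hom T r P (j + 1) Yc ∧
          (∀ s, T.dep s = j + 1 → s ≠ c → Yc s = 0) ∧ Yc c = lam (T.par c) c := by
        intro c hc
        have hcr : c ≠ T.root := by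
          rintro rfl
          rw [T.dep_root] at hc
          omega
        have hp : T.dep (T.par c) = j := by
          have := T.dep_par c hcr
          omega
        have hcc : c ∈ T.ch (T.par c) := by rw [RT.mem_ch]; exact ⟨hcr, rfl⟩
        obtain ⟨Yc, h1, h2, h3⟩ := (mem_Lam T r P).1 (hlam (T.par c) hp c hcc)
        rw [hc] at h1 h2
        exact ⟨Yc, h1, h2, h3⟩
      choose! W hW1 hW2 hW3 using hwit
      let lev : Finset N := univ.filter (fun c => T.dep c = j + 1)
      have hWsum : ∀ s, T.dep s = j + 1 → (∑ c ∈ lev, W c) s = lam (T.par s) s := by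
        intro s hs
        rw [Finset.sum_apply, sum_eq_single s]
        · exact hW3 s hs
        · intro c hc hne
          have hc' : T.dep c = j + 1 := by simpa [lev] using hc
          exact hW2 c hc' s hs (fun h => hne h.symm)
        · intro hn
          exact absurd (by simpa [lev] using hs) hn
      have hWhom : Hom T r P (j + 1) (∑ c ∈ lev, W c) := by
        apply Hom.sum
        intro c hc
        exact hW1 c (by simpa [lev] using hc)
      let y' : N → A → ℤ := fun s => if T.dep s ≤ j then z s
        else (K' : ℤ) • y s - (∑ c ∈ lev, W c) s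
      refine ⟨y', fun t ht => ?_⟩
      have hgoal : act (P t) (y' t) - ∑ c ∈ T.ch t, act (r c) (y' c)
          = ((K' * K : ℕ) : ℤ) • b t := by
        have hch : ∀ c ∈ T.ch t, y' c = (K' : ℤ) • y c - (∑ c ∈ lev, W c) c := by
          intro c hc
          have : ¬ T.dep c ≤ j := by rw [T.dep_ch hc]; omega
          simp only [y']
          rw [if_neg this]
        have hS1 : ∑ c ∈ T.ch t, act (r c) (y' c) = (K' : ℤ) • ∑ c ∈ T.ch t, act (r c) (y c)
            - ∑ c ∈ T.ch t, act (r c) ((∑ c ∈ lev, W c) c) := by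
          rw [smul_sum, ← sum_sub_distrib]
          refine sum_congr rfl fun c hc => ?_
          rw [hch c hc, map_sub, map_zsmul]
        rw [hS1]
        by_cases htj : T.dep t ≤ j
        · have htj' : T.dep t = j := le_antisymm htj ht
          have e1 : y' t = z t := by simp only [y']; rw [if_pos htj]
          have e2 : ∑ c ∈ T.ch t, act (r c) ((∑ c ∈ lev, W c) c)
              = ∑ c ∈ T.ch t, act (r c) (lam t c) := by
            refine sum_congr rfl fun c hc => ?_
            rw [hWsum c (by rw [T.dep_ch hc, htj'])]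
            rw [(T.mem_ch.1 hc).2]
          have h1 := hzl t htj'
          simp only [v, smul_add] at h1
          rw [e1, e2]
          have e3 : ((K' * K : ℕ) : ℤ) • b t = (K' : ℤ) • (K : ℤ) • b t := by
            rw [Nat.cast_mul, mul_smul]
          rw [e3]
          have h2 : (K' : ℤ) • (K : ℤ) • b t = act (P t) (z t) +
              ∑ c ∈ T.ch t, act (r c) (lam t c) - (K' : ℤ) • ∑ c ∈ T.ch t, act (r c) (y c) := by
            rw [← h1]; abel
          rw [h2]; abel
        · have e1 : y' t = (K' : ℤ) • y t - (∑ c ∈ lev, W c) t := by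
            simp only [y']; rw [if_neg htj]
          have h1 := hyrow t (by omega)
          have h2 := hWhom t (by omega)
          rw [e1, map_sub, map_zsmul, h2]
          have e3 : ((K' * K : ℕ) : ℤ) • b t = (K' : ℤ) • (K : ℤ) • b t := by
            rw [Nat.cast_mul, mul_smul]
          rw [e3, ← h1, smul_sub]
          abel
      intro i
      have h4 := congrFun hgoal i
      simp only [Pi.sub_apply, Finset.sum_apply, Pi.smul_apply, smul_eq_mul, act_apply] at h4
      simpa using h4
  obtain ⟨K, hK, h⟩ := main (H + 1)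
  refine ⟨K, hK, ?_⟩
  intro N _ _ T r P hr hP hH b x hx
  obtain ⟨y, hy⟩ := h N T r P hr hP hH b x hx
  exact ⟨y, fun t => hy t (by omega)⟩

end Pool.Agent.H47.FC
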