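import Pool.Agent.H47.FC.Small

set_option autoImplicit false

/-!
# Bounded elimination height: a bounded multiple of every integral point of the cone of even sets
is a sum of even sets
-/

namespace Pool.Agent.H47.FC

open Finset

/-- abstract nodes: a valid type together with an active slot -/
abbrev AT (m H : ℕ) : Type := {p : Ty m H × Fin m // p.1.Valid ∧ p.2 ∈ p.1.act}

noncomputable instance (m H : ℕ) : Fintype (AT m H) := Fintype.ofFinite _

section

variable {m H : ℕ}

/-- parent of an abstract node -/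
def paT (α : AT m H) : Option (AT m H) :=
  if h : (α.1.1.dep α.1.2 : ℕ) ≠ 0 then
    some ⟨(α.1.1, α.1.1.par α.1.2), α.2.1, (α.2.1.toValid0.v1 _ α.2.2 h).1⟩
  else none

/-- depth of an abstract node -/
def dT (α : AT m H) : ℕ := α.1.1.dep α.1.2

lemma paT_eq {α β : AT m H} (h : paT α = some β) : dT α ≠ 0 ∧ β.1.1 = α.1.1 ∧
    β.1.2 = α.1.1.par α.1.2 := by
  unfold paT at h
  split_ifs at h with h1
  rw [Option.some.injEq] at h
  subst h
  exact ⟨h1, rfl, rfl⟩

lemma paT_dT {α β : AT m H} (h : paT α = some β) : dT α = dT β + 1 := by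
  obtain ⟨h1, h2, h3⟩ := paT_eq h
  unfold dT at *
  rw [h2, h3]
  exact ((α.2.1.toValid0.v1 _ α.2.2 h1).2).symm

lemma paT_none {α : AT m H} : paT α = none ↔ dT α = 0 := by
  unfold paT dT
  split_ifs with h
  · simp [h]
  · simpa using h

lemma AT_ext {α β : AT m H} (h1 : α.1.1 = β.1.1) (h2 : α.1.2 = β.1.2) : α = β :=
  Subtype.ext (Prod.ext h1 h2)

variable {N : Type} [Fintype N] [DecidableEq N]

/-- compatibility -/
def CompT (T : RT N) (Lf : N → Prop) (up : N → ℕ) (n : N) (α : AT m H) : Prop :=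
  T.dep n = dT α ∧ (α.1.1.lab α.1.2).map Fin.val = label Lf up n

variable {T : RT N} {Lf : N → Prop} {up : N → ℕ}

open Classical in
/-- the solution given by one placement -/
lemma solPl {θ : Ty m H} {φ : Fin m → N} (hv : θ.Valid) (h : Pl T Lf up θ φ) :
    Sol T (paT (m := m) (H := H)) (CompT T Lf up) Lf (fun e => if e ∈ plD θ φ then 1 else 0)
      (fun n α => if α.1.1 = θ ∧ φ α.1.2 = n then 1 else 0) := by
  refine ⟨?_, ?_, ?_, ?_, ?_⟩
  · intro n α
    split_ifs <;> norm_num
  · intro n α hn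
    rw [if_neg]
    rintro ⟨rfl, rfl⟩
    exact hn ⟨h.p1 _ α.2.2, h.p2 _ α.2.2⟩
  · intro t α' α hp
    obtain ⟨h1, h2, h3⟩ := paT_eq hp
    by_cases hθ : α'.1.1 = θ
    · have hθ' : α.1.1 = θ := by rw [h2, hθ]
      have hact : α'.1.2 ∈ θ.act := by rw [← hθ]; exact α'.2.2
      have hd : (θ.dep α'.1.2 : ℕ) ≠ 0 := by rw [← hθ]; exact h1
      have hpar : T.par (φ α'.1.2) = φ α.1.2 := by
        rw [h3, hθ]; exact h.p3 _ hact hd
      have hr : φ α'.1.2 ≠ T.root := by
        intro hh
        have := h.p1 _ hact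
        rw [hh, T.dep_root] at this
        exact hd this.symm
      simp only [hθ, hθ', true_and]
      rw [sum_ite_eq]
      by_cases ht : φ α.1.2 = t
      · rw [if_pos ht, if_pos]
        rw [RT.mem_ch]
        exact ⟨hr, by rw [hpar, ht]⟩
      · rw [if_neg ht, if_neg]
        rw [RT.mem_ch]
        rintro ⟨-, h5⟩
        exact ht (by rw [← hpar, h5])
    · have hθ' : ¬ α.1.1 = θ := by rw [h2]; exact hθ
      simp [hθ, hθ']
  · intro c hc α
    by_cases hex : ∃ α' ∈ chA (paT (m := m) (H := H)) α, α'.1.1 = θ ∧ φ α'.1.2 = c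
    · obtain ⟨α', hα', hθ, hφ⟩ := hex
      rw [mem_chA] at hα'
      obtain ⟨h1, h2, h3⟩ := paT_eq hα'
      have hact : α'.1.2 ∈ θ.act := by rw [← hθ]; exact α'.2.2
      have hd : (θ.dep α'.1.2 : ℕ) ≠ 0 := by rw [← hθ]; exact h1
      have hpar : T.par c = φ α.1.2 := by
        rw [← hφ, h3, hθ]; exact h.p3 _ hact hd
      have hRHS : (if α.1.1 = θ ∧ φ α.1.2 = T.par c then (1 : ℚ) else 0) = 1 :=
        if_pos ⟨by rw [h2, hθ], hpar.symm⟩
      rw [hRHS, sum_eq_single α']
      · split_ifs <;> norm_num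
      · intro β hβ hne
        rw [if_neg]
        rintro ⟨h4, h5⟩
        apply hne
        apply AT_ext (h4.trans hθ.symm)
        apply h.p4
        · rw [mem_coe, ← h4]; exact β.2.2
        · exact hact
        · rw [h5, hφ]
      · intro hn
        exact absurd (mem_chA.2 hα') hn
    · push Not at hex
      have hz : ∑ α' ∈ chA (paT (m := m) (H := H)) α,
          (if α'.1.1 = θ ∧ φ α'.1.2 = c then (1 : ℚ) else 0) = 0 := by
        apply sum_eq_zero
        intro α' hα'
        rw [if_neg]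
        rintro ⟨h1, h2⟩
        exact hex α' hα' h1 h2
      rw [hz]
      split_ifs <;> norm_num
  · intro e he
    by_cases hmem : e ∈ plD θ φ
    · rw [if_pos hmem]
      obtain ⟨i, hi, hie⟩ := mem_image.1 hmem
      have hact : i ∈ θ.act := (mem_filter.1 hi).1
      rw [sum_eq_single (⟨(θ, i), hv, hact⟩ : AT m H)]
      · rw [if_pos ⟨rfl, hie⟩]
      · intro β _ hne
        rw [if_neg]
        rintro ⟨h4, h5⟩
        apply hne
        apply AT_ext h4
        apply h.p4
        · rw [mem_coe, ← h4]; exact β.2.2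
        · exact hact
        · rw [h5, hie]
      · intro hn
        exact absurd (mem_univ _) hn
    · rw [if_neg hmem]
      apply sum_eq_zero
      intro α _
      rw [if_neg]
      rintro ⟨h1, h2⟩
      apply hmem
      have hact : α.1.2 ∈ θ.act := by rw [← h1]; exact α.2.2
      unfold plD
      rw [mem_image]
      refine ⟨α.1.2, ?_, h2⟩
      rw [Ty.edg, mem_filter]
      refine ⟨hact, ?_⟩
      intro hnone
      have h3 := h.p2 _ hact
      rw [hnone, h2] at h3
      unfold label at h3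
      rw [if_pos he] at h3
      simp at h3

lemma Sol.zero (T : RT N) (pa : AT m H → Option (AT m H)) (Comp : N → AT m H → Prop)
    (Lf : N → Prop) : Sol T pa Comp Lf (fun _ => 0) (fun _ _ => 0) := by
  refine ⟨fun _ _ => le_rfl, fun _ _ _ => rfl, fun _ _ _ _ => by simp, fun _ _ _ => by simp,
    fun _ _ => by simp⟩

lemma Sol.add {pa : AT m H → Option (AT m H)} {Comp : N → AT m H → Prop} {u u' : N → ℚ}
    {x x' : N → AT m H → ℚ} (h : Sol T pa Comp Lf u x) (h' : Sol T pa Comp Lf u' x') :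
    Sol T pa Comp Lf (fun n => u n + u' n) (fun n α => x n α + x' n α) := by
  refine ⟨?_, ?_, ?_, ?_, ?_⟩
  · intro n α; exact add_nonneg (h.nonneg n α) (h'.nonneg n α)
  · intro n α hn; rw [h.comp n α hn, h'.comp n α hn, add_zero]
  · intro t α' α hp; rw [sum_add_distrib, h.child t α' α hp, h'.child t α' α hp]
  · intro c hc α; rw [sum_add_distrib]; exact add_le_add (h.sib c hc α) (h'.sib c hc α)
  · intro e he; rw [sum_add_distrib, h.leaf e he, h'.leaf e he]

lemma Sol.smul {pa : AT m H → Option (AT m H)} {Comp : N → AT m H → Prop} {u : N → ℚ}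
    {x : N → AT m H → ℚ} (q : ℚ) (hq : 0 ≤ q) (h : Sol T pa Comp Lf u x) :
    Sol T pa Comp Lf (fun n => q * u n) (fun n α => q * x n α) := by
  refine ⟨?_, ?_, ?_, ?_, ?_⟩
  · intro n α; exact mul_nonneg hq (h.nonneg n α)
  · intro n α hn; rw [h.comp n α hn, mul_zero]
  · intro t α' α hp; rw [← mul_sum, h.child t α' α hp]
  · intro c hc α; rw [← mul_sum]; exact mul_le_mul_of_nonneg_left (h.sib c hc α) hq
  · intro e he; rw [← mul_sum, h.leaf e he]

lemma Sol.congr {pa : AT m H → Option (AT m H)} {Comp : N → AT m H → Prop} {u u' : N → ℚ}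
    {x : N → AT m H → ℚ} (h : Sol T pa Comp Lf u x) (hu : ∀ e, Lf e → u e = u' e) :
    Sol T pa Comp Lf u' x :=
  ⟨h.nonneg, h.comp, h.child, h.sib, fun e he => by rw [h.leaf e he, hu e he]⟩

lemma Sol.sum {pa : AT m H → Option (AT m H)} {Comp : N → AT m H → Prop} {J : Type}
    (s : Finset J) (u : J → N → ℚ) (hu : ∀ j ∈ s, ∃ x, Sol T pa Comp Lf (u j) x) :
    ∃ x, Sol T pa Comp Lf (fun n => ∑ j ∈ s, u j n) x := by
  classical
  induction s using Finset.induction_on with
  | empty => exact ⟨_, by simpa using Sol.zero T pa Comp Lf⟩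
  | insert a s ha ih =>
    obtain ⟨x, hx⟩ := hu a (mem_insert_self a s)
    obtain ⟨x', hx'⟩ := ih fun j hj => hu j (mem_insert_of_mem hj)
    refine ⟨_, (hx.add hx').congr fun e _ => ?_⟩
    rw [sum_insert ha]

open Classical in
/-- every even set gives a rational solution of the placement system -/
lemma exists_sol_of_even (hH : ∀ n, T.dep n ≤ H)
    (hleaf : ∀ c, c ≠ T.root → ¬ Lf (T.par c)) (hup : ∀ e, Lf e → up e < T.dep e)
    (k : ℕ) : ∀ F : Finset N, F.card = k → EvenT T Lf up F →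
    ∃ x, Sol T (paT (m := n0 H) (H := H)) (CompT T Lf up) Lf (fun e => if e ∈ F then 1 else 0) x := by
  induction k using Nat.strong_induction_on with
  | _ k ih =>
    intro F hcard hF
    rcases F.eq_empty_or_nonempty with rfl | hne
    · exact ⟨_, (Sol.zero T _ _ Lf).congr fun e _ => by simp⟩
    · obtain ⟨F', hsub, hmin⟩ := exists_minEven T hF hne
      obtain ⟨θ, φ, hv, hpl, hD⟩ := exists_placement T (n0 := n0 H) (H := H) hH hleaf hup F' hmin.1
        hmin.2.1 (hmin.card_span T hup hH)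
      have h1 := solPl hv hpl
      rw [hD] at h1
      have hlt : (F \ F').card < k := by
        rw [← hcard]
        apply card_lt_card
        refine ⟨sdiff_subset, fun h => ?_⟩
        obtain ⟨e, he⟩ := hmin.2.1
        have := h (hsub he)
        exact (mem_sdiff.1 this).2 he
      obtain ⟨x, hx⟩ := ih _ hlt (F \ F') rfl (hF.sdiff T hmin.1 hsub)
      refine ⟨_, (h1.add hx).congr fun e _ => ?_⟩
      by_cases he : e ∈ F'
      · have h2 : e ∈ F := hsub he
        simp [he, h2]
      · by_cases he' : e ∈ F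
        · simp [he, he']
        · simp [he, he']

end

/-- descendants stay in the type -/
lemma desc_type {m H : ℕ} {α0 α : AT m H} (h : Desc paT α0 α) : α.1.1 = α0.1.1 := by
  induction h with
  | base => rfl
  | step α β h1 _ ih =>
    rw [← ih]
    exact (paT_eq h1).2.1.symm

/-- all active slots descend from the root slot -/
lemma desc_all {m H : ℕ} {α0 : AT m H} (h0 : dT α0 = 0) (d : ℕ) : ∀ α : AT m H, dT α = d →
    α.1.1 = α0.1.1 → Desc paT α0 α := by
  induction d with
  | zero =>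
    intro α hd hθ
    have : α = α0 := by
      apply AT_ext hθ
      apply α0.2.1.toValid0.v2
      · rw [← hθ]; exact α.2.2
      · exact α0.2.2
      · unfold dT at hd; rw [← hθ]; exact hd
      · exact h0
    rw [this]
    exact Desc.base
  | succ d ih =>
    intro α hd hθ
    rcases hp : paT α with _ | β
    · rw [paT_none] at hp
      omega
    · have h1 := paT_dT hp
      exact Desc.step α β hp (ih β (by omega) (by rw [(paT_eq hp).2.1, hθ]))

/-- **Theorem T.** Elimination height `≤ H`: `K(H)` times any integral point of the cone of even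
sets is a sum of even sets. -/
theorem even_cover (H : ℕ) : ∃ K : ℕ, 0 < K ∧ ∀ (N : Type) [Fintype N] [DecidableEq N] (T : RT N)
    (Lf : N → Prop) (up : N → ℕ), (∀ n, T.dep n ≤ H) → (∀ c, c ≠ T.root → ¬ Lf (T.par c)) →
    (∀ e, Lf e → up e < T.dep e) → ∀ (u : N → ℕ) (lam : Finset N → ℚ),
    (∀ F, 0 ≤ lam F) → (∀ F, ¬ EvenT T Lf up F → lam F = 0) →
    (∀ e, Lf e → (u e : ℚ) = ∑ F : Finset N, if e ∈ F then lam F else 0) →
    ∃ (J : Type) (_ : Fintype J) (D : J → Finset N), (∀ j, EvenT T Lf up (D j)) ∧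
      ∀ e, Lf e → (univ.filter (fun j => e ∈ D j)).card = K * u e := by
  classical
  obtain ⟨K, hK, hmain⟩ := exists_integral (paT (m := n0 H) (H := H)) H
  refine ⟨K, hK, ?_⟩
  intro N _ _ T Lf up hH hleaf hup u lam hlam0 hlamE hu
  -- rational solution
  have hrat : ∃ x, Sol T (paT (m := n0 H) (H := H)) (CompT T Lf up) Lf
      (fun e => ((u e : ℤ) : ℚ)) x := by
    obtain ⟨x, hx⟩ := Sol.sum (T := T) (Lf := Lf) (pa := paT (m := n0 H) (H := H))
      (Comp := CompT T Lf up) (univ : Finset (Finset N))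
      (fun F e => lam F * if e ∈ F then 1 else 0) (by
        intro F _
        by_cases hF : EvenT T Lf up F
        · obtain ⟨x, hx⟩ := exists_sol_of_even (T := T) (Lf := Lf) (up := up) hH hleaf hup _ F rfl hF
          exact ⟨_, hx.smul (lam F) (hlam0 F)⟩
        · exact ⟨_, (Sol.zero T _ _ Lf).congr fun e _ => by rw [hlamE F hF]; simp⟩)
    refine ⟨x, hx.congr fun e he => ?_⟩
    rw [Int.cast_natCast, hu e he]
    refine sum_congr rfl fun F _ => ?_
    split_ifs <;> simp
  obtain ⟨x, hx⟩ := hrat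
  obtain ⟨y, hy⟩ := hmain N T hH (CompT T Lf up) Lf (fun e => (u e : ℤ)) x hx
  -- natural solution
  let z : N → AT (n0 H) H → ℕ := fun n α => (y n α).toNat
  have hyz : ∀ n α, (z n α : ℤ) = y n α := by
    intro n α
    apply Int.toNat_of_nonneg
    exact_mod_cast hy.nonneg n α
  have hzq : ∀ n α, (z n α : ℚ) = ((y n α : ℤ) : ℚ) := by
    intro n α
    rw [← hyz n α]; simp
  have hzcomp : ∀ n α, ¬ CompT T Lf up n α → z n α = 0 := by
    intro n α h
    have h1 := hy.comp n α h
    rw [← hzq] at h1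
    exact_mod_cast h1
  have hz1 : ∀ t α' α, paT α' = some α → ∑ c ∈ T.ch t, z c α' = z t α := by
    intro t α' α hp
    have h1 := hy.child t α' α hp
    simp only [← hzq] at h1
    exact_mod_cast h1
  have hz2 : ∀ c, c ≠ T.root → ∀ α, ∑ α' ∈ chA paT α, z c α' ≤ z (T.par c) α := by
    intro c hc α
    have h1 := hy.sib c hc α
    simp only [← hzq] at h1
    exact_mod_cast h1
  have hz3 : ∀ e, Lf e → ∑ α, z e α = K * u e := by
    intro e he
    have h1 := hy.leaf e he
    simp only [← hzq] at h1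
    exact_mod_cast h1
  have hzroot : ∀ α β : AT (n0 H) H, paT α = some β → z T.root α = 0 := by
    intro α β h
    apply hzcomp
    rintro ⟨h1, -⟩
    rw [T.dep_root] at h1
    exact (paT_eq h).1 h1.symm
  -- placements for all roots
  have hpl : ∀ α0 : AT (n0 H) H, dT α0 = 0 → ∃ φ : Fin (z T.root α0) → AT (n0 H) H → N,
      Placed T paT dT z α0 (z T.root α0) H φ := by
    intro α0 h0
    apply exists_placed T paT dT z (fun α β h => paT_dT h) hz1 hz2 hzroot α0 h0
    intro n hn
    apply hzcomp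
    rintro ⟨h1, -⟩
    rw [h0] at h1
    exact hn (T.eq_root n h1)
  haveI : Nonempty N := ⟨T.root⟩
  choose! φ hφ using hpl
  let R : Type := {α0 : AT (n0 H) H // dT α0 = 0}
  haveI : Fintype R := Fintype.ofFinite _
  let J : Type := Σ α0 : R, Fin (z T.root α0.1)
  let ψ : J → Fin (n0 H) → N := fun j i =>
    if h : i ∈ j.1.1.1.1.act then φ j.1.1 j.2 ⟨(j.1.1.1.1, i), j.1.1.2.1, h⟩ else T.root
  have hdTH : ∀ α : AT (n0 H) H, dT α ≤ H := fun α => Nat.lt_succ_iff.1 (α.1.1.dep α.1.2).2
  have hdesc : ∀ (j : J) (i : Fin (n0 H)) (hi : i ∈ j.1.1.1.1.act),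
      Desc paT j.1.1 (⟨(j.1.1.1.1, i), j.1.1.2.1, hi⟩ : AT (n0 H) H) := by
    intro j i hi
    exact desc_all j.1.2 _ _ rfl rfl
  have hψ : ∀ (j : J) (i : Fin (n0 H)) (hi : i ∈ j.1.1.1.1.act),
      ψ j i = φ j.1.1 j.2 ⟨(j.1.1.1.1, i), j.1.1.2.1, hi⟩ := by
    intro j i hi
    simp only [ψ, hi, dif_pos]
  -- each image node is compatible
  have hcompat : ∀ (j : J) (i : Fin (n0 H)) (hi : i ∈ j.1.1.1.1.act),
      CompT T Lf up (ψ j i) (⟨(j.1.1.1.1, i), j.1.1.2.1, hi⟩ : AT (n0 H) H) := by
    intro j i hi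
    by_contra hcon
    have h1 := hzcomp _ _ hcon
    have h2 := (hφ j.1.1 j.1.2).1 _ (hdesc j i hi) (hdTH _) (ψ j i)
    rw [h1, card_eq_zero, filter_eq_empty_iff] at h2
    exact h2 (mem_univ j.2) (hψ j i hi).symm
  have hPl : ∀ j : J, Pl T Lf up j.1.1.1.1 (ψ j) := by
    intro j
    have hp3 : ∀ i ∈ j.1.1.1.1.act, (j.1.1.1.1.dep i : ℕ) ≠ 0 →
        ψ j i ≠ T.root ∧ T.par (ψ j i) = ψ j (j.1.1.1.1.par i) := by
      intro i hi hd
      have hpi := (j.1.1.2.1.toValid0.v1 i hi hd).1
      have hpa : paT (⟨(j.1.1.1.1, i), j.1.1.2.1, hi⟩ : AT (n0 H) H)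
          = some ⟨(j.1.1.1.1, j.1.1.1.1.par i), j.1.1.2.1, hpi⟩ := by
        unfold paT
        rw [dif_pos hd]
      have h1 := (hφ j.1.1 j.1.2).2.1 _ _ hpa (hdesc j _ hpi) (hdTH _) j.2
      rw [hψ j i hi, hψ j _ hpi]
      exact h1
    refine ⟨fun i hi => (hcompat j i hi).1, fun i hi => (hcompat j i hi).2,
      fun i hi hd => (hp3 i hi hd).2, ?_⟩
    -- injectivity
    have hinj : ∀ d : ℕ, ∀ i ∈ j.1.1.1.1.act, ∀ i' ∈ j.1.1.1.1.act, (j.1.1.1.1.dep i : ℕ) = d →
        ψ j i = ψ j i' → i = i' := by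
      intro d
      induction d with
      | zero =>
        intro i hi i' hi' hd heq
        apply j.1.1.2.1.toValid0.v2 i hi i' hi' hd
        have h1 := (hcompat j i hi).1
        have h2 := (hcompat j i' hi').1
        unfold dT at h1 h2
        rw [heq] at h1
        simp only at h1 h2
        omega
      | succ d ih =>
        intro i hi i' hi' hd heq
        have hd' : (j.1.1.1.1.dep i' : ℕ) = d + 1 := by
          have h1 := (hcompat j i hi).1
          have h2 := (hcompat j i' hi').1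
          unfold dT at h1 h2
          rw [heq] at h1
          simp only at h1 h2
          omega
        have hdi : (j.1.1.1.1.dep i : ℕ) ≠ 0 := by omega
        have hdi' : (j.1.1.1.1.dep i' : ℕ) ≠ 0 := by omega
        obtain ⟨hpi, hdp⟩ := j.1.1.2.1.toValid0.v1 i hi hdi
        obtain ⟨hpi', hdp'⟩ := j.1.1.2.1.toValid0.v1 i' hi' hdi'
        have h3 := (hp3 i hi hdi).2
        have h4 := (hp3 i' hi' hdi').2
        have h5 : j.1.1.1.1.par i = j.1.1.1.1.par i' := by
          apply ih _ hpi _ hpi' (by omega)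
          rw [← h3, ← h4, heq]
        by_contra hne
        have hpa : paT (⟨(j.1.1.1.1, i), j.1.1.2.1, hi⟩ : AT (n0 H) H)
            = some ⟨(j.1.1.1.1, j.1.1.1.1.par i), j.1.1.2.1, hpi⟩ := by
          unfold paT
          rw [dif_pos hdi]
        have hpa' : paT (⟨(j.1.1.1.1, i'), j.1.1.2.1, hi'⟩ : AT (n0 H) H)
            = some ⟨(j.1.1.1.1, j.1.1.1.1.par i), j.1.1.2.1, hpi⟩ := by
          unfold paT
          rw [dif_pos hdi']
          congr 1
          exact AT_ext rfl h5.symm
        have h6 := (hφ j.1.1 j.1.2).2.2 _ _ _ hpa hpa' (hdesc j _ hpi) (hdTH _) (by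
          intro h7
          apply hne
          exact congrArg (fun a : AT (n0 H) H => a.1.2) h7) j.2
        apply h6
        rw [← hψ j i hi, ← hψ j i' hi']
        exact heq
    intro i hi i' hi' heq
    exact hinj _ i hi i' hi' rfl heq
  refine ⟨J, inferInstance, fun j => plD j.1.1.1.1 (ψ j), fun j => (hPl j).evenT j.1.1.2.1, ?_⟩
  intro e he
  rw [← hz3 e he]
  -- membership in the image, slot by slot
  have hmem : ∀ j : J, (if e ∈ plD j.1.1.1.1 (ψ j) then 1 else 0)
      = ∑ α : AT (n0 H) H, if α.1.1 = j.1.1.1.1 ∧ φ j.1.1 j.2 α = e then 1 else 0 := by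
    intro j
    have h1 := solPl (T := T) (Lf := Lf) (up := up) j.1.1.2.1 (hPl j)
    have h2 := h1.leaf e he
    have h3 : ∑ α : AT (n0 H) H, (if α.1.1 = j.1.1.1.1 ∧ φ j.1.1 j.2 α = e then (1 : ℕ) else 0)
        = ∑ α : AT (n0 H) H, (if α.1.1 = j.1.1.1.1 ∧ ψ j α.1.2 = e then (1 : ℕ) else 0) := by
      refine sum_congr rfl fun α _ => ?_
      by_cases hα : α.1.1 = j.1.1.1.1
      · have hact : α.1.2 ∈ j.1.1.1.1.act := by rw [← hα]; exact α.2.2
        have h4 : (⟨(j.1.1.1.1, α.1.2), j.1.1.2.1, hact⟩ : AT (n0 H) H) = α := AT_ext hα.symm rfl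
        rw [hψ j α.1.2 hact, h4]
      · rw [if_neg (fun h => hα h.1), if_neg (fun h => hα h.1)]
    rw [h3]
    exact_mod_cast h2.symm
  rw [card_filter, sum_congr rfl (fun j _ => hmem j), sum_comm]
  refine sum_congr rfl fun α _ => ?_
  -- the root slot of the type of `α`
  rw [Fintype.sum_sigma]
  by_cases hex : ∃ a0 : R, a0.1.1.1 = α.1.1
  · obtain ⟨a0, ha0⟩ := hex
    rw [sum_eq_single a0]
    · have h1 : ∀ m : Fin (z T.root a0.1),
          (if α.1.1 = a0.1.1.1 ∧ φ a0.1 m α = e then 1 else 0) = if φ a0.1 m α = e then 1 else 0 := by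
        intro m
        simp [ha0]
      rw [sum_congr rfl (fun m _ => h1 m), ← card_filter]
      exact (hφ a0.1 a0.2).1 α (desc_all a0.2 _ α rfl ha0.symm) (hdTH α) e
    · intro b _ hne
      apply sum_eq_zero
      intro m _
      rw [if_neg]
      rintro ⟨h1, -⟩
      apply hne
      apply Subtype.ext
      apply AT_ext (h1.symm.trans ha0.symm)
      apply b.1.2.1.toValid0.v2 _ b.1.2.2 _ _ b.2 _
      · rw [← h1, ← ha0]; exact a0.1.2.2
      · have h2 := a0.2
        unfold dT at h2
        rw [← h1, ← ha0]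
        exact h2
    · intro hn
      exact absurd (mem_univ _) hn
  · -- no root slot: then `α` cannot be placed
    push Not at hex
    have h1 : ∑ a0 : R, ∑ m : Fin (z T.root a0.1),
        (if α.1.1 = a0.1.1.1 ∧ φ a0.1 m α = e then 1 else 0) = 0 := by
      apply sum_eq_zero
      intro a0 _
      apply sum_eq_zero
      intro m _
      rw [if_neg]
      rintro ⟨h2, -⟩
      exact hex a0 h2.symm
    rw [h1]
    exfalso
    -- climb to the root of the type
    have hclimb : ∀ d : ℕ, ∀ β : AT (n0 H) H, dT β = d → β.1.1 = α.1.1 → False := by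
      intro d
      induction d with
      | zero =>
        intro β hd hβ
        exact hex ⟨β, hd⟩ hβ
      | succ d ih =>
        intro β hd hβ
        rcases hp : paT β with _ | γ
        · rw [paT_none] at hp
          omega
        · exact ih γ (by have := paT_dT hp; omega) (by rw [(paT_eq hp).2.1, hβ])
    exact hclimb _ α rfl rfl

end Pool.Agent.H47.FC
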