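import Pool.Agent.H47.FC.MainT
import Pool.Agent.H47.FC.Seymour

set_option autoImplicit false

/-!
# Multigraphs with an elimination forest of bounded height
-/

namespace Pool.Agent.H47.FC

open Finset

/-- admissible integer weights on a multigraph -/
def AdmN {V E : Type} [DecidableEq V] [Fintype E] (a b : E → V) (w : E → ℕ) : Prop :=
  ∀ (X : Finset V) (e : E), Crs a b X e → 2 * w e ≤ ∑ f ∈ univ.filter (fun f => Crs a b X f), w f

/-- `k` times any admissible weight is a sum of even sets -/
def Good (k : ℕ) {V E : Type} [DecidableEq V] [Fintype E] [DecidableEq E] (a b : E → V) : Prop :=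
  ∀ w : E → ℕ, AdmN a b w → ∃ (J : Type) (_ : Fintype J) (D : J → Finset E),
    (∀ j, EvenM a b (D j)) ∧ ∀ e, (univ.filter (fun j => e ∈ D j)).card = k * w e

/-- elimination forest with `h` levels of a multigraph -/
structure Elim {V E : Type} (a b : E → V) (h : ℕ) where
  par : V → V
  dep : V → ℕ
  dep_lt : ∀ v, dep v < h
  dep_par : ∀ v, dep v ≠ 0 → dep (par v) + 1 = dep v
  comp : ∀ e, a e ≠ b e → (dep (a e) < dep (b e) ∧ par^[dep (b e) - dep (a e)] (b e) = a e) ∨
    (dep (b e) < dep (a e) ∧ par^[dep (a e) - dep (b e)] (a e) = b e)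

section

variable {V E : Type} [DecidableEq V] [Fintype V] [Fintype E] [DecidableEq E] {a b : E → V} {h : ℕ}

namespace Elim

variable (L : Elim a b h)

def lo (e : E) : V := if L.dep (a e) < L.dep (b e) then b e else a e
def hi (e : E) : V := if L.dep (a e) < L.dep (b e) then a e else b e

omit [DecidableEq V] [Fintype V] [Fintype E] [DecidableEq E] in
lemma lohi (e : E) (he : a e ≠ b e) : L.dep (L.hi e) < L.dep (L.lo e) ∧
    L.par^[L.dep (L.lo e) - L.dep (L.hi e)] (L.lo e) = L.hi e := by
  unfold lo hi
  rcases L.comp e he with h1 | h1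
  · rw [if_pos h1.1, if_pos h1.1]; exact h1
  · rw [if_neg (by omega), if_neg (by omega)]; exact h1

omit [Fintype V] [Fintype E] [DecidableEq E] in
lemma dl_lohi (e : E) : dl (L.lo e) + dl (L.hi e) = dl (a e) + dl (b e) := by
  unfold lo hi
  split_ifs
  · rw [add_comm]
  · rfl

/-- the host tree -/
def tree : RT (Option (V ⊕ E)) where
  par n := match n with
    | none => none
    | some (Sum.inl v) => if L.dep v = 0 then none else some (Sum.inl (L.par v))
    | some (Sum.inr e) => some (Sum.inl (L.lo e))
  dep n := match n with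
    | none => 0
    | some (Sum.inl v) => L.dep v + 1
    | some (Sum.inr e) => L.dep (L.lo e) + 2
  root := none
  dep_root := rfl
  eq_root := by
    rintro (_ | (v | e)) h
    · rfl
    · simp at h
    · simp at h
  dep_par := by
    rintro (_ | (v | e)) h
    · exact absurd rfl h
    · simp only
      split_ifs with h0
      · simp [h0]
      · simp only
        have := L.dep_par v h0
        omega
    · rfl

/-- edge nodes -/
def lf (_L : Elim a b h) (n : Option (V ⊕ E)) : Prop := ∃ e, n = some (Sum.inr e) ∧ a e ≠ b e

/-- depth of the upper end -/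
def up (n : Option (V ⊕ E)) : ℕ := match n with
  | none => 0
  | some (Sum.inl _) => 0
  | some (Sum.inr e) => L.dep (L.hi e) + 1

omit [DecidableEq V] [Fintype V] [Fintype E] [DecidableEq E] in
lemma iter (v : V) (k : ℕ) : k ≤ L.dep v →
    (L.tree.par)^[k] (some (Sum.inl v)) = some (Sum.inl (L.par^[k] v)) ∧
    L.dep (L.par^[k] v) = L.dep v - k := by
  induction k with
  | zero => intro _; exact ⟨rfl, rfl⟩
  | succ k ih =>
    intro hk
    obtain ⟨h1, h2⟩ := ih (by omega)
    have h3 : L.dep (L.par^[k] v) ≠ 0 := by omega
    rw [Function.iterate_succ_apply', Function.iterate_succ_apply', h1]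
    refine ⟨?_, ?_⟩
    · show (if L.dep (L.par^[k] v) = 0 then none else some (Sum.inl (L.par (L.par^[k] v)))) = _
      rw [if_neg h3]
    · have := L.dep_par _ h3
      omega

omit [DecidableEq V] [Fintype V] [Fintype E] [DecidableEq E] in
lemma anc_hi (e : E) (he : a e ≠ b e) :
    ancAt L.tree (L.up (some (Sum.inr e))) (some (Sum.inr e)) = some (Sum.inl (L.hi e)) := by
  obtain ⟨h1, h2⟩ := L.lohi e he
  unfold ancAt
  have h3 : L.tree.dep (some (Sum.inr e)) - L.up (some (Sum.inr e))
      = (L.dep (L.lo e) - L.dep (L.hi e)) + 1 := by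
    show L.dep (L.lo e) + 2 - (L.dep (L.hi e) + 1) = _
    omega
  rw [h3, Function.iterate_succ_apply]
  show (L.tree.par)^[L.dep (L.lo e) - L.dep (L.hi e)] (some (Sum.inl (L.lo e))) = _
  rw [(L.iter (L.lo e) _ (Nat.sub_le _ _)).1, h2]

/-- node set of an edge set -/
def nodes (F : Finset E) : Finset (Option (V ⊕ E)) :=
  (F.filter (fun e => a e ≠ b e)).image (fun e => some (Sum.inr e))

omit [Fintype V] [Fintype E] in
lemma mem_nodes (F : Finset E) (e : E) :
    (some (Sum.inr e) : Option (V ⊕ E)) ∈ nodes (a := a) (b := b) F ↔ e ∈ F ∧ a e ≠ b e := by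
  unfold nodes
  rw [mem_image]
  constructor
  · rintro ⟨f, hf, hfe⟩
    have : f = e := by simpa using hfe
    subst this
    exact mem_filter.1 hf
  · intro h1
    exact ⟨e, mem_filter.2 h1, rfl⟩

/-- parity of the tree degree -/
lemma degT_cast (D : Finset (Option (V ⊕ E))) (hD : ∀ n ∈ D, L.lf n) (v : V) :
    ((degT L.tree L.up D (some (Sum.inl v)) : ℕ) : ZMod 2)
      = bd a b (univ.filter (fun e => (some (Sum.inr e) : Option (V ⊕ E)) ∈ D)) v := by
  classical
  set F := univ.filter (fun e => (some (Sum.inr e) : Option (V ⊕ E)) ∈ D) with hF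
  have hDF : D = F.image (fun e => (some (Sum.inr e) : Option (V ⊕ E))) := by
    ext n
    rw [mem_image]
    constructor
    · intro hn
      obtain ⟨e, rfl, _⟩ := hD n hn
      exact ⟨e, by simp [hF, hn], rfl⟩
    · rintro ⟨e, he, rfl⟩
      simpa [hF] using he
  have hinj : Function.Injective (fun e : E => (some (Sum.inr e) : Option (V ⊕ E))) := by
    intro e f h
    simpa using h
  have hnl : ∀ e ∈ F, a e ≠ b e := by
    intro e he
    have h1 : (some (Sum.inr e) : Option (V ⊕ E)) ∈ D := by simpa [hF] using he
    obtain ⟨f, hf, hne⟩ := hD _ h1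
    have : e = f := by simpa using hf
    rw [this]; exact hne
  have h1 : (D.filter (fun e => L.tree.par e = some (Sum.inl v))).card
      = (F.filter (fun e => L.lo e = v)).card := by
    rw [hDF, filter_image, card_image_of_injective _ hinj]
    congr 1
    apply filter_congr
    intro e _
    show (some (Sum.inl (L.lo e)) : Option (V ⊕ E)) = some (Sum.inl v) ↔ L.lo e = v
    simp
  have h2 : (D.filter (fun e => ancAt L.tree (L.up e) e = some (Sum.inl v))).card
      = (F.filter (fun e => L.hi e = v)).card := by
    rw [hDF, filter_image, card_image_of_injective _ hinj]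
    congr 1
    apply filter_congr
    intro e he
    rw [L.anc_hi e (hnl e he)]
    simp
  unfold degT
  rw [h1, h2]
  have h3 : bd a b F v = ∑ e ∈ F, ((if L.lo e = v then 1 else 0) + (if L.hi e = v then 1 else 0)) := by
    unfold bd
    rw [Finset.sum_apply]
    refine sum_congr rfl fun e _ => ?_
    have h4 := congrFun (L.dl_lohi e) v
    rw [← h4]
    simp only [Pi.add_apply, dl]
    congr 1
    · simp only [eq_comm]
    · simp only [eq_comm]
  rw [h3, sum_add_distrib, ← natCast_card_filter, ← natCast_card_filter]
  push_cast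
  rfl

/-- tree-even sets are even -/
lemma evenM_of_evenT (D : Finset (Option (V ⊕ E))) (hD : EvenT L.tree L.lf L.up D) :
    EvenM a b (univ.filter (fun e => (some (Sum.inr e) : Option (V ⊕ E)) ∈ D)) := by
  unfold EvenM
  ext v
  rw [← L.degT_cast D hD.1 v]
  have h1 := hD.2 (some (Sum.inl v))
  rw [even_iff_two_dvd] at h1
  exact (ZMod.natCast_eq_zero_iff _ _).2 h1

/-- even sets are tree-even -/
lemma evenT_of_evenM (F : Finset E) (hF : EvenM a b F) :
    EvenT L.tree L.lf L.up (nodes (a := a) (b := b) F) := by
  classical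
  have hlf : ∀ n ∈ nodes (a := a) (b := b) F, L.lf n := by
    intro n hn
    obtain ⟨e, he, rfl⟩ := mem_image.1 hn
    exact ⟨e, rfl, (mem_filter.1 he).2⟩
  refine ⟨hlf, ?_⟩
  rintro (_ | (v | f))
  · have h1 : degT L.tree L.up (nodes (a := a) (b := b) F) none = 0 := by
      unfold degT
      rw [Nat.add_eq_zero_iff, card_eq_zero, card_eq_zero, filter_eq_empty_iff, filter_eq_empty_iff]
      constructor
      · intro n hn h2
        obtain ⟨e, rfl, he⟩ := hlf n hn
        have : (some (Sum.inl (L.lo e)) : Option (V ⊕ E)) = none := h2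
        simp at this
      · intro n hn h2
        obtain ⟨e, rfl, he⟩ := hlf n hn
        rw [L.anc_hi e he] at h2
        simp at h2
    rw [h1]; exact Even.zero
  · have h1 := L.degT_cast _ hlf v
    have h2 : bd a b (univ.filter (fun e => (some (Sum.inr e) : Option (V ⊕ E)) ∈
        nodes (a := a) (b := b) F)) = bd a b F := by
      have h3 : univ.filter (fun e => (some (Sum.inr e) : Option (V ⊕ E)) ∈
          nodes (a := a) (b := b) F) = F.filter (fun e => a e ≠ b e) := by
        ext e
        simp only [mem_filter, mem_univ, true_and, mem_nodes]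
      rw [h3]
      unfold bd
      apply sum_subset (filter_subset _ _)
      intro e he hnot
      have : a e = b e := by
        by_contra hne
        exact hnot (mem_filter.2 ⟨he, hne⟩)
      rw [this, add_self2]
    rw [h2, hF] at h1
    rw [even_iff_two_dvd]
    exact (ZMod.natCast_eq_zero_iff _ _).1 h1
  · have h1 : degT L.tree L.up (nodes (a := a) (b := b) F) (some (Sum.inr f)) = 0 := by
      unfold degT
      rw [Nat.add_eq_zero_iff, card_eq_zero, card_eq_zero, filter_eq_empty_iff, filter_eq_empty_iff]
      constructor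
      · intro n hn h2
        obtain ⟨e, rfl, he⟩ := hlf n hn
        have : (some (Sum.inl (L.lo e)) : Option (V ⊕ E)) = some (Sum.inr f) := h2
        simp at this
      · intro n hn h2
        obtain ⟨e, rfl, he⟩ := hlf n hn
        rw [L.anc_hi e he] at h2
        simp at h2
    rw [h1]; exact Even.zero

end Elim

end

/-- **Bounded elimination height.** -/
theorem good_of_elim (h : ℕ) : ∃ k : ℕ, 0 < k ∧ ∀ (V E : Type) [DecidableEq V] [Fintype V]
    [Fintype E] [DecidableEq E] (a b : E → V), Nonempty (Elim a b h) → Good k a b := by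
  classical
  obtain ⟨K, hK, hmain⟩ := even_cover (h + 1)
  refine ⟨K, hK, ?_⟩
  intro V E _ _ _ _ a b ⟨L⟩ w hw
  obtain ⟨lam, hlam0, hlamE, hlamw⟩ := seymour a b w hw
  let N : Type := Option (V ⊕ E)
  let wN : N → ℕ := fun n => match n with
    | some (Sum.inr e) => w e
    | _ => 0
  let lamN : Finset N → ℚ := fun D =>
    ∑ F : Finset E, if Elim.nodes (a := a) (b := b) F = D then lam F else 0
  obtain ⟨J, hJ, D, hD1, hD2⟩ := hmain N L.tree L.lf L.up
    (by
      rintro (_ | (v | e))
      · exact Nat.zero_le _
      · show L.dep v + 1 ≤ h + 1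
        have := L.dep_lt v
        omega
      · show L.dep (L.lo e) + 2 ≤ h + 1
        have := L.dep_lt (L.lo e)
        omega)
    (by
      rintro (_ | (v | e)) hc ⟨f, hf, -⟩
      · exact hc rfl
      · have hf' : (if L.dep v = 0 then none else some (Sum.inl (L.par v)) : Option (V ⊕ E))
            = some (Sum.inr f) := hf
        split_ifs at hf'
        · simp at hf'
      · have hf' : (some (Sum.inl (L.lo e)) : Option (V ⊕ E)) = some (Sum.inr f) := hf
        simp at hf')
    (by
      rintro n ⟨e, rfl, he⟩
      show L.dep (L.hi e) + 1 < L.dep (L.lo e) + 2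
      have := (L.lohi e he).1
      omega)
    wN lamN
    (by
      intro D
      apply sum_nonneg
      intro F _
      split_ifs
      · exact hlam0 F
      · exact le_rfl)
    (by
      intro D hD
      apply sum_eq_zero
      intro F _
      split_ifs with h1
      · apply hlamE
        intro hF
        apply hD
        rw [← h1]
        exact L.evenT_of_evenM F hF
      · rfl)
    (by
      rintro n ⟨e, rfl, he⟩
      show (w e : ℚ) = _
      rw [hlamw e]
      have h1 : ∀ D : Finset N, (if (some (Sum.inr e) : N) ∈ D then lamN D else 0)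
          = ∑ F : Finset E, if Elim.nodes (a := a) (b := b) F = D then
              (if (some (Sum.inr e) : N) ∈ D then lam F else 0) else 0 := by
        intro D
        split_ifs with h2
        · rfl
        · simp
      rw [sum_congr rfl (fun D _ => h1 D), sum_comm]
      refine sum_congr rfl fun F _ => ?_
      rw [sum_ite_eq]
      simp only [mem_univ, if_true]
      have h3 := Elim.mem_nodes (a := a) (b := b) F e
      by_cases heF : e ∈ F
      · rw [if_pos heF, if_pos (h3.2 ⟨heF, he⟩)]
      · rw [if_neg heF, if_neg (fun h4 => heF (h3.1 h4).1)])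
  -- add the loops
  let J' : Type := J ⊕ Σ e : {e : E // a e = b e}, Fin (K * w e.1)
  refine ⟨J', inferInstance, fun j => match j with
    | Sum.inl j => univ.filter (fun e => (some (Sum.inr e) : N) ∈ D j)
    | Sum.inr p => {p.1.1}, ?_, ?_⟩
  · rintro (j | p)
    · exact L.evenM_of_evenT (D j) (hD1 j)
    · unfold EvenM
      rw [bd_singleton, p.1.2, add_self2]
  · intro e
    rw [card_filter, Fintype.sum_sum_type, ← card_filter]
    by_cases he : a e = b e
    · have h1 : (univ.filter (fun j : J => e ∈ univ.filter
          (fun e => (some (Sum.inr e) : N) ∈ D j))).card = 0 := by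
        rw [card_eq_zero, filter_eq_empty_iff]
        intro j _ h2
        rw [mem_filter] at h2
        obtain ⟨f, hf, hne⟩ := (hD1 j).1 _ h2.2
        have : e = f := by simpa using hf
        subst this
        exact hne he
      rw [h1, zero_add, Fintype.sum_sigma, sum_eq_single ⟨e, he⟩]
      · simp
      · intro f _ hne
        apply sum_eq_zero
        intro m _
        rw [if_neg]
        rw [mem_singleton]
        intro h2
        exact hne (Subtype.ext h2.symm)
      · intro h2; exact absurd (mem_univ _) h2
    · have h1 : ∑ x : Σ e : {e : E // a e = b e}, Fin (K * w e.1),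
          (if e ∈ ({x.1.1} : Finset E) then 1 else 0) = 0 := by
        apply sum_eq_zero
        intro x _
        rw [if_neg]
        rw [mem_singleton]
        intro h2
        exact he (h2 ▸ x.1.2)
      rw [h1, add_zero]
      have h2 := hD2 (some (Sum.inr e)) ⟨e, rfl, he⟩
      rw [← h2]
      congr 1
      ext j
      simp

end Pool.Agent.H47.FC
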