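import Pool.Agent.H47.FC.Types

set_option autoImplicit false

/-!
# Minimal even sets span few nodes
-/

namespace Pool.Agent.H47.FC

open Finset

variable {N : Type} [Fintype N] [DecidableEq N] (T : RT N) {Lf : N → Prop} {up : N → ℕ}

lemma ancAt_ancAt {j k : ℕ} {e : N} (hjk : j ≤ k) (hk : k ≤ T.dep e) :
    ancAt T j (ancAt T k e) = ancAt T j e := by
  have h1 : T.dep (ancAt T k e) = k := dep_ancAt T hk
  unfold ancAt at *
  rw [h1, ← Function.iterate_add_apply]
  congr 1
  omega

lemma anc_ancAt {j : ℕ} {e : N} (hj : j ≤ T.dep e) : Anc T (ancAt T j e) e := by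
  have h := dep_ancAt T hj
  refine ⟨by omega, ?_⟩
  rw [h]

lemma Anc.trans {a b c : N} (h1 : Anc T a b) (h2 : Anc T b c) : Anc T a c := by
  refine ⟨h1.1.trans h2.1, ?_⟩
  rw [← ancAt_ancAt T h1.1 h2.1, h2.2, h1.2]

/-- two ancestors of the same node are comparable -/
lemma Anc.comp {a b e : N} (h1 : Anc T a e) (h2 : Anc T b e) (h : T.dep a ≤ T.dep b) :
    Anc T a b := by
  refine ⟨h, ?_⟩
  rw [← h2.2, ancAt_ancAt T h h2.1, h1.2]

lemma Anc.eq_of_dep {a b : N} (h : Anc T a b) (hd : T.dep b ≤ T.dep a) : a = b := by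
  have h1 : T.dep a = T.dep b := le_antisymm h.1 hd
  have h2 := h.2
  rw [h1, ancAt_self] at h2
  exact h2.symm

/-- incidence -/
lemma anc_of_inc (hup : ∀ e, Lf e → up e < T.dep e) {e n : N} (he : Lf e)
    (h : T.par e = n ∨ ancAt T (up e) e = n) : Anc T n e ∧ T.dep n < T.dep e := by
  have h0 := hup e he
  have hr : e ≠ T.root := by
    rintro rfl
    rw [T.dep_root] at h0
    omega
  rcases h with h | h
  · have h1 := T.dep_par e hr
    rw [← h]
    refine ⟨?_, by omega⟩
    exact (Anc.refl T e).par T hr
  · rw [← h]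
    refine ⟨anc_ancAt T h0.le, ?_⟩
    rw [dep_ancAt T h0.le]
    exact h0

lemma degT_union (D D' : Finset N) (h : Disjoint D D') (n : N) :
    degT T up (D ∪ D') n = degT T up D n + degT T up D' n := by
  unfold degT
  rw [filter_union, filter_union, card_union_of_disjoint, card_union_of_disjoint]
  · ring
  · exact disjoint_filter_filter h
  · exact disjoint_filter_filter h

lemma EvenT.sdiff {D D' : Finset N} (h : EvenT T Lf up D) (h' : EvenT T Lf up D') (hs : D' ⊆ D) :
    EvenT T Lf up (D \ D') := by
  refine ⟨fun e he => h.1 e (mem_sdiff.1 he).1, fun n => ?_⟩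
  have h1 := degT_union T (up := up) (D \ D') D' disjoint_sdiff.symm n
  rw [sdiff_union_of_subset hs] at h1
  have h2 := h.2 n
  have h3 := h'.2 n
  rw [h1] at h2
  exact (Nat.even_add.1 h2).2 h3

lemma evenT_empty : EvenT T Lf up (∅ : Finset N) :=
  ⟨fun e he => absurd he (notMem_empty e), fun n => by simp [degT]⟩

/-- minimal nonempty even sets -/
def MinEven (Lf : N → Prop) (up : N → ℕ) (F : Finset N) : Prop :=
  EvenT T Lf up F ∧ F.Nonempty ∧ ∀ F' ⊆ F, EvenT T Lf up F' → F'.Nonempty → F' = F

open Classical in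
/-- few children are used -/
lemma MinEven.card_children (hup : ∀ e, Lf e → up e < T.dep e) {H : ℕ} (hH : ∀ n, T.dep n ≤ H)
    {F : Finset N} (hF : MinEven T Lf up F) (t : N) :
    ((T.ch t).filter (fun c => c ∈ span T F)).card ≤ 2 ^ (H + 1) := by
  by_contra hcon
  push Not at hcon
  obtain ⟨hE, hne, hmin⟩ := hF
  let Fc : N → Finset N := fun c => F.filter (fun e => Anc T c e)
  let v : N → (Fin (H + 1) → ZMod 2) := fun c j => (degT T up (Fc c) (ancAt T j t) : ZMod 2)
  have hcardv : (univ : Finset (Fin (H + 1) → ZMod 2)).card = 2 ^ (H + 1) := by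
    rw [card_univ, Fintype.card_fun, Fintype.card_fin, ZMod.card]
  obtain ⟨c, hc, c', hc', hne', hv⟩ := Finset.exists_ne_map_eq_of_card_lt_of_maps_to
    (f := v) (by rw [hcardv]; exact hcon) (fun c _ => mem_coe.2 (mem_univ (v c)))
  rw [mem_filter] at hc hc'
  -- different children have disjoint parts
  have hdisj : ∀ a b, a ∈ T.ch t → b ∈ T.ch t → a ≠ b → Disjoint (Fc a) (Fc b) := by
    intro a b ha hb hab
    rw [Finset.disjoint_left]
    intro e he he'
    have h1 := (mem_filter.1 he).2
    have h2 := (mem_filter.1 he').2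
    have h3 : T.dep a = T.dep b := by rw [T.dep_ch ha, T.dep_ch hb]
    exact hab ((h1.comp T h2 h3.le).eq_of_dep T h3.ge)
  have hFcne : ∀ a, a ∈ span T F → (Fc a).Nonempty := by
    intro a ha
    obtain ⟨e, he, h1⟩ := (mem_span T).1 ha
    exact ⟨e, mem_filter.2 ⟨he, h1⟩⟩
  -- degrees away from the ancestors of `t`
  have hdeg : ∀ a ∈ T.ch t, ∀ n, ¬ Anc T n t →
      (degT T up (Fc a) n = degT T up F n ∨ degT T up (Fc a) n = 0) := by
    intro a ha n hn
    by_cases han : Anc T a n
    · left
      have h1 : ∀ e ∈ F, (T.par e = n ∨ ancAt T (up e) e = n) → e ∈ Fc a := by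
        intro e he hinc
        refine mem_filter.2 ⟨he, ?_⟩
        exact han.trans T (anc_of_inc T hup (hE.1 e he) hinc).1
      unfold degT
      congr 2
      · ext e
        simp only [mem_filter]
        constructor
        · rintro ⟨h2, h3⟩
          exact ⟨(mem_filter.1 h2).1, h3⟩
        · rintro ⟨h2, h3⟩
          exact ⟨h1 e h2 (Or.inl h3), h3⟩
      · ext e
        simp only [mem_filter]
        constructor
        · rintro ⟨h2, h3⟩
          exact ⟨(mem_filter.1 h2).1, h3⟩
        · rintro ⟨h2, h3⟩
          exact ⟨h1 e h2 (Or.inr h3), h3⟩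
    · right
      have h1 : ∀ e ∈ Fc a, ¬ (T.par e = n ∨ ancAt T (up e) e = n) := by
        intro e he hinc
        obtain ⟨h2, h3⟩ := mem_filter.1 he
        obtain ⟨h4, -⟩ := anc_of_inc T hup (hE.1 e h2) hinc
        rcases le_or_gt (T.dep a) (T.dep n) with h5 | h5
        · exact han (h3.comp T h4 h5)
        · apply hn
          -- `n` is a proper ancestor of `a`, hence an ancestor of `t`
          have h6 := T.dep_ch ha
          have h7 : Anc T t a := by
            have := (Anc.refl T a).par T (T.mem_ch.1 ha).1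
            rwa [(T.mem_ch.1 ha).2] at this
          exact h4.comp T (h7.trans T h3) (by omega)
      unfold degT
      have h2 : (Fc a).filter (fun e => T.par e = n) = ∅ := by
        rw [filter_eq_empty_iff]
        intro e he hh
        exact h1 e he (Or.inl hh)
      have h3 : (Fc a).filter (fun e => ancAt T (up e) e = n) = ∅ := by
        rw [filter_eq_empty_iff]
        intro e he hh
        exact h1 e he (Or.inr hh)
      rw [h2, h3]; rfl
  have hEc : EvenT T Lf up (Fc c ∪ Fc c') := by
    refine ⟨?_, ?_⟩
    · intro e he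
      rcases mem_union.1 he with h | h
      · exact hE.1 e (mem_filter.1 h).1
      · exact hE.1 e (mem_filter.1 h).1
    · intro n
      rw [degT_union T _ _ (hdisj c c' hc.1 hc'.1 hne')]
      by_cases hn : Anc T n t
      · have h1 := congrFun hv ⟨T.dep n, Nat.lt_succ_of_le (hH n)⟩
        simp only [v] at h1
        rw [hn.2] at h1
        have h2 : ((degT T up (Fc c) n + degT T up (Fc c') n : ℕ) : ZMod 2) = 0 := by
          rw [Nat.cast_add, h1]
          exact CharTwo.add_self_eq_zero _
        rw [ZMod.natCast_eq_zero_iff] at h2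
        exact even_iff_two_dvd.2 h2
      · have h1 : Even (degT T up (Fc c) n) := by
          rcases hdeg c hc.1 n hn with h | h
          · rw [h]; exact hE.2 n
          · rw [h]; exact Even.zero
        have h2 : Even (degT T up (Fc c') n) := by
          rcases hdeg c' hc'.1 n hn with h | h
          · rw [h]; exact hE.2 n
          · rw [h]; exact Even.zero
        exact h1.add h2
  have hFeq : Fc c ∪ Fc c' = F := by
    apply hmin _ _ hEc
    · obtain ⟨e, he⟩ := hFcne c hc.2
      exact ⟨e, mem_union_left _ he⟩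
    · exact union_subset (filter_subset _ _) (filter_subset _ _)
  -- a third child
  have h2 : 2 < ((T.ch t).filter (fun c => c ∈ span T F)).card := by
    have h3 : 2 ≤ 2 ^ (H + 1) := by
      rw [pow_succ]
      have : 1 ≤ 2 ^ H := Nat.one_le_two_pow
      omega
    omega
  obtain ⟨c'', hc'', h4, h5⟩ : ∃ c'' ∈ (T.ch t).filter (fun c => c ∈ span T F), c'' ≠ c ∧ c'' ≠ c' := by
    by_contra hno
    push Not at hno
    have h6 : (T.ch t).filter (fun c => c ∈ span T F) ⊆ {c, c'} := by
      intro a ha
      rw [mem_insert, mem_singleton]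
      by_cases hac : a = c
      · exact Or.inl hac
      · exact Or.inr (hno a ha hac)
    have h7 := card_le_card h6
    have h8 := card_le_two (a := c) (b := c')
    omega
  rw [mem_filter] at hc''
  obtain ⟨e, he⟩ := hFcne c'' hc''.2
  have heF : e ∈ F := (mem_filter.1 he).1
  rw [← hFeq, mem_union] at heF
  rcases heF with h | h
  · exact Finset.disjoint_left.1 (hdisj c'' c hc''.1 hc.1 h4) he h
  · exact Finset.disjoint_left.1 (hdisj c'' c' hc''.1 hc'.1 h5) he h

/-- bound for the span of minimal even sets -/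
def n0 (H : ℕ) : ℕ := (H + 1) * (2 ^ (H + 1)) ^ H

lemma MinEven.card_span (hup : ∀ e, Lf e → up e < T.dep e) {H : ℕ} (hH : ∀ n, T.dep n ≤ H)
    {F : Finset N} (hF : MinEven T Lf up F) : (span T F).card ≤ n0 H := by
  classical
  have hlev : ∀ j, ((span T F).filter (fun n => T.dep n = j)).card ≤ (2 ^ (H + 1)) ^ j := by
    intro j
    induction j with
    | zero =>
      rw [pow_zero, card_le_one]
      intro a ha b hb
      rw [mem_filter] at ha hb
      rw [T.eq_root a ha.2, T.eq_root b hb.2]
    | succ j ih =>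
      have h1 : ((span T F).filter (fun n => T.dep n = j + 1)).card
          ≤ 2 ^ (H + 1) * ((span T F).filter (fun n => T.dep n = j)).card := by
        apply card_le_mul_card_image_of_maps_to (f := T.par)
        · intro n hn
          rw [mem_filter] at hn ⊢
          have hnr : n ≠ T.root := by
            rintro rfl
            rw [T.dep_root] at hn
            omega
          obtain ⟨e, he, h2⟩ := (mem_span T).1 hn.1
          refine ⟨(mem_span T).2 ⟨e, he, h2.par T hnr⟩, ?_⟩
          have := T.dep_par n hnr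
          omega
        · intro t _
          refine (card_le_card ?_).trans (hF.card_children T hup hH t)
          intro n hn
          rw [mem_filter, mem_filter] at hn
          have hnr : n ≠ T.root := by
            rintro rfl
            rw [T.dep_root] at hn
            omega
          rw [mem_filter]
          exact ⟨T.mem_ch.2 ⟨hnr, hn.2⟩, hn.1.1⟩
      calc _ ≤ 2 ^ (H + 1) * ((span T F).filter (fun n => T.dep n = j)).card := h1
        _ ≤ 2 ^ (H + 1) * (2 ^ (H + 1)) ^ j := Nat.mul_le_mul_left _ ih
        _ = (2 ^ (H + 1)) ^ (j + 1) := (pow_succ' _ _).symm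
  have h1 : (span T F).card = ∑ j ∈ range (H + 1), ((span T F).filter (fun n => T.dep n = j)).card := by
    apply card_eq_sum_card_fiberwise
    intro n _
    rw [mem_coe, mem_range]
    exact Nat.lt_succ_of_le (hH n)
  rw [h1]
  calc _ ≤ ∑ j ∈ range (H + 1), (2 ^ (H + 1)) ^ H := by
        apply sum_le_sum
        intro j hj
        refine (hlev j).trans ?_
        apply Nat.pow_le_pow_right (Nat.pos_of_ne_zero (by positivity))
        rw [mem_range] at hj
        omega
    _ = n0 H := by rw [sum_const, card_range, smul_eq_mul]; rfl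

/-- every nonempty even set contains a minimal one -/
lemma exists_minEven {F : Finset N} (hF : EvenT T Lf up F) (hne : F.Nonempty) :
    ∃ F' ⊆ F, MinEven T Lf up F' := by
  classical
  have hfin : (univ.filter (fun F' : Finset N => F' ⊆ F ∧ EvenT T Lf up F' ∧ F'.Nonempty)).Nonempty :=
    ⟨F, by simp [hF, hne]⟩
  obtain ⟨F', hF', hmin⟩ := Finset.exists_min_image _ (fun F' : Finset N => F'.card) hfin
  rw [mem_filter] at hF'
  refine ⟨F', hF'.2.1, hF'.2.2.1, hF'.2.2.2, ?_⟩
  intro F'' h1 h2 h3
  apply eq_of_subset_of_card_le h1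
  exact hmin F'' (by rw [mem_filter]; exact ⟨mem_univ _, h1.trans hF'.2.1, h2, h3⟩)

end Pool.Agent.H47.FC
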