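import Pool.Agent.H47.FC.Lattice
import Pool.Agent.H47.FC.Basic

set_option autoImplicit false

/-!
# Placement systems: rational solvability implies integral solvability after a bounded multiple
-/

namespace Pool.Agent.H47.FC

open Finset

section

variable {N : Type} [Fintype N] [DecidableEq N] {A : Type} [Fintype A] [DecidableEq A]

/-- abstract children -/
def chA (pa : A → Option A) (α : A) : Finset A := univ.filter (fun α' => pa α' = some α)

lemma mem_chA {pa : A → Option A} {α α' : A} : α' ∈ chA pa α ↔ pa α' = some α := by simp [chA]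

/-- a solution of the placement system -/
structure Sol (T : RT N) (pa : A → Option A) (Comp : N → A → Prop) (Lf : N → Prop) (u : N → ℚ)
    (x : N → A → ℚ) : Prop where
  nonneg : ∀ n α, 0 ≤ x n α
  comp : ∀ n α, ¬ Comp n α → x n α = 0
  child : ∀ t α' α, pa α' = some α → ∑ c ∈ T.ch t, x c α' = x t α
  sib : ∀ c, c ≠ T.root → ∀ α, ∑ α' ∈ chA pa α, x c α' ≤ x (T.par c) α
  leaf : ∀ e, Lf e → ∑ α, x e α = u e

/-- enumerating a small finite set -/
lemma exists_enum {X : Type} [DecidableEq X] (s : Finset X) (n : ℕ) (h : s.card ≤ n) :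
    ∃ τ : Fin n → Option X, (∀ i p, τ i = some p → p ∈ s) ∧ ∀ p ∈ s, ∃ i, τ i = some p := by
  classical
  refine ⟨fun i => if hi : i.1 < s.card then some ((s.equivFin.symm ⟨i.1, hi⟩ : s) : X) else none,
    ?_, ?_⟩
  · intro i p hp
    by_cases hi : i.1 < s.card
    · simp only [hi, dif_pos, Option.some.injEq] at hp
      rw [← hp]
      exact (s.equivFin.symm ⟨i.1, hi⟩).2
    · simp only [hi, dif_neg, not_false_eq_true] at hp
      cases hp
  · intro p hp
    have hlt : (s.equivFin ⟨p, hp⟩).1 < s.card := (s.equivFin ⟨p, hp⟩).2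
    refine ⟨⟨(s.equivFin ⟨p, hp⟩).1, lt_of_lt_of_le hlt h⟩, ?_⟩
    simp only [hlt, dif_pos]
    simp

/-- sum of a family over a fixed set is controlled: the number of full columns -/
lemma card_full_le {C S : Type} [DecidableEq C] (ch : Finset C) (sl : Finset S) (v : C → S → ℚ)
    (q : ℚ) (hq : 0 < q) (hv : ∀ c ∈ ch, ∀ s ∈ sl, 0 ≤ v c s) (hrow : ∀ s ∈ sl, ∑ c ∈ ch, v c s = q)
    (F : Finset C) (hF : F ⊆ ch) (hfull : ∀ c ∈ F, ∑ s ∈ sl, v c s = q) : F.card ≤ sl.card := by
  have h1 : (F.card : ℚ) * q = ∑ c ∈ F, ∑ s ∈ sl, v c s := by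
    rw [sum_congr rfl hfull, sum_const, nsmul_eq_mul]
  have h2 : ∑ c ∈ F, ∑ s ∈ sl, v c s ≤ ∑ c ∈ ch, ∑ s ∈ sl, v c s :=
    sum_le_sum_of_subset_of_nonneg hF fun c hc _ => sum_nonneg fun s hs => hv c hc s hs
  have h3 : ∑ c ∈ ch, ∑ s ∈ sl, v c s = (sl.card : ℚ) * q := by
    rw [sum_comm, sum_congr rfl hrow, sum_const, nsmul_eq_mul]
  have h4 : (F.card : ℚ) * q ≤ (sl.card : ℚ) * q := by rw [h1, ← h3]; exact h2
  have h5 : (F.card : ℚ) ≤ (sl.card : ℚ) := le_of_mul_le_mul_right h4 hq
  exact_mod_cast h5

end

/-- 0/1 matrices -/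
def S01 (I A : Type) : Set (I → A → ℤ) :=
  Set.range (fun (f : I → A → Bool) => fun i α => if f i α then (1 : ℤ) else 0)

lemma S01_finite (I A : Type) [Finite I] [Finite A] : (S01 I A).Finite := Set.finite_range _

lemma mem_S01 {I A : Type} (p : I → A → Prop) [∀ i α, Decidable (p i α)] :
    (fun i α => if p i α then (1 : ℤ) else 0) ∈ S01 I A :=
  ⟨fun i α => decide (p i α), by ext i α; simp⟩

/-- **Integral placement theorem.** -/
theorem exists_integral {A : Type} [Fintype A] [DecidableEq A] (pa : A → Option A) (H : ℕ) :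
    ∃ K : ℕ, 0 < K ∧ ∀ (N : Type) [Fintype N] [DecidableEq N] (T : RT N),
      (∀ n, T.dep n ≤ H) → ∀ (Comp : N → A → Prop) (Lf : N → Prop) (u : N → ℤ) (x0 : N → A → ℚ),
      Sol T pa Comp Lf (fun n => (u n : ℚ)) x0 →
      ∃ y : N → A → ℤ, Sol T pa Comp Lf (fun n => (K : ℚ) * (u n : ℚ)) (fun n α => (y n α : ℚ)) := by
  classical
  let I : Type := (A ⊕ Fin (Fintype.card A)) ⊕ Unit
  obtain ⟨K, hK, hKmain⟩ := exists_uniform_K (I := I) (A := A) (S01 I A) (S01_finite I A) H
  refine ⟨K, hK, ?_⟩
  intro N _ _ T hH Comp Lf u x0 hx0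
  -- functionals
  let slackF : N → A → ((N → A → ℚ) →ₗ[ℚ] ℚ) := fun c α =>
    { toFun := fun x => if c = T.root then 0 else x (T.par c) α - ∑ α' ∈ chA pa α, x c α'
      map_add' := by
        intro x y
        by_cases h : c = T.root
        · simp [h]
        · simp only [h, if_false, Pi.add_apply, sum_add_distrib]; ring
      map_smul' := by
        intro q x
        by_cases h : c = T.root
        · simp [h]
        · simp only [h, if_false, Pi.smul_apply, smul_eq_mul, RingHom.id_apply, ← mul_sum]; ring }
  let Φ : (N × A) ⊕ (N × A) → ((N → A → ℚ) →ₗ[ℚ] ℚ) := fun j =>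
    match j with
    | Sum.inl p => (LinearMap.proj p.2).comp (LinearMap.proj (R := ℚ) (φ := fun _ : N => A → ℚ) p.1)
    | Sum.inr p => slackF p.1 p.2
  have hΦl : ∀ n α (x : N → A → ℚ), Φ (Sum.inl (n, α)) x = x n α := fun n α x => rfl
  have hΦr : ∀ c α (x : N → A → ℚ), Φ (Sum.inr (c, α)) x =
      if c = T.root then 0 else x (T.par c) α - ∑ α' ∈ chA pa α, x c α' := fun n α x => rfl
  let U : Submodule ℚ (N → A → ℚ) :=
    { carrier := {z | (∀ n α, ¬ Comp n α → z n α = 0) ∧
        (∀ t α' α, pa α' = some α → ∑ c ∈ T.ch t, z c α' = z t α) ∧ ∀ e, Lf e → ∑ α, z e α = 0}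
      zero_mem' := by
        refine ⟨fun _ _ _ => rfl, fun t α' α _ => by simp, fun e _ => by simp⟩
      add_mem' := by
        rintro z z' ⟨h1, h2, h3⟩ ⟨h1', h2', h3'⟩
        refine ⟨fun n α h => by simp [h1 n α h, h1' n α h], fun t α' α h => ?_, fun e he => ?_⟩
        · simp only [Pi.add_apply, sum_add_distrib, h2 t α' α h, h2' t α' α h]
        · simp only [Pi.add_apply, sum_add_distrib, h3 e he, h3' e he, add_zero]
      smul_mem' := by
        rintro q z ⟨h1, h2, h3⟩
        refine ⟨fun n α h => by simp [h1 n α h], fun t α' α h => ?_, fun e he => ?_⟩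
        · simp only [Pi.smul_apply, smul_eq_mul, ← mul_sum, h2 t α' α h]
        · simp only [Pi.smul_apply, smul_eq_mul, ← mul_sum, h3 e he, mul_zero] }
  obtain ⟨x, hxU, hxnn, hxuniq⟩ := exists_basic Φ U x0
    (by
      rintro (⟨n, α⟩ | ⟨c, α⟩)
      · rw [hΦl]; exact hx0.nonneg n α
      · rw [hΦr]
        by_cases h : c = T.root
        · rw [if_pos h]
        · rw [if_neg h]
          have := hx0.sib c h α
          linarith)
    (by
      intro z _ hz
      ext n α
      exact hz (Sum.inl (n, α)))
  obtain ⟨hU1, hU2, hU3⟩ := hxU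
  -- `x` is a solution
  have hx : Sol T pa Comp Lf (fun n => (u n : ℚ)) x := by
    refine ⟨fun n α => hxnn (Sum.inl (n, α)), ?_, ?_, ?_, ?_⟩
    · intro n α h
      have h1 := hU1 n α h
      simp only [Pi.sub_apply, hx0.comp n α h, sub_zero] at h1
      exact h1
    · intro t α' α h
      have h1 := hU2 t α' α h
      simp only [Pi.sub_apply, sum_sub_distrib, hx0.child t α' α h] at h1
      linarith
    · intro c hc α
      have h1 := hxnn (Sum.inr (c, α))
      rw [hΦr, if_neg hc] at h1
      linarith
    · intro e he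
      have h1 := hU3 e he
      simp only [Pi.sub_apply, sum_sub_distrib, hx0.leaf e he] at h1
      linarith
  -- tight pairs
  let Tight : N → Finset (N × A) := fun t => univ.filter (fun p => p.1 ∈ T.ch t ∧ 0 < x t p.2 ∧
    ∑ α' ∈ chA pa p.2, x p.1 α' = x t p.2)
  have hTcard : ∀ t, (Tight t).card ≤ Fintype.card A := by
    intro t
    have h1 : (Tight t).card = ∑ α : A, ((Tight t).filter (fun p => p.2 = α)).card :=
      card_eq_sum_card_fiberwise (f := fun p : N × A => p.2) (fun p _ => mem_coe.2 (mem_univ _))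
    have h2 : ∀ α : A, ((Tight t).filter (fun p => p.2 = α)).card ≤ (chA pa α).card := by
      intro α
      by_cases hα : 0 < x t α
      · have h3 : ((Tight t).filter (fun p => p.2 = α)).card
            = (((Tight t).filter (fun p => p.2 = α)).image Prod.fst).card := by
          rw [card_image_of_injOn]
          rintro ⟨c, a⟩ h ⟨c', a'⟩ h' heq
          simp only [coe_filter, Set.mem_setOf_eq] at h h'
          simp only at heq
          rw [Prod.mk.injEq]
          exact ⟨heq, h.2.trans h'.2.symm⟩
        rw [h3]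
        apply card_full_le (T.ch t) (chA pa α) x (x t α) hα (fun c _ s _ => hx.nonneg c s)
          (fun s hs => hx.child t s α (mem_chA.1 hs))
        · intro c hc
          simp only [mem_image, mem_filter, Prod.exists, exists_and_right, exists_eq_right, Tight,
            mem_univ, true_and] at hc
          exact hc.1
        · intro c hc
          simp only [mem_image, mem_filter, Prod.exists, exists_and_right, exists_eq_right, Tight,
            mem_univ, true_and] at hc
          exact hc.2.2
      · have h3 : (Tight t).filter (fun p => p.2 = α) = ∅ := by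
          rw [Finset.eq_empty_iff_forall_notMem]
          rintro ⟨c, a⟩ h
          simp only [mem_filter, Tight, mem_univ, true_and] at h
          obtain ⟨⟨-, h4, -⟩, h5⟩ := h
          rw [h5] at h4
          exact hα h4
        rw [h3]; simp
    have h3 : ∑ α : A, (chA pa α).card ≤ Fintype.card A := by
      have h4 : ∑ α : A, (chA pa α).card = (univ.biUnion (fun α => chA pa α)).card := by
        rw [card_biUnion]
        intro α _ β _ hne
        rw [Function.onFun, Finset.disjoint_left]
        intro γ h5 h6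
        rw [mem_chA] at h5 h6
        rw [h5] at h6
        exact hne (Option.some.inj h6)
      rw [h4]
      exact card_le_univ _
    rw [h1]
    exact (sum_le_sum fun α _ => h2 α).trans h3
  choose τ hτ1 hτ2 using fun t => exists_enum (Tight t) (Fintype.card A) (hTcard t)
  -- matrices
  let pP : N → I → A → Prop := fun t i β =>
    match i with
    | Sum.inl (Sum.inl α') => pa α' = some β ∧ x t β ≠ 0
    | Sum.inl (Sum.inr k) => (∃ c, τ t k = some (c, β)) ∧ x t β ≠ 0
    | Sum.inr _ => Lf t ∧ x t β ≠ 0
  let pR : N → I → A → Prop := fun c i β =>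
    match i with
    | Sum.inl (Sum.inl α') => β = α' ∧ pa α' ≠ none ∧ x c β ≠ 0
    | Sum.inl (Sum.inr k) => (∃ α, τ (T.par c) k = some (c, α) ∧ pa β = some α) ∧ x c β ≠ 0
    | Sum.inr _ => False
  let P : N → I → A → ℤ := fun t i β => if pP t i β then 1 else 0
  let r : N → I → A → ℤ := fun t i β => if pR t i β then 1 else 0
  let b : N → I → ℤ := fun t i =>
    match i with
    | Sum.inl _ => 0
    | Sum.inr _ => if Lf t then u t else 0
  -- support reduction of sums
  have hite : ∀ (R : Type) [CommRing R] (n : N) (q : A → Prop) [DecidablePred q] (v : A → R)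
      (M : A → ℤ), (∀ β, q β → x n β ≠ 0 → M β = 1) → (∀ β, ¬ q β → M β = 0) →
      (∀ β, x n β = 0 → v β = 0) →
      ∑ β, (M β : R) * v β = ∑ β ∈ univ.filter q, v β := by
    intro R _ n q _ v M hM1 hM0 hv
    rw [sum_filter]
    refine sum_congr rfl fun β _ => ?_
    by_cases h : x n β = 0
    · rw [hv β h]; simp
    · by_cases hq : q β
      · rw [hM1 β hq h, if_pos hq]; simp
      · rw [hM0 β hq, if_neg hq]; simp
  -- generic evaluation of the rows for a vector supported in the support of `x`
  have hrowC1 : ∀ (R : Type) [CommRing R] (v : N → A → R), (∀ n β, x n β = 0 → v n β = 0) →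
      ∀ t α', (∑ β, (P t (Sum.inl (Sum.inl α')) β : R) * v t β -
        ∑ c ∈ T.ch t, ∑ β, (r c (Sum.inl (Sum.inl α')) β : R) * v c β)
        = ∑ β ∈ univ.filter (fun β => pa α' = some β), v t β -
          ∑ c ∈ T.ch t, if pa α' ≠ none then v c α' else 0 := by
    intro R _ v hv t α'
    congr 1
    · exact hite R t (fun β => pa α' = some β) (v t) _
        (fun β h1 h2 => if_pos ⟨h1, h2⟩) (fun β h1 => if_neg fun h => h1 h.1) (hv t)
    · refine sum_congr rfl fun c _ => ?_
      have h2 : ∑ β, (r c (Sum.inl (Sum.inl α')) β : R) * v c β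
          = ∑ β ∈ univ.filter (fun β => β = α' ∧ pa α' ≠ none), v c β :=
        hite R c (fun β => β = α' ∧ pa α' ≠ none) (v c) _
          (fun β h1 h2 => if_pos ⟨h1.1, h1.2, h2⟩) (fun β h1 => if_neg fun h => h1 ⟨h.1, h.2.1⟩)
          (hv c)
      rw [h2]
      by_cases hp : pa α' ≠ none
      · rw [if_pos hp]
        have : univ.filter (fun β => β = α' ∧ pa α' ≠ none) = {α'} := by
          ext β; simp [hp]
        rw [this, sum_singleton]
      · rw [if_neg hp]
        have : univ.filter (fun β => β = α' ∧ pa α' ≠ none) = ∅ := by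
          ext β; simp [hp]
        rw [this, sum_empty]
  have hrowT : ∀ (R : Type) [CommRing R] (v : N → A → R), (∀ n β, x n β = 0 → v n β = 0) →
      ∀ t k, (∑ β, (P t (Sum.inl (Sum.inr k)) β : R) * v t β -
        ∑ c ∈ T.ch t, ∑ β, (r c (Sum.inl (Sum.inr k)) β : R) * v c β)
        = ∑ β ∈ univ.filter (fun β => ∃ c, τ t k = some (c, β)), v t β -
          ∑ c ∈ T.ch t, ∑ β ∈ univ.filter (fun β => ∃ α, τ t k = some (c, α) ∧ pa β = some α),
            v c β := by
    intro R _ v hv t k
    congr 1
    · exact hite R t (fun β => ∃ c, τ t k = some (c, β)) (v t) _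
        (fun β h1 h2 => if_pos ⟨h1, h2⟩) (fun β h1 => if_neg fun h => h1 h.1) (hv t)
    · refine sum_congr rfl fun c hc => ?_
      have hpc : T.par c = t := (T.mem_ch.1 hc).2
      subst hpc
      exact hite R c (fun β => ∃ α, τ (T.par c) k = some (c, α) ∧ pa β = some α) (v c) _
        (fun β h1 h2 => if_pos ⟨h1, h2⟩) (fun β h1 => if_neg fun h => h1 h.1) (hv c)
  have hrowL : ∀ (R : Type) [CommRing R] (v : N → A → R), (∀ n β, x n β = 0 → v n β = 0) →
      ∀ t (o : Unit), (∑ β, (P t (Sum.inr o) β : R) * v t β -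
        ∑ c ∈ T.ch t, ∑ β, (r c (Sum.inr o) β : R) * v c β)
        = if Lf t then ∑ β, v t β else 0 := by
    intro R _ v hv t o
    have h2 : ∑ c ∈ T.ch t, ∑ β, (r c (Sum.inr o) β : R) * v c β = 0 := by
      apply sum_eq_zero; intro c _
      apply sum_eq_zero; intro β _
      simp [r, pR]
    rw [h2, sub_zero]
    have h3 : ∑ β, (P t (Sum.inr o) β : R) * v t β = ∑ β ∈ univ.filter (fun _ => Lf t), v t β :=
      hite R t (fun _ => Lf t) (v t) _
        (fun β h1 h2 => if_pos ⟨h1, h2⟩) (fun β h1 => if_neg fun h => h1 h.1) (hv t)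
    rw [h3]
    by_cases hl : Lf t
    · simp [hl]
    · simp [hl]
  -- tight value
  have hτval : ∀ t k c α, τ t k = some (c, α) → c ∈ T.ch t ∧ 0 < x t α ∧
      ∑ α' ∈ chA pa α, x c α' = x t α := by
    intro t k c α h
    have := hτ1 t k (c, α) h
    simpa [Tight] using this
  -- rows for `x`
  have hxrows : ∀ t, Row T ℚ r P b x t := by
    intro t i
    rcases i with (α' | k) | o
    · rw [hrowC1 ℚ x (fun n β h => h) t α']
      simp only [b, Int.cast_zero]
      rcases hp : pa α' with _ | α
      · simp
      · have h1 : univ.filter (fun β => some α = some β) = {α} := by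
          ext β; simp [eq_comm]
        rw [h1, sum_singleton]
        simp only [ne_eq, reduceCtorEq, not_false_eq_true, if_true]
        rw [hx.child t α' α hp, sub_self]
    · rw [hrowT ℚ x (fun n β h => h) t k]
      simp only [b, Int.cast_zero]
      rcases hk : τ t k with _ | ⟨c, α⟩
      · simp
      · obtain ⟨h1, h2, h3⟩ := hτval t k c α hk
        have e1 : univ.filter (fun β => ∃ c', (some (c, α) : Option (N × A)) = some (c', β)) = {α} := by
          ext β; simp [eq_comm]
        rw [e1, sum_singleton, sum_eq_single c]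
        · have e2 : univ.filter (fun β => ∃ α'', (some (c, α) : Option (N × A)) = some (c, α'') ∧
              pa β = some α'') = chA pa α := by
            ext β; simp [mem_chA]
          rw [e2, h3, sub_self]
        · intro c' _ hne
          apply sum_eq_zero
          intro β hβ
          simp only [mem_filter, mem_univ, true_and, Option.some.injEq, Prod.mk.injEq] at hβ
          obtain ⟨α'', ⟨h4, -⟩, -⟩ := hβ
          exact absurd h4.symm hne
        · intro hn; exact absurd h1 hn
    · rw [hrowL ℚ x (fun n β h => h) t o]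
      simp only [b]
      by_cases hl : Lf t
      · rw [if_pos hl, if_pos hl]; exact hx.leaf t hl
      · rw [if_neg hl, if_neg hl]; simp
  obtain ⟨y0, hy0⟩ := hKmain N T r P (fun n => mem_S01 _) (fun n => mem_S01 _) hH b x hxrows
  -- restrict to the support
  let y : N → A → ℤ := fun n α => if x n α = 0 then 0 else y0 n α
  have hysupp : ∀ n β, x n β = 0 → y n β = 0 := fun n β h => by simp [y, h]
  have hyrows : ∀ t, Row T ℤ r P (fun n i => K * b n i) y t := by
    intro t i
    have h1 := hy0 t i
    have h2 : ∑ α, ((P t i α : ℤ) : ℤ) * y t α = ∑ α, ((P t i α : ℤ) : ℤ) * y0 t α := by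
      refine sum_congr rfl fun α _ => ?_
      by_cases h : x t α = 0
      · have : P t i α = 0 := by
          rcases i with (α' | k) | o <;> simp [P, pP, h]
        rw [this]; simp
      · simp [y, h]
    have h3 : ∑ c ∈ T.ch t, ∑ α, ((r c i α : ℤ) : ℤ) * y c α
        = ∑ c ∈ T.ch t, ∑ α, ((r c i α : ℤ) : ℤ) * y0 c α := by
      refine sum_congr rfl fun c _ => sum_congr rfl fun α _ => ?_
      by_cases h : x c α = 0
      · have : r c i α = 0 := by
          rcases i with (α' | k) | o <;> simp [r, pR, h]
        rw [this]; simp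
      · simp [y, h]
    simp only [Int.cast_id] at h1 h2 h3 ⊢
    rw [h2, h3]
    exact h1
  have hyC1 : ∀ t α' α, pa α' = some α → ∑ c ∈ T.ch t, y c α' = y t α := by
    intro t α' α hp
    have h1 := hyrows t (Sum.inl (Sum.inl α'))
    rw [hrowC1 ℤ y hysupp t α'] at h1
    simp only [b, hp] at h1
    have e1 : univ.filter (fun β => some α = some β) = {α} := by
      ext β; simp [eq_comm]
    rw [e1, sum_singleton] at h1
    simp only [ne_eq, reduceCtorEq, not_false_eq_true, if_true, mul_zero, Int.cast_zero] at h1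
    linarith
  have hyL : ∀ e, Lf e → ∑ α, y e α = K * u e := by
    intro e he
    have h1 := hyrows e (Sum.inr ())
    rw [hrowL ℤ y hysupp e ()] at h1
    simp only [b, he, if_true] at h1
    simpa using h1
  have hyT : ∀ t c α, (c, α) ∈ Tight t → ∑ α' ∈ chA pa α, y c α' = y t α := by
    intro t c α hmem
    obtain ⟨k, hk⟩ := hτ2 t (c, α) hmem
    have hc : c ∈ T.ch t := (hτval t k c α hk).1
    have h1 := hyrows t (Sum.inl (Sum.inr k))
    rw [hrowT ℤ y hysupp t k] at h1
    simp only [b, hk] at h1
    have e1 : univ.filter (fun β => ∃ c', (some (c, α) : Option (N × A)) = some (c', β)) = {α} := by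
      ext β; simp [eq_comm]
    rw [e1, sum_singleton, sum_eq_single c] at h1
    · have e2 : univ.filter (fun β => ∃ α'', (some (c, α) : Option (N × A)) = some (c, α'') ∧
          pa β = some α'') = chA pa α := by
        ext β; simp [mem_chA]
      rw [e2] at h1
      simp only [mul_zero, Int.cast_zero] at h1
      linarith
    · intro c' _ hne
      apply sum_eq_zero
      intro β hβ
      simp only [mem_filter, mem_univ, true_and, Option.some.injEq, Prod.mk.injEq] at hβ
      obtain ⟨α'', ⟨h4, -⟩, -⟩ := hβ
      exact absurd h4.symm hne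
    · intro hn; exact absurd hc hn
  -- the difference vanishes
  have hzero : (fun n α => (K : ℚ) * x n α - (y n α : ℚ)) = (0 : N → A → ℚ) := by
    apply hxuniq
    · refine ⟨?_, ?_, ?_⟩
      · intro n α h
        have h1 := hx.comp n α h
        simp only [h1, hysupp n α h1]
        simp
      · intro t α' α hp
        have h1 := hyC1 t α' α hp
        have h2 := hx.child t α' α hp
        have h1' : ∑ c ∈ T.ch t, (y c α' : ℚ) = (y t α : ℚ) := by exact_mod_cast h1
        simp only [sum_sub_distrib, ← mul_sum, h2, h1']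
      · intro e he
        have h1 := hyL e he
        have h2 := hx.leaf e he
        have h1' : ∑ α, (y e α : ℚ) = (K : ℚ) * (u e : ℚ) := by exact_mod_cast h1
        simp only [sum_sub_distrib, ← mul_sum, h2, h1', sub_self]
    · rintro (⟨n, α⟩ | ⟨c, α⟩) h
      · rw [hΦl] at h ⊢
        simp only [h, hysupp n α h]
        simp
      · rw [hΦr] at h ⊢
        by_cases hc : c = T.root
        · rw [if_pos hc]
        · rw [if_neg hc] at h ⊢
          have hs : ∑ α' ∈ chA pa α, x c α' = x (T.par c) α := by linarith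
          have hcc : c ∈ T.ch (T.par c) := T.mem_ch.2 ⟨hc, rfl⟩
          have hyeq : ∑ α' ∈ chA pa α, y c α' = y (T.par c) α := by
            rcases (hx.nonneg (T.par c) α).lt_or_eq with hpos | h0
            · apply hyT (T.par c) c α
              simp only [Tight, mem_filter, mem_univ, true_and]
              exact ⟨hcc, hpos, hs⟩
            · rw [hysupp (T.par c) α h0.symm]
              apply sum_eq_zero
              intro α' hα'
              apply hysupp
              have h5 : ∑ α' ∈ chA pa α, x c α' = 0 := by rw [hs, ← h0]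
              rw [sum_eq_zero_iff_of_nonneg (fun s _ => hx.nonneg c s)] at h5
              exact h5 α' hα'
          have hyeq' : ∑ α' ∈ chA pa α, (y c α' : ℚ) = (y (T.par c) α : ℚ) := by
            exact_mod_cast hyeq
          simp only [sum_sub_distrib, ← mul_sum, hs, hyeq', sub_self]
  have hyx : ∀ n α, (y n α : ℚ) = (K : ℚ) * x n α := by
    intro n α
    have := congrFun (congrFun hzero n) α
    simp only [Pi.zero_apply] at this
    linarith
  have hKq : (0 : ℚ) ≤ (K : ℚ) := Nat.cast_nonneg K
  refine ⟨y, ⟨?_, ?_, ?_, ?_, ?_⟩⟩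
  · intro n α
    simp only [hyx]
    exact mul_nonneg hKq (hx.nonneg n α)
  · intro n α h
    simp only [hyx, hx.comp n α h, mul_zero]
  · intro t α' α hp
    simp only [hyx, ← mul_sum, hx.child t α' α hp]
  · intro c hc α
    simp only [hyx, ← mul_sum]
    exact mul_le_mul_of_nonneg_left (hx.sib c hc α) hKq
  · intro e he
    simp only [hyx, ← mul_sum, hx.leaf e he]

end Pool.Agent.H47.FC
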