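import Pool.Agent.H47.FC.Extract

set_option autoImplicit false

/-!
# Types of even edge sets of a graph with an elimination tree
-/

namespace Pool.Agent.H47.FC

open Finset

section host

variable {N : Type} [Fintype N] [DecidableEq N]

/-- number of incidences of the edge set `D` with the node `n` -/
def degT (T : RT N) (up : N → ℕ) (D : Finset N) (n : N) : ℕ :=
  (D.filter (fun e => T.par e = n)).card + (D.filter (fun e => ancAt T (up e) e = n)).card

/-- even edge sets -/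
def EvenT (T : RT N) (Lf : N → Prop) (up : N → ℕ) (D : Finset N) : Prop :=
  (∀ e ∈ D, Lf e) ∧ ∀ n, Even (degT T up D n)

open Classical in
/-- label of a node -/
noncomputable def label (Lf : N → Prop) (up : N → ℕ) (n : N) : Option ℕ :=
  if Lf n then some (up n) else none

end host

/-- raw types -/
abbrev Ty (n0 H : ℕ) : Type :=
  Finset (Fin n0) × (Fin n0 → Fin n0) × (Fin n0 → Fin (H + 1)) × (Fin n0 → Option (Fin (H + 1)))

namespace Ty

variable {n0 H : ℕ}

def act (θ : Ty n0 H) : Finset (Fin n0) := θ.1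
def par (θ : Ty n0 H) : Fin n0 → Fin n0 := θ.2.1
def dep (θ : Ty n0 H) : Fin n0 → Fin (H + 1) := θ.2.2.1
def lab (θ : Ty n0 H) : Fin n0 → Option (Fin (H + 1)) := θ.2.2.2

/-- abstract edges -/
def edg (θ : Ty n0 H) : Finset (Fin n0) := θ.act.filter (fun e => θ.lab e ≠ none)

/-- abstract upper end -/
def hi (θ : Ty n0 H) (e : Fin n0) : Fin n0 :=
  (θ.par)^[(θ.dep e : ℕ) - ((θ.lab e).elim 0 Fin.val)] e

def cnt (θ : Ty n0 H) (i : Fin n0) : ℕ :=
  (θ.edg.filter (fun e => θ.par e = i)).card + (θ.edg.filter (fun e => θ.hi e = i)).card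

structure Valid0 (θ : Ty n0 H) : Prop where
  v1 : ∀ i ∈ θ.act, (θ.dep i : ℕ) ≠ 0 → θ.par i ∈ θ.act ∧ (θ.dep (θ.par i) : ℕ) + 1 = θ.dep i
  v2 : ∀ i ∈ θ.act, ∀ j ∈ θ.act, (θ.dep i : ℕ) = 0 → (θ.dep j : ℕ) = 0 → i = j
  v4 : ∀ e ∈ θ.act, ∀ j, θ.lab e = some j → (j : ℕ) < θ.dep e

structure Valid (θ : Ty n0 H) : Prop extends Valid0 θ where
  v3 : ∀ i ∈ θ.act, Even (θ.cnt i)

end Ty

section place

variable {N : Type} [Fintype N] [DecidableEq N] {n0 H : ℕ}

/-- a placement of a type in a host -/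
structure Pl (T : RT N) (Lf : N → Prop) (up : N → ℕ) (θ : Ty n0 H) (φ : Fin n0 → N) : Prop where
  p1 : ∀ i ∈ θ.act, T.dep (φ i) = θ.dep i
  p2 : ∀ i ∈ θ.act, (θ.lab i).map Fin.val = label Lf up (φ i)
  p3 : ∀ i ∈ θ.act, (θ.dep i : ℕ) ≠ 0 → T.par (φ i) = φ (θ.par i)
  p4 : Set.InjOn φ θ.act

/-- the edge set of a placement -/
def plD (θ : Ty n0 H) (φ : Fin n0 → N) : Finset N := θ.edg.image φ

variable {T : RT N} {Lf : N → Prop} {up : N → ℕ} {θ : Ty n0 H} {φ : Fin n0 → N}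

lemma Pl.iter (h : Pl T Lf up θ φ) (hv : θ.Valid0) (e : Fin n0) (he : e ∈ θ.act) (k : ℕ) :
    k ≤ θ.dep e → (T.par)^[k] (φ e) = φ ((θ.par)^[k] e) ∧ (θ.par)^[k] e ∈ θ.act ∧
      (θ.dep ((θ.par)^[k] e) : ℕ) = θ.dep e - k := by
  induction k with
  | zero => intro _; exact ⟨rfl, he, rfl⟩
  | succ k ih =>
    intro hk
    obtain ⟨h1, h2, h3⟩ := ih (by omega)
    have h4 : (θ.dep ((θ.par)^[k] e) : ℕ) ≠ 0 := by omega
    obtain ⟨h5, h6⟩ := hv.v1 _ h2 h4
    rw [Function.iterate_succ_apply', Function.iterate_succ_apply', h1]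
    refine ⟨h.p3 _ h2 h4, h5, by omega⟩

lemma Pl.edge (h : Pl T Lf up θ φ) (e : Fin n0) (he : e ∈ θ.edg) :
    Lf (φ e) ∧ θ.lab e ≠ none ∧ (θ.lab e).elim 0 Fin.val = up (φ e) := by
  classical
  rw [Ty.edg, mem_filter] at he
  have h1 := h.p2 e he.1
  unfold label at h1
  rcases hl : θ.lab e with _ | j
  · exact absurd hl he.2
  · rw [hl] at h1
    by_cases hLf : Lf (φ e)
    · rw [if_pos hLf] at h1
      refine ⟨hLf, by simp, ?_⟩
      simpa using h1
    · rw [if_neg hLf] at h1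
      simp at h1

lemma Pl.hi (h : Pl T Lf up θ φ) (hv : θ.Valid0) (e : Fin n0) (he : e ∈ θ.edg) :
    ancAt T (up (φ e)) (φ e) = φ (θ.hi e) ∧ θ.hi e ∈ θ.act := by
  obtain ⟨h1, h2, h3⟩ := h.edge e he
  have hea : e ∈ θ.act := (mem_filter.1 he).1
  have h5 := h.iter hv e hea ((θ.dep e : ℕ) - up (φ e)) (Nat.sub_le _ _)
  unfold ancAt Ty.hi
  rw [h3, h.p1 e hea]
  exact ⟨h5.1, h5.2.1⟩

lemma Pl.lo (h : Pl T Lf up θ φ) (hv : θ.Valid0) (e : Fin n0) (he : e ∈ θ.edg) :
    T.par (φ e) = φ (θ.par e) ∧ θ.par e ∈ θ.act := by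
  have hea : e ∈ θ.act := (mem_filter.1 he).1
  obtain ⟨h1, h2, h3⟩ := h.edge e he
  obtain ⟨j, hj⟩ := Option.ne_none_iff_exists'.1 h2
  have h4 := hv.v4 e hea j hj
  have h5 : (θ.dep e : ℕ) ≠ 0 := by omega
  exact ⟨h.p3 e hea h5, (hv.v1 e hea h5).1⟩

lemma Pl.card_filter (h : Pl T Lf up θ φ) (Q : N → Prop) [DecidablePred Q] :
    ((plD θ φ).filter Q).card = (θ.edg.filter (fun e => Q (φ e))).card := by
  unfold plD
  rw [filter_image, card_image_of_injOn]
  intro a ha b hb hab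
  apply h.p4 _ _ hab
  · rw [mem_coe] at *
    exact (mem_filter.1 (mem_filter.1 ha).1).1
  · rw [mem_coe] at *
    exact (mem_filter.1 (mem_filter.1 hb).1).1

/-- degrees in the image are the abstract degrees -/
lemma Pl.degT_eq (h : Pl T Lf up θ φ) (hv : θ.Valid0) (i : Fin n0) (hi : i ∈ θ.act) :
    degT T up (plD θ φ) (φ i) = θ.cnt i := by
  unfold degT Ty.cnt
  rw [h.card_filter, h.card_filter]
  congr 2
  · apply filter_congr
    intro e he
    obtain ⟨h1, h2⟩ := h.lo hv e he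
    rw [h1]
    exact ⟨fun hh => h.p4 h2 hi hh, fun hh => by rw [hh]⟩
  · apply filter_congr
    intro e he
    obtain ⟨h1, h2⟩ := h.hi hv e he
    rw [h1]
    exact ⟨fun hh => h.p4 h2 hi hh, fun hh => by rw [hh]⟩

lemma Pl.degT_zero (h : Pl T Lf up θ φ) (hv : θ.Valid0) (n : N) (hn : ∀ i ∈ θ.act, φ i ≠ n) :
    degT T up (plD θ φ) n = 0 := by
  unfold degT
  rw [h.card_filter, h.card_filter]
  have h1 : θ.edg.filter (fun e => T.par (φ e) = n) = ∅ := by
    rw [filter_eq_empty_iff]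
    intro e he hh
    obtain ⟨h1, h2⟩ := h.lo hv e he
    exact hn _ h2 (h1.symm.trans hh)
  have h2 : θ.edg.filter (fun e => ancAt T (up (φ e)) (φ e) = n) = ∅ := by
    rw [filter_eq_empty_iff]
    intro e he hh
    obtain ⟨h1, h2⟩ := h.hi hv e he
    exact hn _ h2 (h1.symm.trans hh)
  rw [h1, h2]; rfl

/-- placements of valid types give even sets -/
lemma Pl.evenT (h : Pl T Lf up θ φ) (hv : θ.Valid) : EvenT T Lf up (plD θ φ) := by
  refine ⟨?_, ?_⟩
  · intro e he
    obtain ⟨i, hi, rfl⟩ := mem_image.1 he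
    exact (h.edge i hi).1
  · intro n
    by_cases hn : ∃ i ∈ θ.act, φ i = n
    · obtain ⟨i, hi, rfl⟩ := hn
      rw [h.degT_eq hv.toValid0 i hi]
      exact hv.v3 i hi
    · push Not at hn
      rw [h.degT_zero hv.toValid0 n hn]
      exact Even.zero

end place

section encode

variable {N : Type} [Fintype N] [DecidableEq N] (T : RT N)

lemma par_ancAt {j : ℕ} {e : N} (h : j + 1 ≤ T.dep e) : T.par (ancAt T (j + 1) e) = ancAt T j e := by
  unfold ancAt
  have h1 : T.dep e - j = (T.dep e - (j + 1)) + 1 := by omega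
  rw [h1, Function.iterate_succ_apply']

lemma dep_iter {e : N} (k : ℕ) : k ≤ T.dep e → T.dep ((T.par)^[k] e) = T.dep e - k := by
  induction k with
  | zero => intro _; rfl
  | succ k ih =>
    intro hk
    have h1 := ih (by omega)
    rw [Function.iterate_succ_apply']
    have h2 : (T.par)^[k] e ≠ T.root := by
      intro h
      rw [h, T.dep_root] at h1
      omega
    have h3 := T.dep_par _ h2
    omega

lemma dep_ancAt {j : ℕ} {e : N} (h : j ≤ T.dep e) : T.dep (ancAt T j e) = j := by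
  unfold ancAt
  rw [dep_iter T _ (Nat.sub_le _ _)]
  omega

/-- `n` is an ancestor of `e` (or equal) -/
def Anc (n e : N) : Prop := T.dep n ≤ T.dep e ∧ ancAt T (T.dep n) e = n

lemma Anc.refl (e : N) : Anc T e e := ⟨le_rfl, ancAt_self T⟩

lemma Anc.par {n e : N} (h : Anc T n e) (hn : n ≠ T.root) : Anc T (T.par n) e := by
  have h1 := T.dep_par n hn
  refine ⟨by have := h.1; omega, ?_⟩
  have h2 : T.dep (T.par n) + 1 ≤ T.dep e := by rw [h1]; exact h.1
  rw [← par_ancAt T h2, h1, h.2]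

open Classical in
/-- all ancestors of the members of `F` -/
noncomputable def span (F : Finset N) : Finset N := univ.filter (fun n => ∃ e ∈ F, Anc T n e)

lemma mem_span {F : Finset N} {n : N} : n ∈ span T F ↔ ∃ e ∈ F, Anc T n e := by
  classical
  simp [span]

variable {Lf : N → Prop} {up : N → ℕ}

lemma mem_of_leaf (hleaf : ∀ c, c ≠ T.root → ¬ Lf (T.par c)) {F : Finset N} {n : N}
    (hn : n ∈ span T F) (hl : Lf n) : n ∈ F := by
  obtain ⟨e, he, h1, h2⟩ := (mem_span T).1 hn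
  rcases Nat.eq_or_lt_of_le h1 with h3 | h3
  · rw [h3, ancAt_self] at h2
    rwa [← h2]
  · exfalso
    have h4 := par_ancAt T (show T.dep n + 1 ≤ T.dep e from h3)
    rw [h2] at h4
    apply hleaf (ancAt T (T.dep n + 1) e)
    · intro h5
      have h6 := dep_ancAt T (show T.dep n + 1 ≤ T.dep e from h3)
      rw [h5, T.dep_root] at h6
      omega
    · rw [h4]; exact hl

/-- every small even set is the edge set of a placement of a valid type -/
theorem exists_placement {n0 H : ℕ} (hH : ∀ n, T.dep n ≤ H)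
    (hleaf : ∀ c, c ≠ T.root → ¬ Lf (T.par c)) (hup : ∀ e, Lf e → up e < T.dep e)
    (F : Finset N) (hF : EvenT T Lf up F) (hne : F.Nonempty) (hcard : (span T F).card ≤ n0) :
    ∃ (θ : Ty n0 H) (φ : Fin n0 → N), θ.Valid ∧ Pl T Lf up θ φ ∧ plD θ φ = F := by
  classical
  set S := span T F with hS
  have hSne : S.Nonempty := by
    obtain ⟨e, he⟩ := hne
    exact ⟨e, (mem_span T).2 ⟨e, he, Anc.refl T e⟩⟩
  have hn0 : 0 < n0 := lt_of_lt_of_le (card_pos.2 hSne) hcard
  haveI : Nonempty (Fin n0) := ⟨⟨0, hn0⟩⟩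
  haveI : Nonempty N := ⟨T.root⟩
  have hemb : Nonempty ({n // n ∈ S} ↪ Fin n0) :=
    Function.Embedding.nonempty_of_card_le (by simpa using hcard)
  obtain ⟨emb⟩ := hemb
  let g : N → Fin n0 := fun n => if h : n ∈ S then emb ⟨n, h⟩ else ⟨0, hn0⟩
  have hginj : Set.InjOn g (S : Set N) := by
    intro a ha b hb hab
    have ha' : a ∈ S := ha
    have hb' : b ∈ S := hb
    simp only [g, ha', hb', dif_pos] at hab
    exact congrArg Subtype.val (emb.injective hab)
  let φ : Fin n0 → N := Function.invFunOn g (S : Set N)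
  have hφg : ∀ n ∈ S, φ (g n) = n := fun n hn => hginj.leftInvOn_invFunOn hn
  let θ : Ty n0 H := (S.image g, fun i => g (T.par (φ i)),
    fun i => Fin.ofNat (H + 1) (T.dep (φ i)),
    fun i => if Lf (φ i) then some (Fin.ofNat (H + 1) (up (φ i))) else none)
  have hact : ∀ i, i ∈ θ.act ↔ ∃ n ∈ S, g n = i := fun i => by
    simp only [θ, Ty.act, mem_image]
  have hpar : ∀ n ∈ S, θ.par (g n) = g (T.par n) := fun n hn => by
    simp only [θ, Ty.par, hφg n hn]
  have hdep' : ∀ i, (θ.dep i : ℕ) = T.dep (φ i) := fun i => by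
    simp only [θ, Ty.dep, Fin.ofNat]
    exact Nat.mod_eq_of_lt (Nat.lt_succ_of_le (hH _))
  have hdep : ∀ n ∈ S, (θ.dep (g n) : ℕ) = T.dep n := fun n hn => by rw [hdep', hφg n hn]
  have hlab : ∀ n ∈ S, Lf n → θ.lab (g n) = some (Fin.ofNat (H + 1) (up n)) := fun n hn hl => by
    simp only [θ, Ty.lab, hφg n hn, if_pos hl]
  have hlab' : ∀ n ∈ S, ¬ Lf n → θ.lab (g n) = none := fun n hn hl => by
    simp only [θ, Ty.lab, hφg n hn, if_neg hl]
  have hofnat : ∀ n, Lf n → ((Fin.ofNat (H + 1) (up n) : Fin (H + 1)) : ℕ) = up n := fun n hl => by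
    simp only [Fin.ofNat]
    apply Nat.mod_eq_of_lt
    have := hup n hl
    have := hH n
    omega
  have hSpar : ∀ n ∈ S, n ≠ T.root → T.par n ∈ S := fun n hn hnr => by
    obtain ⟨e, he, h1⟩ := (mem_span T).1 hn
    exact (mem_span T).2 ⟨e, he, h1.par T hnr⟩
  have hv0 : θ.Valid0 := by
    refine ⟨?_, ?_, ?_⟩
    · intro i hi hd
      obtain ⟨n, hn, rfl⟩ := (hact i).1 hi
      rw [hdep n hn] at hd ⊢
      have hnr : n ≠ T.root := by
        rintro rfl
        exact hd T.dep_root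
      rw [hpar n hn]
      refine ⟨(hact _).2 ⟨_, hSpar n hn hnr, rfl⟩, ?_⟩
      rw [hdep _ (hSpar n hn hnr)]
      exact T.dep_par n hnr
    · intro i hi j hj hdi hdj
      obtain ⟨n, hn, rfl⟩ := (hact i).1 hi
      obtain ⟨n', hn', rfl⟩ := (hact j).1 hj
      rw [hdep n hn] at hdi
      rw [hdep n' hn'] at hdj
      rw [T.eq_root n hdi, T.eq_root n' hdj]
    · intro e he j hj
      obtain ⟨n, hn, rfl⟩ := (hact e).1 he
      by_cases hl : Lf n
      · rw [hlab n hn hl] at hj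
        have h1 := Option.some.inj hj
        rw [← h1, hofnat n hl, hdep n hn]
        exact hup n hl
      · rw [hlab' n hn hl] at hj
        cases hj
  have hpl : Pl T Lf up θ φ := by
    refine ⟨?_, ?_, ?_, ?_⟩
    · intro i _
      exact (hdep' i).symm
    · intro i hi
      obtain ⟨n, hn, rfl⟩ := (hact i).1 hi
      rw [hφg n hn]
      unfold label
      by_cases hl : Lf n
      · rw [hlab n hn hl, if_pos hl, Option.map_some, hofnat n hl]
      · rw [hlab' n hn hl, if_neg hl, Option.map_none]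
    · intro i hi hd
      obtain ⟨n, hn, rfl⟩ := (hact i).1 hi
      rw [hdep n hn] at hd
      have hnr : n ≠ T.root := by
        rintro rfl
        exact hd T.dep_root
      rw [hpar n hn, hφg n hn, hφg _ (hSpar n hn hnr)]
    · intro a ha b hb hab
      obtain ⟨n, hn, rfl⟩ := (hact a).1 ha
      obtain ⟨n', hn', rfl⟩ := (hact b).1 hb
      rw [hφg n hn, hφg n' hn'] at hab
      rw [hab]
  have hD : plD θ φ = F := by
    ext e
    unfold plD
    rw [mem_image]
    constructor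
    · rintro ⟨i, hi, rfl⟩
      have h1 := (hpl.edge i hi).1
      obtain ⟨n, hn, rfl⟩ := (hact i).1 (mem_filter.1 hi).1
      rw [hφg n hn] at h1 ⊢
      exact mem_of_leaf T hleaf hn h1
    · intro he
      have heS : e ∈ S := (mem_span T).2 ⟨e, he, Anc.refl T e⟩
      refine ⟨g e, ?_, hφg e heS⟩
      rw [Ty.edg, mem_filter]
      refine ⟨(hact _).2 ⟨e, heS, rfl⟩, ?_⟩
      rw [hlab e heS (hF.1 e he)]
      simp
  refine ⟨θ, φ, ⟨hv0, ?_⟩, hpl, hD⟩
  intro i hi
  rw [← hpl.degT_eq hv0 i hi, hD]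
  exact hF.2 _

end encode

end Pool.Agent.H47.FC
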